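import Pool.Agent.Q36.RD.App
import Pool.Agent.Y627.PT.Eta

set_option autoImplicit false

/-!
# Patterns in progressions
-/

namespace Pool.Agent.Q36.RD

open PowerSeries Pool.Agent.TH693.QQ

/-- no section vanishes -/
theorem proj_ne_zero (m n : ℤ) (hodd : Odd (m + 3 * n))
    (hcase : (0 ≤ n ∧ 3 * m + n < 0) ∨ (m + 3 * n < 0 ∧ ¬ (3 : ℤ) ∣ m)) {F : S2} (hF : EQ m n F)
    (M : ℕ) (hM : 0 < M) (r : ℕ) : proj M r F ≠ 0 := by
  obtain ⟨k, hk, h1⟩ := main m n hodd hcase hF M hM r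
  intro h
  have h2 := congrArg (coeff k) h
  rw [proj, coeff_mk, map_zero, if_pos (show k % M = r % M from hk)] at h2
  exact h1 h2

theorem EQ_P (t : ℕ) : EQ (-(t : ℤ)) 0 (Pool.Agent.TH693.PP.P ^ t) := by
  refine ⟨t, 0, 0, 0, by norm_num, by norm_num, ?_⟩
  have h := Pool.Agent.TH693.PP.P_mul_E
  have h' : Pool.Agent.TH693.PP.P * E2 = 1 := h
  rw [pow_zero, pow_zero, mul_one, mul_one, ← mul_pow, h', one_pow]

theorem P_proj_ne (t : ℕ) (ht : Odd t) (M : ℕ) (hM : 0 < M) (r : ℕ) :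
    proj M r (Pool.Agent.TH693.PP.P ^ t) ≠ 0 := by
  refine proj_ne_zero (-(t : ℤ)) 0 ?_ (Or.inl ⟨le_rfl, ?_⟩) (EQ_P t) M hM r
  · rw [mul_zero, add_zero]
    exact (by exact_mod_cast ht : Odd (t : ℤ)).neg
  · have := ht.pos
    omega

/-- patterns of multipartition functions -/
theorem pat_P {k : ℕ} (t : Fin k → ℕ) (ht : ∀ j, Odd (t j)) (m : Fin k → ℕ) (hm : ∀ j, 0 < m j)
    (hsep : ∀ j l, j ≠ l → ¬ (24 : ℤ) ∣ t j * (m l / Nat.gcd (m j) (m l) : ℕ) -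
      t l * (m j / Nat.gcd (m j) (m l) : ℕ)) (M : ℕ) (hM : 0 < M) :
    ∃ C : ℕ, ∀ (K : ℕ) (c : Fin k → ℕ → ZMod 2) (ρ : ℕ), (∃ j, ∃ i < K, c j i ≠ 0) →
      ∀ (κ : ZMod 2) (A : ℕ), ∃ n, A ≤ n ∧ n ≤ C * (A + K) ∧ n % M = ρ % M ∧
        ∑ j, ∑ i ∈ Finset.range K, c j i * coeff (m j * n + i) (Pool.Agent.TH693.PP.P ^ t j) = κ := by
  obtain ⟨C, hC⟩ := Pool.Agent.Y627.PT.main (fun j => Pool.Agent.TH693.PP.P ^ t j)
    (fun j => ((t j : ℕ) : ℤ) * 1) (fun j => Pool.Agent.Y627.PT.sec_pow Pool.Agent.Y627.PT.sec_P (t j))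
    m hm (fun j h => by
      rw [mul_one] at h
      obtain ⟨a, ha⟩ := ht j
      omega) (fun j l hjl h => hsep j l hjl (by simpa using h)) M hM
  refine ⟨C, fun K c ρ hc κ A => hC K c ρ ?_ κ A⟩
  obtain ⟨j, i, hi, hci⟩ := hc
  exact ⟨j, i, hi, hci, P_proj_ne (t j) (ht j) _ (Nat.mul_pos (hm j) hM) _⟩

/-- patterns of the partitions without parts 3 modulo 6 -/
theorem sec_GG3 : Pool.Agent.Y627.PT.Sec GG3 4 := by
  have h1 := Pool.Agent.Y627.PT.sec_mul Pool.Agent.Y627.PT.sec_P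
    (Pool.Agent.Y627.PT.sec_ex Pool.Agent.Y627.PT.sec_P (d := 3) (by norm_num))
  have h2 : Pool.Agent.TH693.PP.P * PowerSeries.expand 3 (by norm_num) Pool.Agent.TH693.PP.P = GG3 := by
    have hP : Pool.Agent.TH693.PP.P * E2 = 1 := Pool.Agent.TH693.PP.P_mul_E
    have hP3 : PowerSeries.expand 3 (by norm_num) Pool.Agent.TH693.PP.P * E3 = 1 := by
      have := congrArg (PowerSeries.expand 3 (by norm_num)) hP
      rw [map_mul, map_one] at this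
      exact this
    have h3 : (Pool.Agent.TH693.PP.P * PowerSeries.expand 3 (by norm_num) Pool.Agent.TH693.PP.P) *
        (E2 * E3) = GG3 * (E2 * E3) := by
      rw [← mul_assoc GG3, GG3_eq]
      calc _ = (Pool.Agent.TH693.PP.P * E2) *
          (PowerSeries.expand 3 (by norm_num) Pool.Agent.TH693.PP.P * E3) := by ring
        _ = 1 := by rw [hP, hP3, one_mul]
    exact mul_right_cancel₀ (mul_ne_zero E2_ne E3_ne) h3
  have h4 : Pool.Agent.Y627.PT.Sec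
      (Pool.Agent.TH693.PP.P * PowerSeries.expand 3 (by norm_num) Pool.Agent.TH693.PP.P)
      (1 + (3 : ℕ) * 1) := h1
  rw [h2] at h4
  exact h4

theorem pat_3 (M : ℕ) (hM : 0 < M) :
    ∃ C : ℕ, ∀ (K : ℕ) (c : ℕ → ZMod 2) (ρ : ℕ),
      (∃ i < K, c i ≠ 0 ∧ ∃ N, N ≡ ρ + i [MOD M] ∧ N % 4 < 2) →
      ∀ (κ : ZMod 2) (A : ℕ), ∃ n, A ≤ n ∧ n ≤ C * (A + K) ∧ n % M = ρ % M ∧
        ∑ i ∈ Finset.range K, c i * coeff (n + i) GG3 = κ := by
  obtain ⟨C, hC⟩ := Pool.Agent.Y627.PT.main (Y := Unit) (fun _ => GG3)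
    (fun _ => 4) (fun _ => sec_GG3) (fun _ => 1) (fun _ => one_pos) (fun _ => by norm_num)
    (fun x y hxy => absurd (Subsingleton.elim x y) hxy) M hM
  refine ⟨C, fun K c ρ hc κ A => ?_⟩
  obtain ⟨n, h1, h2, h3, h4⟩ := hC K (fun _ => c) ρ (by
    obtain ⟨i, hi, hci, N, hN, hN4⟩ := hc
    refine ⟨(), i, hi, hci, ?_⟩
    obtain ⟨n, -, hn⟩ := three (4 * M) (by positivity) N (fun n => by
      have : (4 * M * n + N) % 4 = N % 4 := by rw [mul_assoc, Nat.mul_add_mod]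
      omega) 0
    intro h5
    have h6 := congrArg (coeff (4 * M * n + N)) h5
    rw [proj, coeff_mk, map_zero, if_pos, GG3, coeff_mk] at h6
    · exact (ZMod.natCast_ne_zero_iff_odd.2 hn) h6
    · rw [one_mul, one_mul]
      have h7 : 4 * M * n + N ≡ N [MOD M] := by
        have : 4 * M * n + N = N + M * (4 * n) := by ring
        rw [this]
        simp [Nat.ModEq]
      exact h7.trans hN) κ A
  refine ⟨n, h1, h2, h3, ?_⟩
  simpa using h4

end Pool.Agent.Q36.RD
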