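import Pool.Agent.Q36.RD.Gen

set_option autoImplicit false

/-!
# Applications: 6-regular partitions, partitions without parts 3 mod 6
-/

namespace Pool.Agent.Q36.RD

open PowerSeries

/-- infinitely many nonzero coefficients -/
theorem main_inf (m n : ℤ) (hodd : Odd (m + 3 * n))
    (hcase : (0 ≤ n ∧ 3 * m + n < 0) ∨ (m + 3 * n < 0 ∧ ¬ (3 : ℤ) ∣ m)) {F : S2} (hF : EQ m n F)
    (A : ℕ) (hA : 0 < A) (r N : ℕ) : ∃ k : ℕ, N ≤ k ∧ r ≤ k ∧ k ≡ r [MOD A] ∧ coeff k F ≠ 0 := by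
  have hlt : r + A * N < A * (r + N + 1) := by nlinarith
  obtain ⟨k, hk, h1⟩ := main m n hodd hcase hF (A * (r + N + 1)) (by positivity) (r + A * N)
  have h2 : r + A * N ≤ k := by
    have h3 : k % (A * (r + N + 1)) = r + A * N := by
      rw [hk, Nat.mod_eq_of_lt hlt]
    rw [← h3]
    exact Nat.mod_le _ _
  refine ⟨k, by nlinarith, by omega, ?_, h1⟩
  have h4 : k ≡ r + A * N [MOD A] := hk.of_mul_right _
  exact h4.trans (by simp [Nat.ModEq])

theorem E3_sq : E3 ^ 2 = PowerSeries.expand 6 (by norm_num) E2 := by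
  rw [Pool.Agent.H397R2.PP.pow_eq_expand' 2 1 (by norm_num) (by norm_num), E3,
    ← PowerSeries.expand_mul]

/-- the generating function of the 6-regular partitions modulo 2 -/
noncomputable def F6 : S2 :=
  PowerSeries.mk fun n => ((Nat.Partition.restricted n (fun i => ¬ 6 ∣ i)).card : ZMod 2)

theorem EQ_F6 : EQ (-1) 2 F6 := by
  refine ⟨1, 0, 0, 2, by norm_num, by norm_num, ?_⟩
  rw [pow_one, pow_zero, pow_zero, mul_one, one_mul, E3_sq]
  exact regular 6 (by norm_num)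

theorem six (A : ℕ) (hA : 0 < A) (B N : ℕ) :
    ∃ n, N ≤ n ∧ Odd (Nat.Partition.restricted (A * n + B) (fun i => ¬ 6 ∣ i)).card := by
  obtain ⟨k, h1, h2, h3, h4⟩ := main_inf (-1) 2 (by decide) (Or.inl ⟨by norm_num, by norm_num⟩)
    EQ_F6 A hA B (A * N + B)
  obtain ⟨n, hn⟩ : ∃ n, k = A * n + B := by
    have h5 := (Nat.modEq_iff_dvd' h2).1 h3.symm
    obtain ⟨n, hn⟩ := h5
    exact ⟨n, by omega⟩
  refine ⟨n, ?_, ?_⟩
  · have : A * N ≤ A * n := by omega
    exact Nat.le_of_mul_le_mul_left this hA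
  · rw [← hn]
    rw [F6, coeff_mk] at h4
    exact (ZMod.natCast_ne_zero_iff_odd).1 h4

/-! ## partitions without parts 3 mod 6 -/

/-- the generating function modulo 2 -/
noncomputable def GG3 : S2 :=
  PowerSeries.mk fun n => ((Nat.Partition.restricted n (fun i => ¬ i % 6 = 3)).card : ZMod 2)

theorem E2_ne : (E2 : S2) ≠ 0 := by
  intro h
  have h1 : constantCoeff E2 = 1 := Pool.Agent.H397R2.PP.T3.cc_pent
  rw [h] at h1
  simp at h1

theorem E3_cc : constantCoeff E3 = 1 := by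
  have h1 : constantCoeff E2 = 1 := Pool.Agent.H397R2.PP.T3.cc_pent
  rw [E3, ← coeff_zero_eq_constantCoeff_apply, PowerSeries.coeff_expand]
  simp only [dvd_zero, if_true, Nat.zero_div]
  rw [coeff_zero_eq_constantCoeff_apply, h1]

theorem E3_ne : E3 ≠ 0 := by
  intro h
  have h1 := E3_cc
  rw [h] at h1
  simp at h1

theorem GG3_eq : GG3 * E2 * E3 = 1 := by
  have h1 : GG3 * E2 * PowerSeries.expand 6 (by norm_num) E2 = PowerSeries.expand 3 (by norm_num) E2 :=
    no_three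
  rw [← E3_sq] at h1
  have h2 : E3 * (GG3 * E2 * E3) = E3 * 1 := by
    rw [mul_one]
    have : E3 * (GG3 * E2 * E3) = GG3 * E2 * E3 ^ 2 := by ring
    rw [this, h1]
    rfl
  exact mul_left_cancel₀ E3_ne h2

instance charP_S2 : CharP S2 2 :=
  charP_of_injective_ringHom (f := PowerSeries.C (R := ZMod 2)) PowerSeries.C_injective 2

theorem pow8_inj {f g : S2} (h : f ^ 8 = g ^ 8) : f = g := by
  have : ExpChar S2 2 := ExpChar.prime Nat.prime_two
  exact iterateFrobenius_inj S2 2 3 (by simpa [iterateFrobenius_def] using h)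

/-- the modular equation of level 3 for `f_1` and `f_3` -/
theorem modular : (E2 * E3) ^ 3 = E2 ^ 12 + X * E3 ^ 12 := by
  have h1 := Pool.Agent.H397R2.PP.modular_equation
  have h2 : PowerSeries.expand 3 (by norm_num) Db = X ^ 3 * E3 ^ 24 := by
    rw [Db_def, map_mul, map_pow, PowerSeries.expand_X]
    rfl
  rw [show Pool.Agent.H397R2.PP.Db = X * E2 ^ 24 from Db_def,
    show PowerSeries.expand 3 (by norm_num) (X * E2 ^ 24 : S2) = X ^ 3 * E3 ^ 24 from h2] at h1
  have h3 : (X : S2) ^ 4 * (((E2 * E3) ^ 3) ^ 8) = X ^ 4 * ((E2 ^ 12 + X * E3 ^ 12) ^ 8) := by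
    have hch : ((E2 ^ 12 + X * E3 ^ 12 : S2)) ^ 8 = (E2 ^ 12) ^ 8 + (X * E3 ^ 12) ^ 8 := by
      have := add_pow_char_pow (E2 ^ 12 : S2) (X * E3 ^ 12) (p := 2) (n := 3)
      norm_num at this
      exact this
    rw [hch]
    have h4 := CharTwo.add_self_eq_zero ((X : S2) ^ 12 * E3 ^ 96)
    linear_combination -h1 - h4
  exact pow8_inj (mul_left_cancel₀ (pow_ne_zero 4 X_ne_zero) h3)

/-- the coefficients with index `≡ r` modulo 4 -/
noncomputable def sec4 (r : ℕ) (f : S2) : S2 := PowerSeries.mk fun n => coeff (4 * n + r) f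

theorem sec4_mul {r : ℕ} (hr : r < 4) (f g : S2) :
    sec4 r (f * PowerSeries.expand 4 (by norm_num) g) = sec4 r f * g := by
  ext n
  rw [sec4, coeff_mk, coeff_mul, coeff_mul]
  have hinj : Function.Injective (fun x : ℕ × ℕ => (4 * x.1 + r, 4 * x.2)) := by
    rintro ⟨a, b⟩ ⟨c, d⟩ h
    simp only [Prod.mk.injEq] at h ⊢
    omega
  have h1 : ∑ p ∈ Finset.HasAntidiagonal.antidiagonal n, coeff p.1 (sec4 r f) * coeff p.2 g =
      ∑ p ∈ (Finset.HasAntidiagonal.antidiagonal n).image (fun x : ℕ × ℕ => (4 * x.1 + r, 4 * x.2)),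
        coeff p.1 f * coeff p.2 (PowerSeries.expand 4 (by norm_num) g) := by
    rw [Finset.sum_image (fun a _ b _ h => hinj h)]
    refine Finset.sum_congr rfl fun p _ => ?_
    rw [sec4, coeff_mk, PowerSeries.coeff_expand_mul]
  rw [h1]
  symm
  apply Finset.sum_subset
  · intro p hp
    obtain ⟨q, hq, rfl⟩ := Finset.mem_image.1 hp
    rw [Finset.HasAntidiagonal.mem_antidiagonal] at hq ⊢
    simp only
    omega
  · intro p hp hnot
    rw [Finset.HasAntidiagonal.mem_antidiagonal] at hp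
    rw [PowerSeries.coeff_expand]
    split_ifs with h4
    · exfalso
      apply hnot
      obtain ⟨c, hc⟩ := h4
      rw [Finset.mem_image]
      refine ⟨((p.1 - r) / 4, c), ?_, ?_⟩
      · rw [Finset.HasAntidiagonal.mem_antidiagonal]
        simp only
        omega
      · refine Prod.ext ?_ ?_
        · simp only
          omega
        · simp only
          omega
    · rw [mul_zero]

theorem sec4_add (r : ℕ) (f g : S2) : sec4 r (f + g) = sec4 r f + sec4 r g := by
  ext n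
  simp [sec4]

theorem sec4_0_expand (g : S2) : sec4 0 (PowerSeries.expand 4 (by norm_num) g) = g := by
  ext n
  rw [sec4, coeff_mk, add_zero, PowerSeries.coeff_expand_mul]

theorem sec4_1_expand (g : S2) : sec4 1 (PowerSeries.expand 4 (by norm_num) g) = 0 := by
  ext n
  rw [sec4, coeff_mk, PowerSeries.coeff_expand, if_neg (by omega), map_zero]

theorem sec4_0_X (g : S2) : sec4 0 (X * PowerSeries.expand 4 (by norm_num) g) = 0 := by
  ext n
  rw [sec4, coeff_mk, map_zero]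
  rcases n with _ | n
  · simp
  · rw [show 4 * (n + 1) + 0 = (4 * n + 3) + 1 by ring, coeff_succ_X_mul, PowerSeries.coeff_expand,
      if_neg (by omega)]

theorem sec4_1_X (g : S2) : sec4 1 (X * PowerSeries.expand 4 (by norm_num) g) = g := by
  ext n
  rw [sec4, coeff_mk, coeff_succ_X_mul, PowerSeries.coeff_expand_mul]

theorem GG3_4 : GG3 * PowerSeries.expand 4 (by norm_num) (E2 * E3) =
    PowerSeries.expand 4 (by norm_num) (E2 ^ 3) + X * PowerSeries.expand 4 (by norm_num) (E3 ^ 3) := by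
  rw [← Pool.Agent.H397R2.PP.pow_eq_expand' 4 2 (by norm_num) (by norm_num),
    ← Pool.Agent.H397R2.PP.pow_eq_expand' 4 2 (by norm_num) (by norm_num),
    ← Pool.Agent.H397R2.PP.pow_eq_expand' 4 2 (by norm_num) (by norm_num)]
  have h1 : GG3 * (E2 * E3) ^ 4 = (E2 * E3) ^ 3 := by
    have : GG3 * (E2 * E3) ^ 4 = (GG3 * E2 * E3) * (E2 * E3) ^ 3 := by ring
    rw [this, GG3_eq, one_mul]
  rw [h1, modular]
  ring

theorem EQ_sec0 : EQ 2 (-1) (sec4 0 GG3) := by
  refine ⟨0, 2, 1, 0, by norm_num, by norm_num, ?_⟩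
  have h1 := congrArg (sec4 0) GG3_4
  rw [sec4_mul (by norm_num), sec4_add, sec4_0_expand, sec4_0_X, add_zero] at h1
  have h2 : E2 * (sec4 0 GG3 * E2 ^ 0 * E3 ^ 1) = E2 * (E2 ^ 2 * E3 ^ 0) := by
    linear_combination h1
  exact mul_left_cancel₀ E2_ne h2

theorem EQ_sec1 : EQ (-1) 2 (sec4 1 GG3) := by
  refine ⟨1, 0, 0, 2, by norm_num, by norm_num, ?_⟩
  have h1 := congrArg (sec4 1) GG3_4
  rw [sec4_mul (by norm_num), sec4_add, sec4_1_expand, sec4_1_X, zero_add] at h1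
  have h2 : E3 * (sec4 1 GG3 * E2 ^ 1 * E3 ^ 0) = E3 * (E2 ^ 0 * E3 ^ 2) := by
    linear_combination h1
  exact mul_left_cancel₀ E3_ne h2

theorem three (A : ℕ) (hA : 0 < A) (B : ℕ) (h4 : ∀ n, (A * n + B) % 4 ≠ 2 ∧ (A * n + B) % 4 ≠ 3)
    (N : ℕ) :
    ∃ n, N ≤ n ∧ Odd (Nat.Partition.restricted (A * n + B) (fun i => ¬ i % 6 = 3)).card := by
  have hA4 : A % 4 = 0 := by
    have h0 := h4 0
    have h1 := h4 1
    have h2 := h4 2
    have h3 := h4 3
    simp only [mul_zero, zero_add, mul_one] at h0 h1 h2 h3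
    omega
  have hB4 : B % 4 = 0 ∨ B % 4 = 1 := by
    have h0 := h4 0
    simp only [mul_zero, zero_add] at h0
    omega
  obtain ⟨A', rfl⟩ : ∃ A', A = 4 * A' := ⟨A / 4, by omega⟩
  have hA' : 0 < A' := by omega
  have key : ∀ r : ℕ, B % 4 = r → (∃ k, A' * N + B / 4 ≤ k ∧ B / 4 ≤ k ∧ k ≡ B / 4 [MOD A'] ∧
      coeff k (sec4 r GG3) ≠ 0) →
      ∃ n, N ≤ n ∧ Odd (Nat.Partition.restricted (4 * A' * n + B) (fun i => ¬ i % 6 = 3)).card := by
    rintro r hr ⟨k, h1, h2, h3, h5⟩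
    obtain ⟨n, hn⟩ : ∃ n, k = A' * n + B / 4 := by
      have h6 := (Nat.modEq_iff_dvd' h2).1 h3.symm
      obtain ⟨n, hn⟩ := h6
      exact ⟨n, by omega⟩
    refine ⟨n, ?_, ?_⟩
    · have : A' * N ≤ A' * n := by omega
      exact Nat.le_of_mul_le_mul_left this hA'
    · rw [sec4, coeff_mk, GG3, coeff_mk] at h5
      have h6 := (ZMod.natCast_ne_zero_iff_odd).1 h5
      have h7 : 4 * k + r = 4 * A' * n + B := by
        rw [hn]
        have : 4 * A' * n = 4 * (A' * n) := by ring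
        omega
      rw [h7] at h6
      exact h6
  rcases hB4 with h | h
  · exact key 0 h (main_inf 2 (-1) (by decide) (Or.inr ⟨by norm_num, by norm_num⟩)
      EQ_sec0 A' hA' (B / 4) (A' * N + B / 4))
  · exact key 1 h (main_inf (-1) 2 (by decide) (Or.inl ⟨by norm_num, by norm_num⟩)
      EQ_sec1 A' hA' (B / 4) (A' * N + B / 4))

end Pool.Agent.Q36.RD
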