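import Mathlib

set_option autoImplicit false

/-!
# Hahn series with rational exponents over an algebraic closure of `F_2`

`ev ξ a f = f (ξ q ^ a)` for a power series `f`.
-/

namespace Pool.Agent.Q36.RD

abbrev kk : Type := AlgebraicClosure (ZMod 2)

/-- Hahn series in `q` with rational exponents -/
abbrev P : Type := HahnSeries ℚ kk

noncomputable instance : DecidableEq kk := Classical.decEq _

instance : CharP P 2 := charP_of_injective_ringHom (HahnSeries.C_injective (Γ := ℚ) (R := kk)) 2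

/-- multiplication by `a` -/
def sc (a : ℚ) : ℕ →+ ℚ where
  toFun n := a * n
  map_zero' := by simp
  map_add' x y := by push_cast; ring

theorem sc_le {a : ℚ} (ha : 0 < a) (m n : ℕ) : sc a m ≤ sc a n ↔ m ≤ n := by
  show a * m ≤ a * n ↔ m ≤ n
  rw [mul_le_mul_iff_right₀ ha]
  exact Nat.cast_le

theorem sc_inj {a : ℚ} (ha : 0 < a) : Function.Injective (sc a) := by
  intro m n h
  exact le_antisymm ((sc_le ha m n).1 h.le) ((sc_le ha n m).1 h.ge)

/-- `f ↦ f (ξ q ^ a)` -/
noncomputable def ev (ξ : kk) (a : ℚ) : PowerSeries kk →+* P :=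
  if h : 0 < a then
    (HahnSeries.embDomainRingHom (sc a) (sc_inj h) (sc_le h)).comp
      ((HahnSeries.toPowerSeries (R := kk)).symm.toRingHom.comp (PowerSeries.rescale ξ))
  else HahnSeries.C.comp PowerSeries.constantCoeff

theorem ev_coeff {a : ℚ} (ha : 0 < a) (ξ : kk) (f : PowerSeries kk) (n : ℕ) :
    (ev ξ a f).coeff (a * n) = ξ ^ n * PowerSeries.coeff n f := by
  rw [ev, dif_pos ha]
  show (HahnSeries.embDomain _ _).coeff _ = _
  rw [show a * (n : ℚ) = (⟨⟨sc a, sc_inj ha⟩, sc_le ha _ _⟩ : ℕ ↪o ℚ) n from rfl,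
    HahnSeries.embDomain_coeff]
  show PowerSeries.coeff n (PowerSeries.rescale ξ f) = _
  rw [PowerSeries.coeff_rescale]

theorem ev_coeff' {a : ℚ} (ha : 0 < a) (ξ : kk) (f : PowerSeries kk) (n : ℕ) (e : ℚ)
    (he : e = a * n) : (ev ξ a f).coeff e = ξ ^ n * PowerSeries.coeff n f := by
  rw [he]; exact ev_coeff ha ξ f n

theorem ev_coeff_not {a : ℚ} (ha : 0 < a) (ξ : kk) (f : PowerSeries kk) (e : ℚ)
    (he : ∀ n : ℕ, e ≠ a * n) : (ev ξ a f).coeff e = 0 := by
  rw [ev, dif_pos ha]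
  apply HahnSeries.embDomain_of_notMem_range
  rintro ⟨n, hn⟩
  exact he n hn.symm

theorem ev_ext {x y : P} {a : ℚ} (h1 : ∀ n : ℕ, x.coeff (a * n) = y.coeff (a * n))
    (h2 : ∀ e : ℚ, (∀ n : ℕ, e ≠ a * n) → x.coeff e = y.coeff e) : x = y := by
  ext e
  by_cases h : ∃ n : ℕ, e = a * n
  · obtain ⟨n, rfl⟩ := h
    exact h1 n
  · push Not at h
    exact h2 e h

theorem ev_rescale {a : ℚ} (ha : 0 < a) (ξ ζ : kk) (f : PowerSeries kk) :
    ev ξ a (PowerSeries.rescale ζ f) = ev (ζ * ξ) a f := by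
  refine ev_ext (a := a) (fun n => ?_) fun e he => ?_
  · rw [ev_coeff ha, ev_coeff ha, PowerSeries.coeff_rescale, mul_pow]
    ring
  · rw [ev_coeff_not ha _ _ _ he, ev_coeff_not ha _ _ _ he]

theorem ev_expand {a : ℚ} (ha : 0 < a) (ξ : kk) (m : ℕ) (hm : m ≠ 0) (f : PowerSeries kk) :
    ev ξ a (PowerSeries.expand m hm f) = ev (ξ ^ m) (m * a) f := by
  have hm' : (0 : ℚ) < m := by exact_mod_cast Nat.pos_of_ne_zero hm
  refine ev_ext (a := a) (fun n => ?_) fun e he => ?_
  · rw [ev_coeff ha, PowerSeries.coeff_expand]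
    split_ifs with h
    · obtain ⟨k, rfl⟩ := h
      rw [Nat.mul_div_cancel_left _ (Nat.pos_of_ne_zero hm),
        ev_coeff' (by positivity) (ξ ^ m) f k _ (by push_cast; ring), ← pow_mul]
    · rw [mul_zero, ev_coeff_not (by positivity)]
      intro k hk
      apply h
      refine ⟨k, ?_⟩
      have h1 : (n : ℚ) = (m * k : ℕ) := by
        push_cast
        have h2 : a * (n : ℚ) = a * (m * k) := by rw [hk]; ring
        exact mul_left_cancel₀ ha.ne' h2
      exact_mod_cast h1
  · rw [ev_coeff_not ha _ _ _ he, ev_coeff_not (by positivity)]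
    intro k hk
    apply he (m * k)
    rw [hk]
    push_cast
    ring

theorem ev_C {a : ℚ} (ha : 0 < a) (ξ c : kk) : ev ξ a (PowerSeries.C c) = HahnSeries.C c := by
  refine ev_ext (a := a) (fun n => ?_) fun e he => ?_
  · rw [ev_coeff ha, PowerSeries.coeff_C, HahnSeries.C_apply]
    split_ifs with h
    · subst h
      simp
    · rw [HahnSeries.coeff_single_of_ne]
      · simp
      · simp [ha.ne', h]
  · rw [ev_coeff_not ha _ _ _ he, HahnSeries.C_apply, HahnSeries.coeff_single_of_ne]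
    intro h
    exact he 0 (by simpa using h)

theorem ev_X {a : ℚ} (ha : 0 < a) (ξ : kk) : ev ξ a PowerSeries.X = HahnSeries.single a ξ := by
  refine ev_ext (a := a) (fun n => ?_) fun e he => ?_
  · rw [ev_coeff ha, PowerSeries.coeff_X]
    by_cases h : n = 1
    · subst h
      simp
    · rw [if_neg h, HahnSeries.coeff_single_of_ne]
      · simp
      · intro h2
        apply h
        have h3 : a * (n : ℚ) = a * 1 := by rw [h2, mul_one]
        have := mul_left_cancel₀ ha.ne' h3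
        exact_mod_cast this
  · rw [ev_coeff_not ha _ _ _ he, HahnSeries.coeff_single_of_ne]
    intro h
    exact he 1 (by rw [h]; simp)

/-- the valuation -/
noncomputable abbrev v : AddValuation P (WithTop ℚ) := HahnSeries.addVal ℚ kk

theorem v_eq_of {x : P} {e : ℚ} (h1 : x.coeff e ≠ 0) (h2 : ∀ e' < e, x.coeff e' = 0) :
    v x = e := by
  rw [HahnSeries.addVal_apply]
  apply HahnSeries.orderTop_eq_of_le h1
  intro g hg
  by_contra hlt
  push Not at hlt
  exact hg (h2 _ hlt)

theorem v_ev {a : ℚ} (ha : 0 < a) {ξ : kk} (hξ : ξ ≠ 0) {f : PowerSeries kk} {n : ℕ}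
    (h1 : PowerSeries.coeff n f ≠ 0) (h2 : ∀ m < n, PowerSeries.coeff m f = 0) :
    v (ev ξ a f) = ((a * n : ℚ) : WithTop ℚ) := by
  apply v_eq_of
  · rw [ev_coeff ha]
    exact mul_ne_zero (pow_ne_zero _ hξ) h1
  · intro e he
    by_cases h : ∃ m : ℕ, e = a * m
    · obtain ⟨m, rfl⟩ := h
      rw [ev_coeff ha, h2 m, mul_zero]
      rw [mul_lt_mul_iff_right₀ ha] at he
      exact_mod_cast he
    · push Not at h
      exact ev_coeff_not ha _ _ _ h

end Pool.Agent.Q36.RD
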