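import Pool.Agent.Q36.RD.CaseB2

set_option autoImplicit false

/-!
# Progressions, case `0 ≤ n`, `3 m + n < 0`: the contradiction
-/

namespace Pool.Agent.Q36.RD

open PowerSeries

theorem caseA {Q : ℕ} (hQ : Odd Q) {u ρ : ℕ} {m n : ℤ} {F : S2} (hF : EQ m n F)
    (hn : 0 ≤ n) (hmn : 3 * m + n < 0)
    (hc2 : (2 ^ (u + 3) : ℤ) ∣ Q ^ 2 * (3 * m + n) - 3 * (24 * ρ + (m + 3 * n)))
    (hvan : ∀ k : ℕ, (2 ^ u : ℤ) ∣ k - ρ → (Q : ℤ) ∣ k - ρ → coeff k F = 0) : False := by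
  classical
  have hQ0 : 0 < Q := hQ.pos
  have hQq : (0 : ℚ) < Q := by exact_mod_cast hQ0
  have hNodd : Odd (3 * Q) := (by decide : Odd 3).mul hQ
  have hN0 : 0 < 3 * Q := hNodd.pos
  obtain ⟨η, hη⟩ := exists_prim hNodd
  have hη0 : η ≠ 0 := hη.ne_zero hN0.ne'
  have hη3 : IsPrimitiveRoot (η ^ 3) Q := hη.pow hN0 rfl
  obtain ⟨σ0, g0⟩ := exists_good hNodd
  set σ : GG := σ0.symm with hσdef
  have hfixS : FixS σ := g0.fixS.symm
  obtain ⟨ξt, hVt, hmt⟩ := g0.mv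
  have hξt := root_of_mv hNodd hVt hmt
  have hσt : σ (dK (ξt, 1 / ((3 * Q : ℕ) : ℚ))) = dK (1, ((3 * Q : ℕ) : ℚ)) := by
    rw [hσdef, AlgEquiv.symm_apply_eq]
    exact hmt.symm
  have : NeZero Q := ⟨hQ0.ne'⟩
  obtain ⟨jt, hjt, hyt⟩ := hη3.eq_pow_of_pow_eq_one (ξ := ξt ^ 3) (by rw [← pow_mul, hξt])
  set a : ℚ := 1 / ((3 * Q : ℕ) : ℚ) with ha
  have ha' : 3 * a = 1 / (Q : ℚ) := by
    rw [ha]
    push_cast
    field_simp
  have ha0 : 0 < a := by rw [ha]; positivity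
  set ξ : ℕ → kk := fun j => η ^ j with hξdef
  have hRN : ∀ j : ℕ, RN Q ((ξ j) ^ 3, 3 * a) := by
    intro j
    rw [ha']
    apply RN_down hQ
    rw [hξdef]
    simp only
    rw [← pow_mul, ← pow_mul, mul_comm j (3 * Q), pow_mul, hη.pow_eq_one, one_pow]
  have hV : ∀ j : ℕ, Vx ((ξ j) ^ 3, 3 * a) := fun j => (hRN j).vx
  have hVc : ∀ j : ℕ, Vc (ξ j, a) := hV
  have hex : ∀ j : ℕ, ∃ y, RN Q y ∧ σ (dK ((ξ j) ^ 3, 3 * a)) = dK y := fun j => RN.act σ (hRN j)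
  choose Y hY1 hY2 using hex
  have hYV : ∀ j, Vx (Y j) := fun j => (hY1 j).vx
  have hex2 : ∀ j : ℕ, ∃ z, Stp 3 (Y j) z ∧ σ (dK (((ξ j) ^ 3) ^ 3, 3 * (3 * a))) = dK z := by
    intro j
    exact act_stp σ three_mem (hV j) (hYV j) (hY2 j) (Or.inl ⟨rfl, by push_cast; rfl⟩)
  choose Z hZ1 hZ2 using hex2
  have hZV : ∀ j, Vx (Z j) := fun j => (hYV j).stp three_mem (hZ1 j)
  have hex3 : ∀ j : ℕ, ∃ η1 : kk, η1 ^ 3 = (Y j).1 ∧ Vc (η1, (Y j).2 / 3) ∧
      σ (cK (ξ j, a)) = cK (η1, (Y j).2 / 3) := fun j => act_c σ (hVc j) (hYV j) (hY2 j)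
  choose A1 hA1 hA2 hA3 using hex3
  have hex4 : ∀ j : ℕ, ∃ η1 : kk, η1 ^ 3 = (Z j).1 ∧ Vc (η1, (Z j).2 / 3) ∧
      σ (cK ((ξ j) ^ 3, 3 * a)) = cK (η1, (Z j).2 / 3) :=
    fun j => act_c σ (hVc j).up (hZV j) (hZ2 j)
  choose A2 hB1 hB2 hB3 using hex4
  set g : ℕ → P := fun j => cP (A1 j) ((Y j).2 / 3) ^ m * cP (A2 j) ((Z j).2 / 3) ^ n with hgdef
  have hg : ∀ j ∈ Finset.range Q, ((σ (wK m n (ξ j, a)) : KK) : Om) = io (g j) := by
    intro j _
    rw [wK, map_mul, map_zpow₀, map_zpow₀, hA3, coe_mul', coe_zpow, coe_zpow, coe_cK (hA2 j)]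
    have h1 : ((σ (cK ((ξ j) ^ 3, 3 * a)) : KK) : Om) = io (cP (A2 j) ((Z j).2 / 3)) := by
      rw [hB3 j, coe_cK (hB2 j)]
    rw [h1, hgdef, map_mul, map_zpow₀, map_zpow₀]
  have hgne : ∀ j, g j ≠ 0 := fun j =>
    mul_ne_zero (zpow_ne_zero _ (cP_ne (hA2 j).pos.1 (hA2 j).pos.2))
      (zpow_ne_zero _ (cP_ne (hB2 j).pos.1 (hB2 j).pos.2))
  have hgod : ∀ j, od (g j) = m * ((Y j).2 / 3) + n * ((Z j).2 / 3) := by
    intro j
    have e1 := cP_ne (hA2 j).pos.1 (hA2 j).pos.2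
    have e2 := cP_ne (hB2 j).pos.1 (hB2 j).pos.2
    rw [hgdef]
    simp only at e1 e2 ⊢
    rw [od_mul (zpow_ne_zero _ e1) (zpow_ne_zero _ e2), od_zpow e1, od_zpow e2,
      od_cP (hA2 j).pos.1 (hA2 j).pos.2, od_cP (hB2 j).pos.1 (hB2 j).pos.2]
  -- the special vertex
  have hξ3 : (ξ jt) ^ 3 = ξt ^ 3 := by
    rw [← hyt, hξdef]
    simp only
    rw [← pow_mul, ← pow_mul, mul_comm]
  have hYt : Y jt = (1, (Q : ℚ)) := by
    have hs : Stp 3 ((ξ jt) ^ 3, 3 * a) (ξt, a) := by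
      refine Or.inr ⟨hξ3.symm, ?_⟩
      simp only
      push_cast
      ring
    obtain ⟨y', h1, h2⟩ := act_stp σ three_mem (hV jt) (hYV jt) (hY2 jt) hs
    have h3 : y' = (1, ((3 * Q : ℕ) : ℚ)) :=
      dK_inj ((hYV jt).stp three_mem h1) (Vx_M hNodd) (h2.symm.trans hσt)
    subst h3
    rcases h1 with ⟨-, h4⟩ | ⟨-, h4⟩
    · apply ((hY1 jt).le).2
      simp only at h4
      push_cast at h4
      linarith
    · exfalso
      have h5 := ((hY1 jt).le).1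
      simp only at h4
      push_cast at h4
      linarith
  have hZt : (Z jt).2 = Q / 3 := by
    rcases hZ1 jt with ⟨h4, h5⟩ | ⟨-, h5⟩
    · exfalso
      rw [hYt] at h4 h5
      simp only at h4 h5
      have h6 : Z jt = (1, ((3 * Q : ℕ) : ℚ)) := by
        refine Prod.ext ?_ ?_
        · rw [h4]; simp
        · rw [h5]; push_cast; rfl
      have h7 : σ (dK (((ξ jt) ^ 3) ^ 3, 3 * (3 * a))) = σ (dK (ξt, a)) := by
        rw [hZ2, h6, hσt]
      have h8 := dK_inj (hVc jt).up hVt (σ.injective h7)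
      have h9 := congrArg Prod.snd h8
      simp only at h9
      linarith
    · rw [h5, hYt]
      push_cast
      rfl
  have hYlt : ∀ j ∈ Finset.range Q, j ≠ jt → (Y j).2 < Q := by
    intro j hj hne
    refine lt_of_le_of_ne ((hY1 j).le).1 ?_
    intro h1
    have h2 := ((hY1 j).le).2 h1
    have h4 : dK ((ξ j) ^ 3, 3 * a) = dK ((ξ jt) ^ 3, 3 * a) := by
      apply σ.injective
      rw [hY2, hY2, h2, hYt]
    have h5 := congrArg Prod.fst (dK_inj (hV _) (hV _) h4)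
    simp only [hξdef] at h5
    rw [← pow_mul, ← pow_mul, mul_comm j, mul_comm jt, pow_mul, pow_mul] at h5
    exact hne (hη3.pow_inj (Finset.mem_range.1 hj) hjt h5)
  -- orthogonality
  have hsum : ∀ d : ℤ, ∑ j ∈ Finset.range Q, ξ j ^ (24 * d) = if (Q : ℤ) ∣ d then 1 else 0 := by
    intro d
    have h1 : ∀ j ∈ Finset.range Q, ξ j ^ (24 * d) = (η ^ (24 * d)) ^ j := by
      intro j _
      simp only [hξdef]
      rw [← zpow_natCast η, ← zpow_natCast (η ^ (24 * d)), ← zpow_mul, ← zpow_mul, mul_comm (j : ℤ)]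
    rw [Finset.sum_congr rfl h1, geo hQ]
    · have d1 : ((3 * Q : ℕ) : ℤ) ∣ 24 * d ↔ (Q : ℤ) ∣ d := by
        push_cast
        rw [show 24 * d = 3 * (8 * d) by ring, mul_dvd_mul_iff_left (by norm_num : (3 : ℤ) ≠ 0)]
        constructor
        · intro h
          have hc : IsCoprime (Q : ℤ) 8 := by
            rw [show (8 : ℤ) = ((8 : ℕ) : ℤ) from rfl, Nat.isCoprime_iff_coprime]
            rw [show 8 = 2 ^ 3 by norm_num]
            exact Nat.Coprime.pow_right _ (Nat.coprime_two_right.2 hQ)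
          exact hc.dvd_of_dvd_mul_left h
        · intro h
          exact h.mul_left 8
      simp only [hη.zpow_eq_one_iff_dvd, d1]
    · rw [← zpow_natCast, ← zpow_mul, show 24 * d * (Q : ℤ) = ((3 * Q : ℕ) : ℤ) * (8 * d) by
        push_cast; ring, zpow_mul, zpow_natCast, hη.pow_eq_one, one_zpow]
  -- the relation
  have hcl : Cl ((1 / ((3 * Q : ℕ) : ℚ)) * ((24 * ρ + (m + 3 * n) : ℤ) : ℚ)) (u + 3)
      ((Q : ℚ) / 9 * ((3 * m + n : ℤ) : ℚ)) := by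
    obtain ⟨c, hc⟩ := hc2
    refine ⟨9 * Q, ?_, c, ?_⟩
    · intro h
      have := (by decide : Odd 9).mul hQ
      exact Nat.not_even_iff_odd.2 this (even_iff_two_dvd.2 h)
    have h1 : ((Q : ℚ) ^ 2 * ((3 * m + n : ℤ) : ℚ) - 3 * ((24 * ρ + (m + 3 * n) : ℤ) : ℚ)) =
        2 ^ (u + 3) * c := by
      exact_mod_cast hc
    push_cast at h1 ⊢
    field_simp
    linear_combination 3 * h1
  have hrel := relation hN0 (fun j _ => hVc j) hF hsum hvan hfixS (g := g) hg hcl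
  rw [Finset.sum_eq_single jt] at hrel
  · have h1 : (g jt).coeff ((Q : ℚ) / 9 * ((3 * m + n : ℤ) : ℚ)) ≠ 0 := by
      have h2 := hgod jt
      rw [hYt, hZt] at h2
      have h3 : (Q : ℚ) / 9 * ((3 * m + n : ℤ) : ℚ) = (g jt).order := by
        unfold od at h2
        rw [h2]
        push_cast
        ring
      rw [h3]
      intro h4
      exact hgne jt (HahnSeries.coeff_order_eq_zero.1 h4)
    exact mul_ne_zero (zpow_ne_zero _ (pow_ne_zero _ hη0)) h1 hrel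
  · intro j hj hne
    rw [HahnSeries.coeff_eq_zero_of_lt_order, mul_zero]
    have h2 := hgod j
    unfold od at h2
    rw [h2]
    have h3 := hYlt j hj hne
    have h4 := (hYV j).pos.2
    have h5 : (Y j).2 / 3 ≤ (Z j).2 := by
      rcases hZ1 j with ⟨-, h6⟩ | ⟨-, h6⟩
      · rw [h6]
        push_cast
        linarith
      · rw [h6]
        push_cast
        exact le_rfl
    have hn' : (0 : ℚ) ≤ n := by exact_mod_cast hn
    have hmn' : (3 * (m : ℚ) + n) < 0 := by exact_mod_cast hmn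
    have h6 : (n : ℚ) * ((Y j).2 / 3 / 3) ≤ n * ((Z j).2 / 3) := by
      apply mul_le_mul_of_nonneg_left _ hn'
      linarith
    push_cast
    nlinarith [mul_lt_mul_of_neg_left h3 hmn']
  · intro h
    exact absurd (Finset.mem_range.2 hjt) h

end Pool.Agent.Q36.RD
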