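import Pool.Agent.Q36.RD.Fin

set_option autoImplicit false

/-!
# Progressions, case `m + 3 n < 0`
-/

namespace Pool.Agent.Q36.RD

open PowerSeries

theorem cK_theta {x : kk × ℚ} (hx : Vx x) : cK x = dK x + dK (x.1 ^ 9, 9 * x.2) := by
  have h9 : Vx (x.1 ^ 9, 9 * x.2) := by
    have := (hx.up three_mem).up three_mem
    push_cast at this
    rw [← pow_mul, ← mul_assoc] at this
    norm_num at this
    exact this
  apply Subtype.ext
  have e1 : ((dK x + dK (x.1 ^ 9, 9 * x.2) : KK) : Om) = (dK x : Om) + (dK (x.1 ^ 9, 9 * x.2) : Om) := rfl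
  rw [e1, coe_cK hx.vc, coe_dK hx, coe_dK h9, cP_theta hx.pos.2, map_add]
  rfl

theorem val3 {a : ℚ} (ha : 0 < a) : padicValRat 3 (3 * a) = 1 + padicValRat 3 a := by
  have : Fact (Nat.Prime 3) := ⟨Nat.prime_three⟩
  rw [padicValRat.mul (by norm_num) ha.ne']
  congr 1
  have := padicValRat.self (p := 3) (by norm_num)
  push_cast at this
  exact this

theorem val3' {a : ℚ} (ha : 0 < a) : padicValRat 3 (a / 3) = padicValRat 3 a - 1 := by
  have h := val3 (a := a / 3) (by positivity)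
  rw [mul_div_cancel₀ _ (by norm_num : (3 : ℚ) ≠ 0)] at h
  omega

theorem up3 {σ : GG} (h : Pres σ 3) {x y : kk × ℚ} (hx : Vx x) (hy : Vx y)
    (hxy : σ (dK x) = dK y) : σ (dK (x.1 ^ 3, 3 * x.2)) = dK (y.1 ^ 3, 3 * y.2) := by
  have hs : Stp 3 x (x.1 ^ 3, 3 * x.2) := Or.inl ⟨rfl, by push_cast; rfl⟩
  obtain ⟨y', h1, h2⟩ := act_stp σ three_mem hx hy hxy hs
  rcases h1 with ⟨h3, h4⟩ | ⟨h3, h4⟩
  · rw [h2]
    congr 1
    push_cast at h4
    exact Prod.ext h3 h4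
  · exfalso
    have h5 := h _ y' (hx.stp three_mem hs) (hy.stp three_mem (Or.inr ⟨h3, h4⟩)) h2
    have h6 := h x y hx hy hxy
    push_cast at h4
    rw [h4, val3' hy.pos.2, val3 hx.pos.2] at h5
    omega

theorem Vx.up3 {x : kk × ℚ} (hx : Vx x) : Vx (x.1 ^ 3, 3 * x.2) := hx.vc

theorem act_cK {σ : GG} (h : Pres σ 3) {x y : kk × ℚ} (hx : Vx x) (hy : Vx y)
    (hxy : σ (dK x) = dK y) : σ (cK x) = cK y := by
  have h1 := RD.up3 h hx hy hxy
  have h2 := RD.up3 h hx.up3 hy.up3 h1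
  simp only at h2
  have e1 : ∀ z : kk × ℚ, ((z.1 ^ 3) ^ 3, 3 * (3 * z.2)) = (z.1 ^ 9, 9 * z.2) := by
    intro z
    rw [← pow_mul, ← mul_assoc]
    norm_num
  rw [e1, e1] at h2
  rw [cK_theta hx, cK_theta hy, map_add, hxy, h2]

theorem act_wK {σ : GG} (h : Pres σ 3) (m n : ℤ) {x y : kk × ℚ} (hx : Vx x) (hy : Vx y)
    (hxy : σ (dK x) = dK y) : σ (wK m n x) = wK m n y := by
  rw [wK, wK, map_mul, map_zpow₀, map_zpow₀, act_cK h hx hy hxy,
    act_cK h hx.up3 hy.up3 (RD.up3 h hx hy hxy)]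

/-! ## paths of length `N` from another vertex -/

inductive RB (x0 : kk × ℚ) : ℕ → kk × ℚ → Prop
  | base : RB x0 1 x0
  | step {N p : ℕ} {x y : kk × ℚ} : p ∈ OP → RB x0 N x → Stp p x y → RB x0 (p * N) y

theorem RB.vx {x0 : kk × ℚ} (h0 : Vx x0) {N : ℕ} {x : kk × ℚ} (h : RB x0 N x) : Vx x := by
  induction h with
  | base => exact h0
  | step hp _ hs ih => exact ih.stp hp hs

theorem RB.struct {x0 : kk × ℚ} {N : ℕ} {x : kk × ℚ} (h : RB x0 N x) :
    ∃ b c : ℕ, 0 < b ∧ 0 < c ∧ b * c = N ∧ x.2 = (b : ℚ) / c * x0.2 ∧ x.1 ^ c = x0.1 ^ b := by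
  induction h with
  | base => exact ⟨1, 1, one_pos, one_pos, rfl, by simp, by simp⟩
  | @step N p x y hp _ hs ih =>
    obtain ⟨b, c, hb, hc, h1, h2, h3⟩ := ih
    have hp0 : (p : ℚ) ≠ 0 := by exact_mod_cast hp.1.ne_zero
    rcases hs with ⟨h4, h5⟩ | ⟨h4, h5⟩
    · refine ⟨p * b, c, Nat.mul_pos hp.1.pos hb, hc, by rw [← h1]; ring, ?_, ?_⟩
      · rw [h5, h2]; push_cast; ring
      · rw [h4, ← pow_mul, mul_comm p c, pow_mul, h3, ← pow_mul, mul_comm]
    · refine ⟨b, p * c, hb, Nat.mul_pos hp.1.pos hc, by rw [← h1]; ring, ?_, ?_⟩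
      · rw [h5, h2]; push_cast; field_simp
      · rw [pow_mul, h4, h3]

theorem RB.act {σ : GG} {x0 : kk × ℚ} (h0 : Vx x0) (hσ : σ (dK x0) = dK x0) {N : ℕ} {x : kk × ℚ}
    (h : RB x0 N x) : ∃ y, RB x0 N y ∧ σ (dK x) = dK y := by
  induction h with
  | base => exact ⟨x0, RB.base, hσ⟩
  | @step N p x y hp hx hs ih =>
    obtain ⟨x', hx', h1⟩ := ih
    obtain ⟨y', hy', h2⟩ := act_stp σ hp (hx.vx h0) (hx'.vx h0) h1 hs
    exact ⟨y', RB.step hp hx' hy', h2⟩

theorem RB_down {N : ℕ} (hN : Odd N) {x0 : kk × ℚ} {ζ : kk} (h : ζ ^ N = x0.1) :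
    RB x0 N (ζ, x0.2 / (N : ℚ)) := by
  induction N using Nat.strong_induction_on generalizing ζ with
  | _ N ih =>
  by_cases h1 : N = 1
  · subst h1
    rw [pow_one] at h
    subst h
    simpa using RB.base
  · have hp := Nat.minFac_prime h1
    obtain ⟨N', hN'⟩ := Nat.minFac_dvd N
    set p := N.minFac with hpdef
    have hpO : p ∈ OP := odd_prime_of_dvd hN hp ⟨N', hN'⟩
    have hN0 : N' ≠ 0 := by
      rintro rfl
      rw [mul_zero] at hN'
      rw [hN'] at hN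
      exact absurd hN (by decide)
    have hlt : N' < N := by
      rw [hN']
      exact lt_mul_left (Nat.pos_of_ne_zero hN0) hp.one_lt
    have hodd' : Odd N' := by
      rw [hN'] at hN
      exact (Nat.odd_mul.1 hN).2
    have h2 : (ζ ^ p) ^ N' = x0.1 := by rw [← pow_mul, ← hN', h]
    have h3 := ih N' hlt hodd' h2
    have h4 : RB x0 (p * N') (ζ, x0.2 / (N : ℚ)) := by
      refine RB.step hpO h3 (Or.inr ⟨rfl, ?_⟩)
      simp only
      have hp0 : (p : ℚ) ≠ 0 := by exact_mod_cast hp.ne_zero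
      have hN0' : (N' : ℚ) ≠ 0 := by exact_mod_cast hN0
      rw [hN']
      push_cast
      field_simp
    rwa [← hN'] at h4

theorem RB.le {x0 : kk × ℚ} (h0 : x0.2 = 1) {N : ℕ} {y : kk × ℚ} (h : RB x0 N y) :
    y.2 ≤ N ∧ (y.2 = N → y = (x0.1 ^ N, (N : ℚ))) := by
  obtain ⟨b, c, hb, hc, h1, h2, h3⟩ := h.struct
  rw [h0, mul_one] at h2
  have hb' : (0 : ℚ) < b := by exact_mod_cast hb
  have hc' : (1 : ℚ) ≤ c := by exact_mod_cast hc
  have hbc : (N : ℚ) = b * c := by rw [← h1]; push_cast; ring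
  refine ⟨?_, ?_⟩
  · rw [h2, hbc, div_le_iff₀ (by linarith)]
    nlinarith [mul_le_mul_of_nonneg_left hc' hb'.le, mul_pos hb' (by linarith : (0 : ℚ) < c)]
  · intro h4
    have h5 : c = 1 := by
      rw [h2, hbc, div_eq_iff (by linarith)] at h4
      have h6 : (b : ℚ) * 1 = b * (c * c) := by linarith
      have h7 := mul_left_cancel₀ hb'.ne' h6
      have h8 : 1 = c * c := by exact_mod_cast h7
      nlinarith
    subst h5
    rw [pow_one] at h3
    rw [mul_one] at h1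
    rw [h1] at h3
    exact Prod.ext h3 h4

/-! ## geometric sums -/

theorem geo {N : ℕ} (hN : Odd N) {x : kk} (hx : x ^ N = 1) :
    ∑ j ∈ Finset.range N, x ^ j = if x = 1 then 1 else 0 := by
  split_ifs with h
  · subst h
    simp only [one_pow, Finset.sum_const, Finset.card_range, nsmul_eq_mul, mul_one]
    obtain ⟨k, rfl⟩ := hN
    push_cast
    rw [show (2 : kk) = 0 from CharTwo.two_eq_zero]
    simp
  · rw [geom_sum_eq h, hx, sub_self, zero_div]

theorem con3 {ζ : kk} {t : ℕ} (h : ζ ^ 3 ^ t = 1) : Con {3} (1, 1) (ζ, 1) := by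
  have hodd : Odd (3 ^ t) := Odd.pow (by decide)
  have hp : ∀ p : ℕ, p.Prime → p ∣ 3 ^ t → p ∈ ({3} : Set ℕ) := by
    intro p hp hd
    exact (Nat.prime_dvd_prime_iff_eq hp Nat.prime_three).1 (hp.dvd_of_dvd_pow hd)
  have h1 := con_M hodd (1, 1) {3} hp
  have h2 := con_M hodd (ζ, 1) {3} hp
  simp only [one_pow] at h1
  simp only [h] at h2
  exact h1.trans (h2.symm (by rintro _ rfl; exact three_mem))

theorem EQ.cc {m n : ℤ} {F : S2} (h : EQ m n F) : coeff 0 F = 1 := by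
  obtain ⟨m1, m2, n1, n2, -, -, hF⟩ := h
  have h1 : constantCoeff E2 = 1 := Pool.Agent.H397R2.PP.T3.cc_pent
  have h3 : constantCoeff E3 = 1 := by
    rw [E3, ← coeff_zero_eq_constantCoeff_apply, PowerSeries.coeff_expand]
    simp only [dvd_zero, if_true, Nat.zero_div]
    rw [coeff_zero_eq_constantCoeff_apply, h1]
  have h2 := congrArg constantCoeff hF
  rw [map_mul, map_mul, map_mul, map_pow, map_pow, map_pow, map_pow, h1, h3] at h2
  simp only [one_pow, mul_one] at h2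
  rw [coeff_zero_eq_constantCoeff_apply]
  exact h2

end Pool.Agent.Q36.RD
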