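import Pool.Agent.Q36.RD.CaseB

set_option autoImplicit false

/-!
# Progressions, case `m + 3 n < 0`: the contradiction
-/

namespace Pool.Agent.Q36.RD

open PowerSeries

theorem root_of_mv {Q : ℕ} (hQ : Odd Q) {σ : GG} {ξ : kk} (hV : Vx (ξ, 1 / (Q : ℚ)))
    (h : σ (dK (1, (Q : ℚ))) = dK (ξ, 1 / (Q : ℚ))) : ξ ^ Q = 1 := by
  obtain ⟨y, hy, h1⟩ := RN.act σ (RN_up hQ)
  have h2 : y = (ξ, 1 / (Q : ℚ)) := dK_inj hy.vx hV (h1.symm.trans h)
  subst h2
  obtain ⟨b, c, hb, hc, h3, h4, h5⟩ := hy.struct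
  simp only at h4 h5
  have hb' : (0 : ℚ) < b := by exact_mod_cast hb
  have hc' : (0 : ℚ) < c := by exact_mod_cast hc
  have hQ' : (Q : ℚ) = b * c := by rw [← h3]; push_cast; ring
  have h6 : (b : ℚ) * b = 1 := by
    rw [hQ'] at h4
    field_simp at h4
    nlinarith [h4]
  have h7 : b * b = 1 := by exact_mod_cast h6
  have h8 : b = 1 := Nat.eq_one_of_mul_eq_one_left h7
  rw [h8, one_mul] at h3
  rw [← h3]
  exact h5

theorem Pres.symm {σ : GG} {q : ℕ} (h : Pres σ q) : Pres σ.symm q := by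
  intro x x' hx hx' h1
  rw [AlgEquiv.symm_apply_eq] at h1
  exact (h x' x hx' hx h1.symm).symm

theorem caseB {Q : ℕ} (hQ : Odd Q) (hQ3 : ¬ 3 ∣ Q) {w u ρ : ℕ} {m n : ℤ} {F : S2} (hF : EQ m n F)
    (hs : m + 3 * n < 0)
    (hc2 : (2 ^ (u + 3) : ℤ) ∣ Q ^ 2 * (m + 3 * n) - (24 * ρ + (m + 3 * n)))
    (hc3 : (3 ^ (w + 1) : ℤ) ∣ Q ^ 2 * (m + 3 * n) - (24 * ρ + (m + 3 * n)))
    (hvan : ∀ k : ℕ, (2 ^ u : ℤ) ∣ k - ρ → ((3 ^ w * Q : ℕ) : ℤ) ∣ k - ρ → coeff k F = 0) : False := by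
  classical
  set s : ℤ := m + 3 * n with hsdef
  set e : ℤ := 24 * ρ + s with hedef
  have hQ0 : 0 < Q := hQ.pos
  have hQq : (0 : ℚ) < Q := by exact_mod_cast hQ0
  have hTodd : Odd (3 ^ (w + 1)) := Odd.pow (by decide)
  obtain ⟨z, hz⟩ := exists_prim hTodd
  obtain ⟨y0, hy0⟩ := exists_prim hQ
  have hz0 : z ≠ 0 := hz.ne_zero hTodd.pos.ne'
  have hy00 : y0 ≠ 0 := hy0.ne_zero hQ0.ne'
  obtain ⟨σ0, g0⟩ := exists_good hQ
  set σ : GG := σ0.symm with hσdef
  have hfixS : FixS σ := g0.fixS.symm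
  have hpres : Pres σ 3 := (g0.pr 3 Nat.prime_three hQ3).symm
  have hT3 : ({3} : Set ℕ) ⊆ OP := by rintro _ rfl; exact three_mem
  have hfix3 : ∀ x, Con {3} (1, 1) x → σ (dK x) = dK x := by
    intro x hx
    rw [hσdef, AlgEquiv.symm_apply_eq]
    exact (g0.fx {3} hT3 (by rintro _ rfl; exact hQ3) x hx).symm
  obtain ⟨ξt, hVt, hmt⟩ := g0.mv
  have hξt := root_of_mv hQ hVt hmt
  have hσt : σ (dK (ξt, 1 / (Q : ℚ))) = dK (1, (Q : ℚ)) := by
    rw [hσdef, AlgEquiv.symm_apply_eq]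
    exact hmt.symm
  have : NeZero Q := ⟨hQ0.ne'⟩
  obtain ⟨jt, hjt, hyt⟩ := hy0.eq_pow_of_pow_eq_one hξt
  -- the index set
  set I := Finset.range (3 ^ (w + 1)) ×ˢ Finset.range Q with hI
  set ξ : ℕ × ℕ → kk := fun i => z ^ i.1 * y0 ^ i.2 with hξdef
  have hzi : ∀ i : ℕ, (z ^ i) ^ 3 ^ (w + 1) = 1 := by
    intro i
    rw [← pow_mul, mul_comm, pow_mul, hz.pow_eq_one, one_pow]
  have hyj : ∀ j : ℕ, (y0 ^ j) ^ Q = 1 := by
    intro j
    rw [← pow_mul, mul_comm, pow_mul, hy0.pow_eq_one, one_pow]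
  set x0 : ℕ → kk × ℚ := fun i => ((z ^ i) ^ Q, 1) with hx0
  have hx0c : ∀ i, Con {3} (1, 1) (x0 i) := by
    intro i
    apply con3 (t := w + 1)
    rw [← pow_mul, mul_comm, pow_mul, hzi, one_pow]
  have hx0V : ∀ i, Vx (x0 i) := fun i => (hx0c i).mono hT3
  have hRB : ∀ i : ℕ × ℕ, RB (x0 i.1) Q (ξ i, 1 / (Q : ℚ)) := by
    intro i
    have h1 : (ξ i) ^ Q = (x0 i.1).1 := by
      rw [hξdef, hx0]
      simp only
      rw [mul_pow, hyj, mul_one]
    have := RB_down hQ h1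
    exact this
  have hV : ∀ i : ℕ × ℕ, Vx (ξ i, 1 / (Q : ℚ)) := fun i => (hRB i).vx (hx0V i.1)
  have hex : ∀ i : ℕ × ℕ, ∃ y, RB (x0 i.1) Q y ∧ σ (dK (ξ i, 1 / (Q : ℚ))) = dK y :=
    fun i => RB.act (hx0V i.1) (hfix3 _ (hx0c i.1)) (hRB i)
  choose Y hY1 hY2 using hex
  have hYV : ∀ i, Vx (Y i) := fun i => (hY1 i).vx (hx0V i.1)
  -- the image of the special vertices
  have hYt : ∀ i : ℕ, Y (i, jt) = (((z ^ i) ^ Q) ^ Q, (Q : ℚ)) := by
    intro i
    apply ((hY1 (i, jt)).le rfl).2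
    have c1 : Con {3} (ξt, 1 / (Q : ℚ)) (ξ (i, jt), 1 / (Q : ℚ)) := by
      have hp : ∀ p : ℕ, p.Prime → p ∣ 3 ^ (w + 1) → p ∈ ({3} : Set ℕ) := by
        intro p hp hd
        exact (Nat.prime_dvd_prime_iff_eq hp Nat.prime_three).1 (hp.dvd_of_dvd_pow hd)
      have h1 := con_M hTodd (ξt, 1 / (Q : ℚ)) {3} hp
      have h2 := con_M hTodd (ξ (i, jt), 1 / (Q : ℚ)) {3} hp
      have h3 : (ξ (i, jt)) ^ 3 ^ (w + 1) = ξt ^ 3 ^ (w + 1) := by
        rw [hξdef]
        simp only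
        rw [mul_pow, hzi, one_mul, hyt]
      simp only at h1 h2
      rw [h3] at h2
      exact h1.trans (h2.symm hT3)
    obtain ⟨y', hy', h4⟩ := act_con σ hT3 hVt (Vx_M hQ) hσt c1
    have h5 : Y (i, jt) = y' := dK_inj (hYV _) ((Vx_M hQ).con hT3 hy') ((hY2 (i, jt)).symm.trans h4)
    rw [h5]
    have hy'V := (Vx_M hQ).con hT3 hy'
    apply rat_eq hy'V.pos.2 hQq
    intro q hq
    by_cases hq3 : q = 3
    · subst hq3
      have h6 := hpres _ _ (hV (i, jt)) (hYV (i, jt)) (hY2 (i, jt))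
      rw [h5] at h6
      rw [h6]
      have : Fact (Nat.Prime 3) := ⟨Nat.prime_three⟩
      simp only
      rw [padicValRat.div one_ne_zero hQq.ne', val_natCast_zero hq hQ3]
      simp
    · exact val_con hT3 hq (by simpa using hq3) (Vx_M hQ).pos hy'
  have hYlt : ∀ i : ℕ × ℕ, i ∈ I → i.2 ≠ jt → (Y i).2 < Q := by
    intro i hi hne
    refine lt_of_le_of_ne ((hY1 i).le rfl).1 ?_
    intro h1
    have h2 := ((hY1 i).le rfl).2 h1
    have h3 : Y i = Y (i.1, jt) := by rw [h2, hYt]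
    have h4 : dK (ξ i, 1 / (Q : ℚ)) = dK (ξ (i.1, jt), 1 / (Q : ℚ)) := by
      apply σ.injective
      rw [hY2, hY2, h3]
    have h5 := congrArg Prod.fst (dK_inj (hV _) (hV _) h4)
    simp only [hξdef] at h5
    have h6 := mul_left_cancel₀ (pow_ne_zero _ hz0) h5
    rw [hI, Finset.mem_product, Finset.mem_range, Finset.mem_range] at hi
    exact hne (hy0.pow_inj hi.2 hjt h6)
  -- orthogonality
  have hsum : ∀ d : ℤ, ∑ i ∈ I, ξ i ^ (24 * d) = if ((3 ^ w * Q : ℕ) : ℤ) ∣ d then 1 else 0 := by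
    intro d
    rw [hI, Finset.sum_product]
    have h1 : ∀ i ∈ Finset.range (3 ^ (w + 1)), ∑ j ∈ Finset.range Q, ξ (i, j) ^ (24 * d) =
        (z ^ (24 * d)) ^ i * ∑ j ∈ Finset.range Q, (y0 ^ (24 * d)) ^ j := by
      intro i _
      rw [Finset.mul_sum]
      refine Finset.sum_congr rfl fun j _ => ?_
      simp only [hξdef]
      rw [mul_zpow, ← zpow_natCast z, ← zpow_natCast y0, ← zpow_natCast (z ^ (24 * d)),
        ← zpow_natCast (y0 ^ (24 * d)), ← zpow_mul, ← zpow_mul, ← zpow_mul, ← zpow_mul,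
        mul_comm (i : ℤ), mul_comm (j : ℤ)]
    rw [Finset.sum_congr rfl h1, ← Finset.sum_mul, geo hTodd, geo hQ]
    · have d1 : ((3 ^ (w + 1) : ℕ) : ℤ) ∣ 24 * d ↔ ((3 ^ w : ℕ) : ℤ) ∣ d := by
        have e1 : ((3 ^ (w + 1) : ℕ) : ℤ) = 3 * ((3 ^ w : ℕ) : ℤ) := by push_cast; ring
        rw [e1, show 24 * d = 3 * (8 * d) by ring, mul_dvd_mul_iff_left (by norm_num : (3 : ℤ) ≠ 0)]
        constructor
        · intro h
          apply IsCoprime.dvd_of_dvd_mul_left _ h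
          push_cast
          apply IsCoprime.pow_left
          exact ⟨3, -1, by norm_num⟩
        · intro h
          exact h.mul_left 8
      have d2 : ((Q : ℕ) : ℤ) ∣ 24 * d ↔ ((Q : ℕ) : ℤ) ∣ d := by
        constructor
        · intro h
          have hc : IsCoprime (Q : ℤ) 24 := by
            rw [show (24 : ℤ) = ((24 : ℕ) : ℤ) from rfl, Nat.isCoprime_iff_coprime]
            rw [show 24 = 2 ^ 3 * 3 by norm_num]
            apply Nat.Coprime.mul_right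
            · exact Nat.Coprime.pow_right _ (Nat.coprime_two_right.2 hQ)
            · exact ((Nat.Prime.coprime_iff_not_dvd Nat.prime_three).2 hQ3).symm
          exact hc.dvd_of_dvd_mul_left h
        · intro h
          exact h.mul_left 24
      simp only [hz.zpow_eq_one_iff_dvd, hy0.zpow_eq_one_iff_dvd, d1, d2]
      by_cases h3 : ((3 ^ w : ℕ) : ℤ) ∣ d
      · by_cases h4 : ((Q : ℕ) : ℤ) ∣ d
        · rw [if_pos h3, if_pos h4, if_pos, one_mul]
          have hc : IsCoprime ((3 ^ w : ℕ) : ℤ) (Q : ℤ) := by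
            rw [Nat.isCoprime_iff_coprime]
            exact Nat.Coprime.pow_left _ ((Nat.Prime.coprime_iff_not_dvd Nat.prime_three).2 hQ3)
          have := hc.mul_dvd h3 h4
          exact_mod_cast this
        · rw [if_pos h3, if_neg h4, if_neg, mul_zero]
          intro h
          apply h4
          refine dvd_trans ?_ h
          push_cast
          exact dvd_mul_left _ _
      · rw [if_neg h3, zero_mul, if_neg]
        intro h
        apply h3
        refine dvd_trans ?_ h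
        push_cast
        exact dvd_mul_right _ _
    · rw [← zpow_natCast, ← zpow_mul, mul_comm, zpow_mul, zpow_natCast, hy0.pow_eq_one, one_zpow]
    · rw [← zpow_natCast, ← zpow_mul, mul_comm, zpow_mul, zpow_natCast, hz.pow_eq_one, one_zpow]
  -- the relation
  have hcl : Cl ((1 / (Q : ℚ)) * ((24 * ρ + (m + 3 * n) : ℤ) : ℚ)) (u + 3) (Q * (s : ℚ)) := by
    obtain ⟨c, hc⟩ := hc2
    refine ⟨Q, Nat.two_dvd_ne_zero.2 (Nat.odd_iff.1 hQ), c, ?_⟩
    have h1 : ((Q : ℚ) ^ 2 * (s : ℚ) - ((24 * ρ + s : ℤ) : ℚ)) = 2 ^ (u + 3) * c := by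
      exact_mod_cast hc
    rw [← hsdef]
    field_simp
    linarith
  have hrel := relation hQ0 (fun i _ => (hV i).vc) hF hsum hvan hfixS
    (g := fun i => wP m n (Y i).1 (Y i).2)
    (by
      intro i _
      rw [act_wK hpres m n (hV i) (hYV i) (hY2 i), coe_wK m n (hYV i).vc]) hcl
  rw [← hsdef, ← hedef, hI, Finset.sum_product] at hrel
  have hin : ∀ i ∈ Finset.range (3 ^ (w + 1)), ∑ j ∈ Finset.range Q,
      ξ (i, j) ^ (-e) * (wP m n (Y (i, j)).1 (Y (i, j)).2).coeff (Q * (s : ℚ)) =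
      (y0 ^ jt) ^ (-e) * (z ^ (Q ^ 2 * s - e)) ^ i := by
    intro i hi
    rw [Finset.sum_eq_single jt]
    · rw [hYt]
      have h1 := wP_coeff hF (m := m) (n := n) (pow_ne_zero Q (pow_ne_zero Q (pow_ne_zero i hz0))) hQq 0
      rw [hF.cc, map_one, mul_one] at h1
      have h2 : (24 * ((0 : ℕ) : ℤ) + (m + 3 * n)) = s := by rw [hsdef]; push_cast; ring
      rw [h2] at h1
      simp only
      rw [h1]
      simp only [hξdef]
      rw [mul_zpow, mul_comm ((z ^ i) ^ (-e)), mul_assoc]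
      congr 1
      rw [← zpow_natCast z i, ← zpow_natCast (z ^ (i : ℤ)) Q, ← zpow_natCast ((z ^ (i : ℤ)) ^ (Q : ℤ)) Q,
        ← zpow_natCast (z ^ (Q ^ 2 * s - e)) i, ← zpow_mul, ← zpow_mul, ← zpow_mul, ← zpow_mul,
        ← zpow_mul, ← zpow_add₀ hz0]
      congr 1
      ring
    · intro j hj hne
      have h1 := hYlt (i, j) (Finset.mem_product.2 ⟨hi, hj⟩) hne
      have h2 := (hYV (i, j)).pos
      rw [HahnSeries.coeff_eq_zero_of_lt_order, mul_zero]
      have h3 := od_wP m n h2.1 h2.2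
      unfold od at h3
      rw [h3]
      have h4 : ((m + 3 * n : ℤ) : ℚ) < 0 := by exact_mod_cast hs
      rw [hsdef]
      nlinarith
    · intro h
      exact absurd (Finset.mem_range.2 hjt) h
  rw [Finset.sum_congr rfl hin, ← Finset.mul_sum] at hrel
  have h1 : z ^ (Q ^ 2 * s - e) = 1 := by
    rw [hz.zpow_eq_one_iff_dvd]
    push_cast
    exact hc3
  rw [h1] at hrel
  have h2 := geo hTodd (x := 1) (one_pow _)
  rw [if_pos rfl] at h2
  rw [h2, mul_one] at hrel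
  exact zpow_ne_zero _ (pow_ne_zero _ hy00) hrel

end Pool.Agent.Q36.RD
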