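import Pool.Agent.Q36.RD.K2

set_option autoImplicit false

/-!
# Automorphisms fixing the 2-adic sections of `D` commute with the 2-adic sections
-/

namespace Pool.Agent.Q36.RD

/-- `σ` fixes the sections of `D` modulo `2 ^ t` -/
def FixS (σ : GG) : Prop := ∀ t : ℕ, ∃ (B : Finset ℕ) (β : ℕ → ℚ) (S : ℕ → P) (s : ℕ → KK),
  dP 1 1 = ∑ b ∈ B, S b ∧ ∀ b ∈ B, (∀ e, (S b).coeff e ≠ 0 → Cl (β b) t e) ∧
    (s b : Om) = io (S b) ∧ σ (s b) = s b

theorem sec_dec {t : ℕ} (r : ℚ) {B : Finset ℕ} {β : ℕ → ℚ} {S : ℕ → P} (hD : dP 1 1 = ∑ b ∈ B, S b)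
    (hS : ∀ b ∈ B, ∀ e, (S b).coeff e ≠ 0 → Cl (β b) (t + 1) e) (u v : P) :
    Sec r (t + 1) (u ^ 2 + dP 1 1 * v ^ 2) =
      Sec (r / 2) t u ^ 2 + ∑ b ∈ B, S b * Sec ((r - β b) / 2) t v ^ 2 := by
  rw [Sec_add, Sec_sq, hD, Finset.sum_mul, Sec_sum]
  congr 1
  refine Finset.sum_congr rfl fun b hb => ?_
  rw [Sec_mul (hS b hb), Sec_sq]

theorem sec_comm {σ : GG} (h : FixS σ) (t : ℕ) : ∀ (r : ℚ) (x : KK), x ∈ K2 → ∀ f g : P,
    (x : Om) = io f → ((σ x : KK) : Om) = io g →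
    ∃ y : KK, (y : Om) = io (Sec r t f) ∧ ((σ y : KK) : Om) = io (Sec r t g) := by
  induction t with
  | zero =>
    intro r x hx f g hf hg
    obtain ⟨f', hf', h1⟩ := hx AlgEquiv.refl
    obtain ⟨g', hg', h2⟩ := hx σ
    have e1 : f = f' := io_inj (hf.symm.trans h1)
    have e2 : g = g' := io_inj (hg.symm.trans h2)
    rw [← e1] at hf'
    rw [← e2] at hg'
    by_cases hr : r ∈ H2
    · refine ⟨x, ?_, ?_⟩
      · rw [Sec_0 hf' hr, hf]
      · rw [Sec_0 hg' hr, hg]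
    · refine ⟨0, ?_, ?_⟩
      · rw [Sec_0' hf' hr, map_zero]
        rfl
      · rw [Sec_0' hg' hr, map_zero, map_zero]
        rfl
  | succ t ih =>
    intro r x hx f g hf hg
    obtain ⟨u, hu, v, hv, hxd⟩ := K2_dec hx
    obtain ⟨B, β, S, s, hD, hB⟩ := h (t + 1)
    obtain ⟨a, -, h1⟩ := hu AlgEquiv.refl
    obtain ⟨a', -, h1'⟩ := hu σ
    obtain ⟨b, -, h2⟩ := hv AlgEquiv.refl
    obtain ⟨b', -, h2'⟩ := hv σ
    have hf2 : f = a ^ 2 + dP 1 1 * b ^ 2 := by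
      apply io_inj
      rw [← hf, hxd]
      have e1 : ((u ^ 2 + dK (1, 1) * v ^ 2 : KK) : Om) =
        (u : Om) ^ 2 + (dK (1, 1) : Om) * (v : Om) ^ 2 := rfl
      have e2 : (u : Om) = io a := h1
      have e3 : (v : Om) = io b := h2
      rw [e1, e2, e3, coe_dK Vx_one, map_add, map_mul, map_pow, map_pow]
      rfl
    have hg2 : g = a' ^ 2 + dP 1 1 * b' ^ 2 := by
      apply io_inj
      rw [← hg, hxd, map_add, map_mul, map_pow, map_pow, act_one]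
      have e1 : ((σ u ^ 2 + dK (1, 1) * σ v ^ 2 : KK) : Om) =
        (σ u : Om) ^ 2 + (dK (1, 1) : Om) * (σ v : Om) ^ 2 := rfl
      rw [e1, h1', h2', coe_dK Vx_one, map_add, map_mul, map_pow, map_pow]
      rfl
    obtain ⟨y1, hy1, hy1'⟩ := ih (r / 2) u hu a a' h1 h1'
    have hy2 := fun c : ℕ => ih ((r - β c) / 2) v hv b b' h2 h2'
    choose z hz hz' using hy2
    refine ⟨y1 ^ 2 + ∑ c ∈ B, s c * z c ^ 2, ?_, ?_⟩
    · rw [hf2, sec_dec r hD (fun c hc => (hB c hc).1), map_add, map_pow, ← hy1, map_sum]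
      have e1 : ((y1 ^ 2 + ∑ c ∈ B, s c * z c ^ 2 : KK) : Om) =
        (y1 : Om) ^ 2 + ((∑ c ∈ B, s c * z c ^ 2 : KK) : Om) := rfl
      rw [e1]
      congr 1
      have e2 : ((∑ c ∈ B, s c * z c ^ 2 : KK) : Om) = ∑ c ∈ B, ((s c * z c ^ 2 : KK) : Om) :=
        map_sum (algebraMap KK Om) _ _
      rw [e2]
      refine Finset.sum_congr rfl fun c hc => ?_
      rw [map_mul, map_pow, ← hz c, ← (hB c hc).2.1]
      rfl
    · rw [hg2, sec_dec r hD (fun c hc => (hB c hc).1), map_add, map_add, map_pow, map_pow, ← hy1',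
        map_sum, map_sum]
      have e1 : ((σ y1 ^ 2 + ∑ c ∈ B, σ (s c * z c ^ 2) : KK) : Om) =
        (σ y1 : Om) ^ 2 + ((∑ c ∈ B, σ (s c * z c ^ 2) : KK) : Om) := rfl
      rw [e1]
      congr 1
      have e2 : ((∑ c ∈ B, σ (s c * z c ^ 2) : KK) : Om) = ∑ c ∈ B, ((σ (s c * z c ^ 2) : KK) : Om) :=
        map_sum (algebraMap KK Om) _ _
      rw [e2]
      refine Finset.sum_congr rfl fun c hc => ?_
      rw [map_mul, map_pow, (hB c hc).2.2, map_mul, map_pow, ← hz' c, ← (hB c hc).2.1]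
      rfl

/-- if a section of `x` vanishes then so does the section of its image -/
theorem sec_zero {σ : GG} (h : FixS σ) {t : ℕ} {r : ℚ} {x : KK} (hx : x ∈ K2) {f g : P}
    (hf : (x : Om) = io f) (hg : ((σ x : KK) : Om) = io g) (h0 : Sec r t f = 0) : Sec r t g = 0 := by
  obtain ⟨y, h1, h2⟩ := sec_comm h t r x hx f g hf hg
  rw [h0, map_zero] at h1
  have h3 : y = 0 := Subtype.ext h1
  rw [h3, map_zero] at h2
  have h4 : io (Sec r t g) = 0 := h2.symm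
  exact io_inj (h4.trans (map_zero io).symm)

end Pool.Agent.Q36.RD
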