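import Pool.Agent.Q36.RD.Gal

set_option autoImplicit false

/-!
# Automorphisms moving `D (q ^ p)`
-/

namespace Pool.Agent.Q36.RD

/-- the order of a nonzero series -/
noncomputable def od (x : P) : ℚ := x.order

theorem v_od {x : P} (hx : x ≠ 0) : v x = (od x : WithTop ℚ) := HahnSeries.addVal_apply_of_ne hx

theorem od_eq {x : P} {e : ℚ} (h : v x = (e : WithTop ℚ)) : od x = e := by
  have hx : x ≠ 0 := by
    rintro rfl
    rw [AddValuation.map_zero] at h
    exact WithTop.coe_ne_top h.symm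
  rw [v_od hx, WithTop.coe_inj] at h
  exact h

theorem od_mul {x y : P} (hx : x ≠ 0) (hy : y ≠ 0) : od (x * y) = od x + od y :=
  HahnSeries.order_mul hx hy

theorem od_one : od (1 : P) = 0 := HahnSeries.order_one

theorem od_pow {x : P} (hx : x ≠ 0) (n : ℕ) : od (x ^ n) = n * od x := by
  induction n with
  | zero => rw [pow_zero, od_one]; simp
  | succ n ih =>
    rw [pow_succ, od_mul (pow_ne_zero _ hx) hx, ih]
    push_cast
    ring

theorem od_inv {x : P} (hx : x ≠ 0) : od x⁻¹ = - od x := by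
  have h := od_mul hx (inv_ne_zero hx)
  rw [mul_inv_cancel₀ hx, od_one] at h
  linarith

theorem od_zpow {x : P} (hx : x ≠ 0) (n : ℤ) : od (x ^ n) = n * od x := by
  cases n with
  | ofNat n => simp [od_pow hx]
  | negSucc n =>
    rw [zpow_negSucc, od_inv (pow_ne_zero _ hx), od_pow hx]
    push_cast
    ring

theorem od_dP {ζ : kk} (hζ : ζ ≠ 0) {a : ℚ} (ha : 0 < a) : od (dP ζ a) = a := od_eq (v_dP hζ ha)

/-! ## polynomials in `D` -/

theorem alg_eq (c : kk) : algebraMap kk P c = HahnSeries.single 0 c := by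
  rw [HahnSeries.algebraMap_apply']
  exact HahnSeries.ofPowerSeries_C c

theorem v_aeval_nonneg (g : Polynomial kk) : 0 ≤ v (Polynomial.aeval (dP 1 1) g) := by
  rw [Polynomial.aeval_eq_sum_range]
  apply AddValuation.map_le_sum
  intro i _
  rw [Algebra.smul_def, AddValuation.map_mul, AddValuation.map_pow]
  have h1 : (0 : WithTop ℚ) ≤ v (algebraMap kk P (g.coeff i)) := by
    by_cases h : g.coeff i = 0
    · rw [h, map_zero, AddValuation.map_zero]
      exact le_top
    · rw [alg_eq]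
      rw [v_eq_of (e := 0)]
      · rfl
      · rw [HahnSeries.coeff_single_same]; exact h
      · intro e he
        rw [HahnSeries.coeff_single_of_ne he.ne]
  have h2 : (0 : WithTop ℚ) ≤ i • v (dP 1 1) := by
    rw [v_dP one_ne_zero one_pos]
    exact nsmul_nonneg (by exact_mod_cast zero_le_one) i
  exact add_nonneg h1 h2

theorem exists_od (g : Polynomial kk) (hg : g ≠ 0) :
    ∃ k : ℕ, k ≤ g.natDegree ∧ v (Polynomial.aeval (dP 1 1) g) = ((k : ℚ) : WithTop ℚ) := by
  induction hn : g.natDegree using Nat.strong_induction_on generalizing g with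
  | _ n ih =>
  have hdec := Polynomial.divX_mul_X_add g
  by_cases h0 : g.coeff 0 = 0
  · have hd0 : g.divX ≠ 0 := by
      intro h
      rw [h, h0, zero_mul, map_zero, add_zero] at hdec
      exact hg hdec.symm
    have hlt : g.divX.natDegree < n := by
      have h2 : g.natDegree = g.divX.natDegree + 1 := by
        conv_lhs => rw [← hdec]
        rw [h0, map_zero, add_zero, Polynomial.natDegree_mul_X hd0]
      omega
    obtain ⟨k, hk, hv⟩ := ih _ hlt g.divX hd0 rfl
    refine ⟨k + 1, by omega, ?_⟩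
    conv_lhs => rw [← hdec]
    rw [h0, map_zero, add_zero, map_mul, Polynomial.aeval_X, AddValuation.map_mul, hv,
      v_dP one_ne_zero one_pos, ← WithTop.coe_add]
    push_cast
    rfl
  · refine ⟨0, Nat.zero_le _, ?_⟩
    conv_lhs => rw [← hdec]
    rw [map_add, map_mul, Polynomial.aeval_X, Polynomial.aeval_C]
    have h1 : v (algebraMap kk P (g.coeff 0)) = ((0 : ℚ) : WithTop ℚ) := by
      rw [alg_eq]
      apply v_eq_of
      · rw [HahnSeries.coeff_single_same]; exact h0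
      · intro e he
        rw [HahnSeries.coeff_single_of_ne he.ne]
    have h2 : v (algebraMap kk P (g.coeff 0)) < v (Polynomial.aeval (dP 1 1) g.divX * dP 1 1) := by
      rw [h1, AddValuation.map_mul, v_dP one_ne_zero one_pos]
      have h3 := v_aeval_nonneg g.divX
      have h4 : ((0 : ℚ) : WithTop ℚ) < ((1 : ℚ) : WithTop ℚ) := by
        exact_mod_cast zero_lt_one
      calc ((0 : ℚ) : WithTop ℚ) < ((1 : ℚ) : WithTop ℚ) := h4
        _ = 0 + ((1 : ℚ) : WithTop ℚ) := by rw [zero_add]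
        _ ≤ _ := by gcongr
    rw [AddValuation.map_add_eq_of_lt_right v h2, h1]
    norm_num

theorem aeval_D_inj {g : Polynomial kk} (h : Polynomial.aeval (dP 1 1) g = 0) : g = 0 := by
  by_contra hg
  obtain ⟨k, -, hk⟩ := exists_od g hg
  rw [h, AddValuation.map_zero] at hk
  exact WithTop.coe_ne_top hk.symm

/-! ## elements of `kk (D)` -/

theorem dP_mem_PH {H : AddSubgroup ℚ} {ζ : kk} {a : ℚ} (ha : 0 < a) (h : a ∈ H) :
    dP ζ a ∈ PH H := by
  rw [mem_PH]
  intro e he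
  rw [dP, ev_coeff_not ha]
  rintro n rfl
  apply he
  rw [mul_comm, ← nsmul_eq_mul]
  exact H.nsmul_mem h n

theorem single_mem_PH {H : AddSubgroup ℚ} {a : ℚ} (c : kk) (h : a ∈ H) :
    HahnSeries.single a c ∈ PH H := by
  rw [mem_PH]
  intro e he
  apply HahnSeries.coeff_single_of_ne
  rintro rfl
  exact he h

theorem alg_Om (c : kk) : algebraMap kk Om c = io (HahnSeries.single 0 c) := by
  rw [IsScalarTower.algebraMap_apply kk P Om, alg_eq]
  rfl

theorem FF_io {H : AddSubgroup ℚ} (h1 : (1 : ℚ) ∈ H) {x : Om} (hx : x ∈ FF) :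
    ∃ f ∈ PH H, x = io f := by
  unfold FF at hx
  induction hx using IntermediateField.adjoin_induction with
  | mem x hx =>
    rw [Set.mem_singleton_iff] at hx
    exact ⟨dP 1 1, dP_mem_PH one_pos h1, hx⟩
  | algebraMap c => exact ⟨_, single_mem_PH c H.zero_mem, alg_Om c⟩
  | add x y _ _ hx hy =>
    obtain ⟨f, hf, rfl⟩ := hx
    obtain ⟨g, hg, rfl⟩ := hy
    exact ⟨f + g, (PH H).add_mem hf hg, (map_add io f g).symm⟩
  | inv x _ hx =>
    obtain ⟨f, hf, rfl⟩ := hx
    exact ⟨f⁻¹, (PH H).inv_mem hf, (map_inv₀ io f).symm⟩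
  | mul x y _ _ hx hy =>
    obtain ⟨f, hf, rfl⟩ := hx
    obtain ⟨g, hg, rfl⟩ := hy
    exact ⟨f * g, (PH H).mul_mem hf hg, (map_mul io f g).symm⟩

theorem aeval_io (g : Polynomial kk) :
    Polynomial.aeval (io (dP 1 1)) g = io (Polynomial.aeval (dP 1 1) g) := by
  have := Polynomial.aeval_algebraMap_apply Om (dP 1 1) g
  exact this

/-- common denominators -/
theorem FF_frac {x : Om} (hx : x ∈ FF) : ∃ r s : Polynomial kk, s ≠ 0 ∧
    x * io (Polynomial.aeval (dP 1 1) s) = io (Polynomial.aeval (dP 1 1) r) := by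
  unfold FF at hx
  rw [IntermediateField.mem_adjoin_simple_iff] at hx
  obtain ⟨r, s, h⟩ := hx
  by_cases hs : s = 0
  · refine ⟨0, 1, one_ne_zero, ?_⟩
    rw [h, hs, map_zero, div_zero, map_zero, map_zero, zero_mul]
  · refine ⟨r, s, hs, ?_⟩
    have h2 : io (Polynomial.aeval (dP 1 1) s) ≠ 0 := by
      intro h0
      exact hs (aeval_D_inj (io_inj (h0.trans (map_zero io).symm)))
    rw [h, aeval_io, aeval_io, div_mul_cancel₀ _ h2]

theorem FF_fracs {ι : Type*} (s : Finset ι) (g : ι → Om) (hg : ∀ i ∈ s, g i ∈ FF) :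
    ∃ (c : Polynomial kk) (h : ι → Polynomial kk), c ≠ 0 ∧ ∀ i ∈ s,
      g i * io (Polynomial.aeval (dP 1 1) c) = io (Polynomial.aeval (dP 1 1) (h i)) := by
  classical
  induction s using Finset.induction_on with
  | empty => exact ⟨1, fun _ => 0, one_ne_zero, by simp⟩
  | insert a s ha ih =>
    obtain ⟨c, h, hc, hh⟩ := ih fun i hi => hg i (Finset.mem_insert_of_mem hi)
    obtain ⟨r, s', hs', hr⟩ := FF_frac (hg a (Finset.mem_insert_self a s))
    refine ⟨c * s', fun i => if i = a then r * c else h i * s', mul_ne_zero hc hs', ?_⟩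
    intro i hi
    by_cases hia : i = a
    · subst hia
      beta_reduce
      rw [if_pos rfl, map_mul, map_mul, map_mul, map_mul, ← hr]
      ring
    · beta_reduce
      rw [if_neg hia, map_mul, map_mul, map_mul, map_mul,
        ← hh i (Finset.mem_of_mem_insert_of_ne hi hia)]
      ring

theorem nb_split {M : Type*} [AddCommMonoid M] {p : ℕ} (hp : p ∈ OP) {x : kk × ℚ} (hx : 0 < x.2)
    (g : kk × ℚ → M) : ∑ y ∈ Nb p x.1 x.2, g y =
      g (x.1 ^ p, p * x.2) + ∑ ξ ∈ rts p x.1, g (ξ, x.2 / p) := by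
  have hp0 : (0 : ℚ) < p := by exact_mod_cast hp.1.pos
  have hne : (x.1 ^ p, (p : ℚ) * x.2) ∉ (rts p x.1).image fun ξ => (ξ, x.2 / p) := by
    intro h
    obtain ⟨x', -, hx'⟩ := Finset.mem_image.1 h
    have h1 : x.2 / p = p * x.2 := (Prod.ext_iff.1 hx').2
    rw [div_eq_iff hp0.ne'] at h1
    have h2 : (1 : ℚ) < p := by exact_mod_cast hp.1.one_lt
    have h3 : x.2 * 1 < x.2 * ((p : ℚ) * p) := by
      apply mul_lt_mul_of_pos_left _ hx
      nlinarith
    linarith
  rw [Nb, Finset.sum_insert hne, Finset.sum_image (by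
    intro x _ y _ h
    exact (Prod.ext_iff.1 h).1)]

theorem pow2_inj {K : Type*} [Field K] [CharP K 2] (n : ℕ) {x y : K} (h : x ^ 2 ^ n = y ^ 2 ^ n) :
    x = y := by
  have := iterateFrobenius_inj K 2 n
  exact this h

theorem D1_mem : dO (1, 1) ∈ FF := IntermediateField.subset_adjoin kk _ rfl

theorem eval2_mem (R : Polynomial (ZMod 2)) :
    Polynomial.eval₂ (algebraMap (ZMod 2) Om) (dO (1, 1)) R ∈ (algebraMap FF Om).range := by
  refine ⟨Polynomial.eval₂ (algebraMap (ZMod 2) FF) ⟨dO (1, 1), D1_mem⟩ R, ?_⟩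
  rw [Polynomial.hom_eval₂]
  congr 1

theorem noF {p : ℕ} (hp : p ∈ OP) (n : ℕ) : dO (1, (p : ℚ)) ^ 2 ^ n ∉ FF := by
  classical
  intro hz
  have hp0 : (0 : ℚ) < p := by exact_mod_cast hp.1.pos
  have hp1 : (1 : ℚ) < p := by exact_mod_cast hp.1.one_lt
  set N := 2 ^ n with hN
  set z : Om := dO (1, (p : ℚ)) ^ N with hzdef
  set X : Finset Om := (rts p 1).image (fun ξ => dO (ξ, 1 / (p : ℚ)) ^ N) with hX
  have hr0 : ∀ ξ ∈ rts p 1, ξ ≠ 0 := by
    intro ξ hξ h0
    rw [mem_rts hp.1.pos, h0, zero_pow hp.1.ne_zero] at hξ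
    exact zero_ne_one hξ
  have hinj : Set.InjOn (fun ξ => dO (ξ, 1 / (p : ℚ)) ^ N) (rts p 1 : Set kk) := by
    intro ξ hξ ξ' hξ' h
    have h1 := dO_inj (x := (ξ, 1 / (p : ℚ))) (y := (ξ', 1 / (p : ℚ))) ⟨hr0 ξ hξ, by positivity⟩
      ⟨hr0 ξ' hξ', by positivity⟩ (pow2_inj n h)
    exact (Prod.ext_iff.1 h1).1
  have hsum : ∀ k : ℕ, z ^ k + ∑ ξ ∈ rts p 1, (dO (ξ, 1 / (p : ℚ)) ^ N) ^ k =
      Polynomial.eval₂ (algebraMap (ZMod 2) Om) (dO (1, 1)) (Rp p (N * k)) := by
    intro k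
    have h1 := nb_sum_O hp (x := (1, 1)) ⟨one_ne_zero, one_pos⟩ (N * k)
    rw [nb_split hp (x := (1, 1)) one_pos] at h1
    rw [← h1]
    simp only [one_pow, mul_one, pow_mul]
    rfl
  have hps : ∀ k : ℕ, ∑ x ∈ X, x ^ k ∈ (algebraMap FF Om).range := by
    intro k
    rw [hX, Finset.sum_image hinj, eq_sub_of_add_eq' (hsum k)]
    have hzr : z ∈ (algebraMap FF Om).range := ⟨⟨z, hz⟩, rfl⟩
    exact Subring.sub_mem _ (eval2_mem _) (Subring.pow_mem _ hzr k)
  obtain ⟨f, hf⟩ := ps X hps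
  set fO := f.map (algebraMap FF Om) with hfO
  have hfroot : ∀ ξ ∈ rts p 1, fO.eval (dO (ξ, 1 / (p : ℚ)) ^ N) = 0 := by
    intro ξ hξ
    rw [hf, Polynomial.eval_prod]
    exact Finset.prod_eq_zero (Finset.mem_image_of_mem _ hξ) (by simp)
  have hfz : fO.eval z ≠ 0 := by
    rw [hf, Polynomial.eval_prod, Finset.prod_ne_zero_iff]
    intro x hx h0
    simp only [Polynomial.eval_sub, Polynomial.eval_X, Polynomial.eval_C, sub_eq_zero] at h0
    rw [hX, Finset.mem_image] at hx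
    obtain ⟨ξ, hξ, rfl⟩ := hx
    have h1 := dO_inj (x := (1, (p : ℚ))) (y := (ξ, 1 / (p : ℚ))) ⟨one_ne_zero, hp0⟩
      ⟨hr0 ξ hξ, by positivity⟩ (pow2_inj n h0)
    have h2 : (p : ℚ) = 1 / p := (Prod.ext_iff.1 h1).2
    rw [eq_div_iff hp0.ne'] at h2
    nlinarith
  set d := fO.natDegree + 1 with hd
  have hcoef : ∀ l, fO.coeff l ∈ FF := by
    intro l
    rw [hfO, Polynomial.coeff_map]
    exact (f.coeff l).2
  obtain ⟨c, h, hc, hh⟩ := FF_fracs (Finset.range d) (fun l => fO.coeff l) (fun l _ => hcoef l)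
  choose γ _ hγ' using fun l => FF_io (H := ⊤) (AddSubgroup.mem_top 1) (hcoef l)
  set zP : P := dP 1 (p : ℚ) ^ N with hzP
  have hzio : z = io zP := by rw [hzP, map_pow]; rfl
  set Γ : P := ∑ l ∈ Finset.range d, γ l * zP ^ l with hΓ
  have hΓio : fO.eval z = io Γ := by
    rw [Polynomial.eval_eq_sum_range, hΓ, map_sum]
    refine Finset.sum_congr rfl fun l _ => ?_
    rw [map_mul, map_pow, ← hγ' l, hzio]
  have hΓ0 : Γ ≠ 0 := by
    rintro h0
    rw [hΓio, h0, map_zero] at hfz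
    exact hfz rfl
  set cP : P := Polynomial.aeval (dP 1 1) c with hcP
  have hcP0 : cP ≠ 0 := fun h0 => hc (aeval_D_inj h0)
  have hzP0 : zP ≠ 0 := pow_ne_zero _ (dP_ne one_ne_zero hp0)
  set G : ℕ → Polynomial kk := fun m => ∑ l ∈ Finset.range d,
    h l * (Rp p (N * (l + m))).map (algebraMap (ZMod 2) kk) with hG
  have hGm : ∀ m, Polynomial.aeval (dP 1 1) (G m) = cP * (zP ^ m * Γ) := by
    intro m
    apply io_inj
    rw [map_mul, map_mul, map_pow, ← hΓio, ← hzio, hG]
    simp only [map_sum, map_mul]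
    have e1 : ∀ l ∈ Finset.range d, io (Polynomial.aeval (dP 1 1) (h l)) *
        io (Polynomial.aeval (dP 1 1) ((Rp p (N * (l + m))).map (algebraMap (ZMod 2) kk))) =
        io cP * (fO.coeff l * (z ^ (l + m) +
          ∑ ξ ∈ rts p 1, (dO (ξ, 1 / (p : ℚ)) ^ N) ^ (l + m))) := by
      intro l hl
      rw [← hh l hl, hsum]
      have e2 : io (Polynomial.aeval (dP 1 1) ((Rp p (N * (l + m))).map (algebraMap (ZMod 2) kk))) =
          Polynomial.eval₂ (algebraMap (ZMod 2) Om) (dO (1, 1)) (Rp p (N * (l + m))) := by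
        rw [Polynomial.aeval_def, Polynomial.eval₂_map, Polynomial.hom_eval₂]
        congr 1
        exact Subsingleton.elim _ _
      rw [e2]
      ring
    rw [Finset.sum_congr rfl e1, ← Finset.mul_sum]
    congr 1
    simp only [mul_add, Finset.sum_add_distrib]
    have e3 : ∑ l ∈ Finset.range d, fO.coeff l * z ^ (l + m) = z ^ m * fO.eval z := by
      rw [Polynomial.eval_eq_sum_range, Finset.mul_sum]
      exact Finset.sum_congr rfl fun l _ => by rw [pow_add]; ring
    have e4 : ∑ l ∈ Finset.range d, fO.coeff l *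
        ∑ ξ ∈ rts p 1, (dO (ξ, 1 / (p : ℚ)) ^ N) ^ (l + m) = 0 := by
      simp_rw [Finset.mul_sum]
      rw [Finset.sum_comm]
      apply Finset.sum_eq_zero
      intro ξ hξ
      have e5 := hfroot ξ hξ
      rw [Polynomial.eval_eq_sum_range] at e5
      have e6 : ∑ l ∈ Finset.range d, fO.coeff l * (dO (ξ, 1 / (p : ℚ)) ^ N) ^ (l + m) =
          (dO (ξ, 1 / (p : ℚ)) ^ N) ^ m *
            ∑ l ∈ Finset.range d, fO.coeff l * (dO (ξ, 1 / (p : ℚ)) ^ N) ^ l := by
        rw [Finset.mul_sum]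
        exact Finset.sum_congr rfl fun l _ => by rw [pow_add]; ring
      rw [e6, e5, mul_zero]
    rw [e3, e4, add_zero]
  set C := ∑ l ∈ Finset.range d, ((h l).natDegree + N * l) with hC
  have hdeg : ∀ m, (G m).natDegree ≤ C + N * m := by
    intro m
    apply Polynomial.natDegree_sum_le_of_forall_le
    intro l hl
    refine Polynomial.natDegree_mul_le.trans ?_
    have h1 : ((Rp p (N * (l + m))).map (algebraMap (ZMod 2) kk)).natDegree ≤ N * (l + m) :=
      Polynomial.natDegree_map_le.trans (Rp_deg _ _)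
    have h2 : (h l).natDegree + N * l ≤ C :=
      Finset.single_le_sum (f := fun l => (h l).natDegree + N * l) (fun _ _ => Nat.zero_le _) hl
    have h3 : N * (l + m) = N * l + N * m := mul_add _ _ _
    omega
  have key : ∀ m : ℕ, od cP + (m * (N * p) + od Γ) ≤ C + N * m := by
    intro m
    have h0 : cP * (zP ^ m * Γ) ≠ 0 := mul_ne_zero hcP0 (mul_ne_zero (pow_ne_zero _ hzP0) hΓ0)
    have hG0 : G m ≠ 0 := by
      intro h1
      rw [← hGm m, h1, map_zero] at h0
      exact h0 rfl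
    obtain ⟨k, hk, hv⟩ := exists_od (G m) hG0
    rw [hGm m] at hv
    have h1 := od_eq hv
    rw [od_mul hcP0 (mul_ne_zero (pow_ne_zero _ hzP0) hΓ0), od_mul (pow_ne_zero _ hzP0) hΓ0,
      od_pow hzP0, hzP, od_pow (dP_ne one_ne_zero hp0), od_dP one_ne_zero hp0] at h1
    rw [h1]
    have h2 := hk.trans (hdeg m)
    exact_mod_cast h2
  have hN1 : (1 : ℚ) ≤ N := by exact_mod_cast (Nat.one_le_two_pow)
  have hp3 : (2 : ℚ) ≤ p := by exact_mod_cast hp.1.two_le
  obtain ⟨m, hm⟩ := exists_nat_gt ((C : ℚ) - od cP - od Γ)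
  have h1 := key m
  have h2 : (m : ℚ) * (N * p) ≥ m * (N * 2) := by
    apply mul_le_mul_of_nonneg_left _ (Nat.cast_nonneg m)
    apply mul_le_mul_of_nonneg_left hp3 (by linarith)
  have h3 : (m : ℚ) * N ≥ m * 1 := mul_le_mul_of_nonneg_left hN1 (Nat.cast_nonneg m)
  linarith

end Pool.Agent.Q36.RD
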