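import Pool.Agent.Q36.RD.Pole

set_option autoImplicit false

/-!
# Cube roots of the functions `D (ζ q ^ a)`
-/

namespace Pool.Agent.Q36.RD

open PowerSeries

/-- `∏ (1 - q ^ n)` modulo 2 -/
noncomputable abbrev E2 : S2 := pentagonalSeries (ZMod 2)

theorem Db_def : Db = X * E2 ^ 24 := rfl

/-- `t E (t ^ 3) ^ 8`, the cube root of `D (t ^ 3)` -/
noncomputable def cT : kk⟦X⟧ := X * (PowerSeries.expand 3 (by norm_num) (ik E2)) ^ 8

theorem cT_cube : cT ^ 3 = PowerSeries.expand 3 (by norm_num) (ik Db) := by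
  rw [Db_def, map_mul, map_mul, map_pow, map_pow, cT, mul_pow, ← pow_mul]
  congr 1
  rw [show ik X = X from PowerSeries.map_X _, PowerSeries.expand_X]

/-- cube root of `D (ξ ^ 3 q ^ (3 a))` -/
noncomputable def cP (ξ : kk) (a : ℚ) : P := ev ξ a cT

theorem cP_cube {a : ℚ} (ha : 0 < a) (ξ : kk) : cP ξ a ^ 3 = dP (ξ ^ 3) (3 * a) := by
  rw [cP, ← map_pow, cT_cube, ev_expand ha]
  push_cast
  rfl

theorem cP_eq {a : ℚ} (ha : 0 < a) (ξ : kk) :
    cP ξ a = HahnSeries.single a ξ * ev (ξ ^ 3) (3 * a) (ik E2) ^ 8 := by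
  rw [cP, cT, map_mul, map_pow, ev_X ha, ev_expand ha]
  push_cast
  rfl

theorem cP_smul {a : ℚ} (ha : 0 < a) {ω ξ : kk} (hω : ω ^ 3 = 1) :
    cP (ω * ξ) a = HahnSeries.single 0 ω * cP ξ a := by
  rw [cP_eq ha, cP_eq ha, mul_pow, hω, one_mul, ← mul_assoc, HahnSeries.single_mul_single, zero_add]

theorem cP_ne {ξ : kk} (hξ : ξ ≠ 0) {a : ℚ} (ha : 0 < a) : cP ξ a ≠ 0 := by
  intro h
  have h1 := cP_cube ha ξ
  rw [h, zero_pow (by norm_num)] at h1
  exact dP_ne (pow_ne_zero 3 hξ) (by positivity) h1.symm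

theorem od_cP {ξ : kk} (hξ : ξ ≠ 0) {a : ℚ} (ha : 0 < a) : od (cP ξ a) = a := by
  have h1 := congrArg od (cP_cube ha ξ)
  rw [od_pow (cP_ne hξ ha), od_dP (pow_ne_zero 3 hξ) (by positivity)] at h1
  push_cast at h1
  linarith

/-- vertices for the cube roots -/
def Vc (x : kk × ℚ) : Prop := Vx (x.1 ^ 3, 3 * x.2)

theorem Vc.pos {x : kk × ℚ} (h : Vc x) : x.1 ≠ 0 ∧ 0 < x.2 := by
  have h1 := Vx.pos h
  refine ⟨fun h0 => h1.1 (by rw [h0]; exact zero_pow (by norm_num)), ?_⟩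
  have h2 : 0 < 3 * x.2 := h1.2
  linarith

theorem alg_cP {x : kk × ℚ} (h : Vc x) : io (cP x.1 x.2) ∈ KK := by
  rw [mem_KK]
  have h0 : io (cP x.1 x.2) ^ 3 = dO (x.1 ^ 3, 3 * x.2) := by
    rw [← map_pow, cP_cube h.pos.2]
    rfl
  have h1 : IsIntegral FF (io (cP x.1 x.2) ^ 3) := by
    rw [h0]
    exact (alg_dO h).isIntegral
  exact (IsIntegral.of_pow (by norm_num) h1).isAlgebraic

open Classical in
noncomputable def cK (x : kk × ℚ) : KK := if h : Vc x then ⟨io (cP x.1 x.2), alg_cP h⟩ else 0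

theorem coe_cK {x : kk × ℚ} (h : Vc x) : (cK x : Om) = io (cP x.1 x.2) := by
  rw [cK, dif_pos h]

theorem cK_cube {x : kk × ℚ} (h : Vc x) : cK x ^ 3 = dK (x.1 ^ 3, 3 * x.2) := by
  apply Subtype.ext
  have h1 : ((cK x ^ 3 : KK) : Om) = (cK x : Om) ^ 3 := rfl
  rw [h1, coe_cK h, coe_dK h, ← map_pow, cP_cube h.pos.2]
  rfl

/-- constants -/
noncomputable def kc (c : kk) : KK := algebraMap FF KK (algebraMap kk FF c)

theorem coe_kc (c : kk) : (kc c : Om) = io (HahnSeries.single 0 c) := by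
  rw [← alg_Om c]
  rfl

theorem act_kc (σ : GG) (c : kk) : σ (kc c) = kc c := σ.commutes _

/-- cube roots are mapped to cube roots -/
theorem act_c (σ : GG) {x y : kk × ℚ} (hx : Vc x) (hy : Vx y) (h : σ (dK (x.1 ^ 3, 3 * x.2)) = dK y) :
    ∃ η : kk, η ^ 3 = y.1 ∧ Vc (η, y.2 / 3) ∧ σ (cK x) = cK (η, y.2 / 3) := by
  obtain ⟨η, hη⟩ := IsAlgClosed.exists_pow_nat_eq y.1 (n := 3) (by norm_num)
  have hV : ∀ η : kk, η ^ 3 = y.1 → Vc (η, y.2 / 3) := by
    intro η hη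
    unfold Vc
    simp only
    rw [hη, mul_div_cancel₀ _ (by norm_num : (3 : ℚ) ≠ 0)]
    exact hy
  have h1 : (σ (cK x)) ^ 3 = (cK (η, y.2 / 3)) ^ 3 := by
    rw [← map_pow, cK_cube hx, h, cK_cube (hV η hη)]
    simp only
    rw [hη, mul_div_cancel₀ _ (by norm_num : (3 : ℚ) ≠ 0)]
  have hypos := hy.pos
  have hη0 : η ≠ 0 := (hV η hη).pos.1
  have hc0 : cK (η, y.2 / 3) ≠ 0 := by
    intro h0
    have h2 := coe_cK (hV η hη)
    rw [h0] at h2
    have h3 : io (cP η (y.2 / 3)) = 0 := h2.symm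
    exact cP_ne hη0 (hV η hη).pos.2 (io_inj (h3.trans (map_zero io).symm))
  -- the quotient is a cube root of unity in `kk`
  set r : KK := σ (cK x) / cK (η, y.2 / 3) with hr
  have hr3 : r ^ 3 = 1 := by
    rw [hr, div_pow, h1, div_self (pow_ne_zero 3 hc0)]
  obtain ⟨z, hz⟩ := exists_prim (p := 3) (by decide)
  have hz3 : (kc z) ^ 3 = 1 := by
    unfold kc
    rw [← map_pow, ← map_pow, hz.pow_eq_one, map_one, map_one]
  have hfac : (r - 1) * (r - kc z) * (r - kc z ^ 2) = 0 := by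
    have h4 : (1 : kk) + z + z ^ 2 = 0 := by
      have := hz.geom_sum_eq_zero (by norm_num)
      simpa [Finset.sum_range_succ] using this
    have h5 : (1 : KK) + kc z + kc z ^ 2 = 0 := by
      have := congrArg kc h4
      unfold kc at this ⊢
      simpa using this
    linear_combination hr3 - hz3 - (r ^ 2 - r * kc z) * h5
  have hcase : ∃ ω : kk, ω ^ 3 = 1 ∧ r = kc ω := by
    rcases mul_eq_zero.1 hfac with h4 | h4
    · rcases mul_eq_zero.1 h4 with h5 | h5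
      · exact ⟨1, by simp, by rw [sub_eq_zero.1 h5]; unfold kc; simp⟩
      · exact ⟨z, hz.pow_eq_one, sub_eq_zero.1 h5⟩
    · refine ⟨z ^ 2, by rw [← pow_mul, mul_comm, pow_mul, hz.pow_eq_one, one_pow], ?_⟩
      rw [sub_eq_zero.1 h4]
      unfold kc
      rw [map_pow, map_pow]
  obtain ⟨ω, hω, hrω⟩ := hcase
  have h6 : (ω * η) ^ 3 = y.1 := by rw [mul_pow, hω, one_mul, hη]
  refine ⟨ω * η, h6, hV _ h6, ?_⟩
  have h7 : σ (cK x) = kc ω * cK (η, y.2 / 3) := by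
    rw [← hrω, hr, div_mul_cancel₀ _ hc0]
  rw [h7]
  apply Subtype.ext
  have h8 : ((kc ω * cK (η, y.2 / 3) : KK) : Om) = (kc ω : Om) * (cK (η, y.2 / 3) : Om) := rfl
  rw [h8, coe_kc, coe_cK (hV η hη), coe_cK (hV _ h6), ← map_mul]
  congr 1
  exact (cP_smul (hV η hη).pos.2 hω).symm

end Pool.Agent.Q36.RD
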