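import Pool.Agent.Q36.RD.W

set_option autoImplicit false

/-!
# The functions `W` and the action of the Galois group
-/

namespace Pool.Agent.Q36.RD

open PowerSeries

theorem Vx.two {x : kk × ℚ} (hx : Vx x) : x.2 ∈ H2 := by
  apply mem_HH_of_val Nat.prime_two hx.pos.2
  rw [val_con (T := OP) subset_rfl Nat.prime_two (fun h => h.2 rfl) ⟨one_ne_zero, one_pos⟩ hx]
  simp

theorem third_mem {a : ℚ} (h : a ∈ H2) : a / 3 ∈ H2 := by
  obtain ⟨m, hm, n, hn⟩ := h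
  refine ⟨3 * m, ?_, n, ?_⟩
  · omega
  · push_cast
    rw [← hn]
    ring

theorem cP_mem {ξ : kk} {a : ℚ} (ha : 0 < a) (h : a ∈ H2) : cP ξ a ∈ PH H2 := by
  rw [mem_PH]
  intro e he
  rw [cP, ev_coeff_not ha]
  rintro n rfl
  apply he
  rw [mul_comm, ← nsmul_eq_mul]
  exact H2.nsmul_mem h n

theorem cK_mem {x : kk × ℚ} (hx : Vc x) : cK x ∈ K2 := by
  intro σ
  obtain ⟨y, hy, h1⟩ := act σ hx
  obtain ⟨η, h2, h3, h4⟩ := act_c σ hx hy h1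
  refine ⟨cP η (y.2 / 3), cP_mem h3.pos.2 (third_mem hy.two), ?_⟩
  rw [h4, coe_cK h3]

theorem kc_mem (c : kk) : kc c ∈ K2 := K2.algebraMap_mem _

/-- the function attached to the eta quotient -/
noncomputable def wK (m n : ℤ) (x : kk × ℚ) : KK := cK x ^ m * cK (x.1 ^ 3, 3 * x.2) ^ n

theorem Vx.up {x : kk × ℚ} (hx : Vx x) {p : ℕ} (hp : p ∈ OP) : Vx (x.1 ^ p, p * x.2) :=
  hx.stp hp (Or.inl ⟨rfl, rfl⟩)

theorem three_mem : 3 ∈ OP := ⟨Nat.prime_three, by norm_num⟩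

theorem Vc.up {x : kk × ℚ} (hx : Vc x) : Vc (x.1 ^ 3, 3 * x.2) := by
  have h1 : Vx (x.1 ^ 3, 3 * x.2) := hx
  have := h1.up three_mem
  push_cast at this
  exact this

theorem Vx.vc {x : kk × ℚ} (hx : Vx x) : Vc x := by
  have := hx.up three_mem
  push_cast at this
  exact this

theorem wK_mem (m n : ℤ) {x : kk × ℚ} (hx : Vc x) : wK m n x ∈ K2 :=
  K2.mul_mem (zpow_mem (cK_mem hx) _) (zpow_mem (cK_mem hx.up) _)

theorem coe_zpow (x : KK) (m : ℤ) : ((x ^ m : KK) : Om) = (x : Om) ^ m :=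
  map_zpow₀ (algebraMap KK Om) x m

theorem coe_mul' (x y : KK) : ((x * y : KK) : Om) = (x : Om) * (y : Om) := rfl

theorem coe_sum' {ι : Type*} (s : Finset ι) (f : ι → KK) :
    ((∑ i ∈ s, f i : KK) : Om) = ∑ i ∈ s, (f i : Om) := map_sum (algebraMap KK Om) _ _

theorem coe_wK (m n : ℤ) {x : kk × ℚ} (hx : Vc x) : (wK m n x : Om) = io (wP m n x.1 x.2) := by
  rw [wK, coe_mul', coe_zpow, coe_zpow, coe_cK hx, coe_cK hx.up, wP, map_mul, map_zpow₀, map_zpow₀]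

/-- the combination -/
noncomputable def XP {ι : Type*} (I : Finset ι) (ξ : ι → kk) (e : ℤ) (g : ι → P) : P :=
  ∑ i ∈ I, HahnSeries.single 0 (ξ i ^ (-e)) * g i

noncomputable def XK {ι : Type*} (I : Finset ι) (ξ : ι → kk) (e : ℤ) (g : ι → KK) : KK :=
  ∑ i ∈ I, kc (ξ i ^ (-e)) * g i

theorem coe_XK {ι : Type*} (I : Finset ι) (ξ : ι → kk) (e : ℤ) (g : ι → KK) (f : ι → P)
    (h : ∀ i ∈ I, (g i : Om) = io (f i)) : (XK I ξ e g : Om) = io (XP I ξ e f) := by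
  rw [XK, XP, coe_sum', map_sum]
  refine Finset.sum_congr rfl fun i hi => ?_
  rw [coe_mul', coe_kc, h i hi, map_mul]

theorem act_XK {ι : Type*} (σ : GG) (I : Finset ι) (ξ : ι → kk) (e : ℤ) (g : ι → KK) :
    σ (XK I ξ e g) = XK I ξ e (fun i => σ (g i)) := by
  rw [XK, XK, map_sum]
  refine Finset.sum_congr rfl fun i _ => ?_
  rw [map_mul, act_kc]

theorem XP_coeff {ι : Type*} (I : Finset ι) (ξ : ι → kk) (e : ℤ) (g : ι → P) (x : ℚ) :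
    (XP I ξ e g).coeff x = ∑ i ∈ I, ξ i ^ (-e) * (g i).coeff x := by
  rw [XP, HahnSeries.coeff_sum]
  refine Finset.sum_congr rfl fun i _ => ?_
  rw [HahnSeries.coeff_single_zero_mul]

theorem dvd_of_mem {N u : ℕ} (hN : 0 < N) {d : ℤ}
    (h : (1 / (N : ℚ)) * (3 * d) / 2 ^ u ∈ H2) : (2 ^ u : ℤ) ∣ d := by
  obtain ⟨k, hk, l, hl⟩ := h
  have hN' : (N : ℚ) ≠ 0 := by exact_mod_cast hN.ne'
  have h1 : (3 * d * k : ℚ) = 2 ^ u * (l * N) := by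
    field_simp at hl
    linarith
  have h2 : (3 * d * k : ℤ) = 2 ^ u * (l * N) := by exact_mod_cast h1
  have h3 : (2 ^ u : ℤ) ∣ (3 * k : ℕ) * d := ⟨l * N, by push_cast; linear_combination h2⟩
  have hcop : IsCoprime (2 ^ u : ℤ) ((3 * k : ℕ) : ℤ) := by
    apply IsCoprime.pow_left
    rw [show (2 : ℤ) = ((2 : ℕ) : ℤ) from rfl, Nat.isCoprime_iff_coprime]
    rw [Nat.coprime_two_left]
    have : Odd k := Nat.not_even_iff_odd.1 (fun h => hk h.two_dvd)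
    exact (by decide : Odd 3).mul this
  exact hcop.dvd_of_dvd_mul_left h3

theorem XP_sec {ι : Type*} {I : Finset ι} {ξ : ι → kk} (hξ : ∀ i ∈ I, ξ i ≠ 0) {N M u ρ : ℕ}
    (hN : 0 < N) {m n : ℤ} {F : S2} (hF : EQ m n F)
    (hsum : ∀ d : ℤ, ∑ i ∈ I, ξ i ^ (24 * d) = if (M : ℤ) ∣ d then 1 else 0)
    (hvan : ∀ k : ℕ, (2 ^ u : ℤ) ∣ k - ρ → (M : ℤ) ∣ k - ρ → coeff k F = 0) :
    Sec ((1 / (N : ℚ)) * ((24 * ρ + (m + 3 * n) : ℤ) : ℚ)) (u + 3)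
      (XP I ξ (24 * ρ + (m + 3 * n)) (fun i => wP m n (ξ i) (1 / (N : ℚ)))) = 0 := by
  have ha : 0 < 1 / (N : ℚ) := by positivity
  apply Sec_of_none
  intro e' he hc
  rw [XP_coeff] at he
  by_cases hk : ∃ k : ℕ, e' = (1 / (N : ℚ)) * ((24 * k + (m + 3 * n) : ℤ) : ℚ)
  · obtain ⟨k, rfl⟩ := hk
    have h1 : ∑ i ∈ I, ξ i ^ (-(24 * ρ + (m + 3 * n)) : ℤ) * (wP m n (ξ i) (1 / (N : ℚ))).coeff
        ((1 / (N : ℚ)) * ((24 * k + (m + 3 * n) : ℤ) : ℚ)) =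
        (if (M : ℤ) ∣ ((k : ℤ) - ρ) then 1 else 0) * algebraMap (ZMod 2) kk (coeff k F) := by
      rw [← hsum, Finset.sum_mul]
      refine Finset.sum_congr rfl fun i hi => ?_
      rw [wP_coeff hF (hξ i hi) ha, ← mul_assoc, ← zpow_add₀ (hξ i hi)]
      congr 2
      ring
    rw [h1] at he
    split_ifs at he with hM
    · apply he
      rw [hvan k _ hM]
      · simp
      · apply dvd_of_mem hN
        unfold Cl at hc
        have h2 : (1 / (N : ℚ) * ((24 * k + (m + 3 * n) : ℤ) : ℚ) -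
            1 / (N : ℚ) * ((24 * ρ + (m + 3 * n) : ℤ) : ℚ)) / 2 ^ (u + 3) =
            (1 / (N : ℚ)) * (3 * ((k - ρ : ℤ) : ℚ)) / 2 ^ u := by
          rw [pow_add]
          push_cast
          field_simp
          ring
        rwa [h2] at hc
    · exact he (by simp)
  · push Not at hk
    apply he
    apply Finset.sum_eq_zero
    intro i hi
    rw [wP_coeff_not hF (hξ i hi) ha hk, mul_zero]

/-- **the relation between the expansions at another cusp** -/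
theorem relation {ι : Type*} {I : Finset ι} {ξ : ι → kk} {N M u ρ : ℕ} (hN : 0 < N)
    (hξ : ∀ i ∈ I, Vc (ξ i, 1 / (N : ℚ))) {m n : ℤ} {F : S2} (hF : EQ m n F)
    (hsum : ∀ d : ℤ, ∑ i ∈ I, ξ i ^ (24 * d) = if (M : ℤ) ∣ d then 1 else 0)
    (hvan : ∀ k : ℕ, (2 ^ u : ℤ) ∣ k - ρ → (M : ℤ) ∣ k - ρ → coeff k F = 0)
    {σ : GG} (hσ : FixS σ) {g : ι → P}
    (hg : ∀ i ∈ I, ((σ (wK m n (ξ i, 1 / (N : ℚ))) : KK) : Om) = io (g i)) {e0 : ℚ}
    (he0 : Cl ((1 / (N : ℚ)) * ((24 * ρ + (m + 3 * n) : ℤ) : ℚ)) (u + 3) e0) :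
    ∑ i ∈ I, ξ i ^ (-(24 * ρ + (m + 3 * n)) : ℤ) * (g i).coeff e0 = 0 := by
  have h1 := XP_sec (fun i hi => (hξ i hi).pos.1) hN hF hsum hvan
  have hmem : XK I ξ (24 * ρ + (m + 3 * n)) (fun i => wK m n (ξ i, 1 / (N : ℚ))) ∈ K2 := by
    unfold XK
    apply sum_mem
    intro i hi
    exact K2.mul_mem (kc_mem _) (wK_mem m n (hξ i hi))
  have h2 := coe_XK I ξ (24 * ρ + (m + 3 * n)) (fun i => wK m n (ξ i, 1 / (N : ℚ)))
    (fun i => wP m n (ξ i) (1 / (N : ℚ))) (fun i hi => coe_wK m n (hξ i hi))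
  have h3 := coe_XK I ξ (24 * ρ + (m + 3 * n)) (fun i => σ (wK m n (ξ i, 1 / (N : ℚ)))) g hg
  rw [← act_XK] at h3
  have h4 := sec_zero hσ hmem h2 h3 h1
  have h5 := congrArg (fun f => HahnSeries.coeff f e0) h4
  rw [Sec_coeff, if_pos he0, XP_coeff] at h5
  exact h5

end Pool.Agent.Q36.RD
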