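import Mathlib

set_option autoImplicit false

/-!
# Elements fixed by all automorphisms
-/

namespace Pool.Agent.Q36.RD

open Polynomial

theorem fix_pow {L K : Type*} [Field L] [Field K] [Algebra L K] [CharP L 2] [Normal L K]
    [IsAlgClosed K] (x : K) (h : ∀ σ : K ≃ₐ[L] K, σ x = x) :
    ∃ n : ℕ, x ^ 2 ^ n ∈ (algebraMap L K).range := by
  classical
  have : ExpChar L 2 := ExpChar.prime Nat.prime_two
  have hx : IsIntegral L x := Normal.isIntegral inferInstance x
  rw [← minpoly.natSepDegree_eq_one_iff_pow_mem 2, natSepDegree_eq_of_isAlgClosed K]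
  have h1 : ((minpoly L x).aroots K).toFinset = {x} := by
    ext y
    rw [Multiset.mem_toFinset, ← isConjRoot_iff_mem_minpoly_aroots hx, Finset.mem_singleton]
    constructor
    · intro hy
      obtain ⟨σ, hσ⟩ := hy.symm.exists_algEquiv
      rw [← hσ, h σ]
    · rintro rfl
      exact IsConjRoot.refl
  rw [h1]
  rfl

end Pool.Agent.Q36.RD
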