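import Mathlib

set_option autoImplicit false

/-!
# Finite sets and their power sums
-/

namespace Pool.Agent.Q36.RD

open Polynomial

theorem sum_eval {K : Type*} [Field K] (X : Finset K) (f : K[X]) :
    ∑ x ∈ X, f.eval x = ∑ i ∈ Finset.range (f.natDegree + 1), f.coeff i * ∑ x ∈ X, x ^ i := by
  simp_rw [Polynomial.eval_eq_sum_range]
  rw [Finset.sum_comm]
  simp_rw [Finset.mul_sum]

/-- a finite set is determined by its power sums -/
theorem ind {K : Type*} [Field K] (X Y : Finset K)
    (h : ∀ k : ℕ, ∑ x ∈ X, x ^ k = ∑ x ∈ Y, x ^ k) : X = Y := by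
  classical
  have key : ∀ X Y : Finset K, (∀ k : ℕ, ∑ x ∈ X, x ^ k = ∑ x ∈ Y, x ^ k) → X ⊆ Y := by
    intro X Y h x0 hx
    by_contra hy
    set Z := (X ∪ Y).erase x0 with hZ
    set f : K[X] := ∏ z ∈ Z, (Polynomial.X - C z) with hf
    have h1 : ∑ x ∈ X, f.eval x = ∑ x ∈ Y, f.eval x := by
      rw [sum_eval, sum_eval]
      exact Finset.sum_congr rfl fun i _ => by rw [h i]
    have h2 : ∀ x ∈ Z, f.eval x = 0 := by
      intro x hx
      rw [hf, eval_prod]
      exact Finset.prod_eq_zero hx (by simp)
    rw [← Finset.add_sum_erase X _ hx] at h1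
    rw [Finset.sum_eq_zero (s := Y), Finset.sum_eq_zero (s := X.erase x0), add_zero] at h1
    · rw [hf, eval_prod, Finset.prod_eq_zero_iff] at h1
      obtain ⟨z, hz, h3⟩ := h1
      simp only [eval_sub, eval_X, eval_C, sub_eq_zero] at h3
      rw [← h3, hZ] at hz
      exact Finset.notMem_erase _ _ hz
    · intro x hx2
      apply h2
      rw [hZ]
      exact Finset.erase_subset_erase _ Finset.subset_union_left hx2
    · intro x hx2
      apply h2
      rw [hZ, Finset.mem_erase]
      exact ⟨fun h4 => hy (h4 ▸ hx2), Finset.mem_union_right _ hx2⟩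
  exact le_antisymm (key X Y h) (key Y X fun k => (h k).symm)

/-- if all power sums are in `L` then the monic polynomial with the roots `X` is over `L` -/
theorem ps {L K : Type*} [Field L] [Field K] [Algebra L K] (X : Finset K)
    (h : ∀ k : ℕ, ∑ x ∈ X, x ^ k ∈ (algebraMap L K).range) :
    ∃ f : L[X], f.map (algebraMap L K) = ∏ x ∈ X, (Polynomial.X - C x) := by
  classical
  choose p hp using h
  set n := X.card with hn
  set g : K[X] := ∏ x ∈ X, (Polynomial.X - C x) with hg
  have hgm : g.Monic := monic_prod_of_monic _ _ fun x _ => monic_X_sub_C x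
  have hgd : g.natDegree = n := by
    rw [hg, natDegree_prod_of_monic _ _ fun x _ => monic_X_sub_C x]
    simp [hn]
  have hgx : ∀ x ∈ X, g.eval x = 0 := by
    intro x hx
    rw [hg, eval_prod]
    exact Finset.prod_eq_zero hx (by simp)
  obtain ⟨M, hM⟩ : ∃ M : Matrix (Fin (n + 1)) (Fin (n + 1)) L, ∀ i j, M i j = p (i + j) :=
    ⟨Matrix.of fun i j => p (i + j), fun _ _ => rfl⟩
  have h1 : (M.map (algebraMap L K)).det = 0 := by
    rw [← Matrix.exists_mulVec_eq_zero_iff]
    refine ⟨fun j => g.coeff j, ?_, ?_⟩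
    · intro h0
      have h2 := congrFun h0 (Fin.last n)
      simp only [Fin.val_last, Pi.zero_apply] at h2
      rw [← hgd, coeff_natDegree, hgm.leadingCoeff] at h2
      exact one_ne_zero h2
    · ext i
      rw [Pi.zero_apply, Matrix.mulVec, dotProduct]
      simp only [Matrix.map_apply, hM, hp]
      simp_rw [Finset.sum_mul]
      rw [Finset.sum_comm]
      apply Finset.sum_eq_zero
      intro x hx
      have h3 := hgx x hx
      rw [eval_eq_sum_range, hgd, ← Fin.sum_univ_eq_sum_range (fun j => g.coeff j * x ^ j)] at h3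
      have h4 : ∑ j : Fin (n + 1), x ^ ((i : ℕ) + j) * g.coeff j =
          x ^ (i : ℕ) * ∑ j : Fin (n + 1), g.coeff j * x ^ (j : ℕ) := by
        rw [Finset.mul_sum]
        exact Finset.sum_congr rfl fun j _ => by rw [pow_add]; ring
      rw [h4, h3, mul_zero]
  have h2 : M.det = 0 := by
    have h3 : (algebraMap L K) M.det = 0 := by rw [RingHom.map_det]; exact h1
    exact (map_eq_zero_iff _ (algebraMap L K).injective).1 h3
  obtain ⟨w, hw0, hw⟩ := Matrix.exists_mulVec_eq_zero_iff.2 h2
  set f : L[X] := ∑ j : Fin (n + 1), monomial (j : ℕ) (w j) with hf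
  set fK := f.map (algebraMap L K) with hfK
  have hfc : ∀ j : Fin (n + 1), f.coeff j = w j := by
    intro j
    rw [hf, finsetSum_coeff]
    simp only [coeff_monomial]
    rw [Finset.sum_eq_single j]
    · simp
    · intro b _ hb
      rw [if_neg]
      intro h
      exact hb (Fin.ext h)
    · intro h
      exact absurd (Finset.mem_univ j) h
  have hfd : f.natDegree ≤ n := by
    apply natDegree_sum_le_of_forall_le
    intro j _
    exact (natDegree_monomial_le _).trans (by omega)
  have hf0 : f ≠ 0 := by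
    intro h0
    apply hw0
    ext j
    rw [← hfc j, h0]
    simp
  have hfx : ∀ i : ℕ, i ≤ n → ∑ x ∈ X, x ^ i * fK.eval x = 0 := by
    intro i hi
    have h3 := congrFun hw ⟨i, by omega⟩
    rw [Pi.zero_apply, Matrix.mulVec, dotProduct] at h3
    have h4 := congrArg (algebraMap L K) h3
    rw [map_sum, map_zero] at h4
    simp only [map_mul, hM, hp] at h4
    simp_rw [Finset.sum_mul] at h4
    rw [Finset.sum_comm] at h4
    rw [← h4]
    refine Finset.sum_congr rfl fun x _ => ?_
    rw [eval_eq_sum_range' (n := n + 1) (by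
      rw [hfK]; exact lt_of_le_of_lt (natDegree_map_le) (by omega)),
      ← Fin.sum_univ_eq_sum_range (fun j => fK.coeff j * x ^ j), Finset.mul_sum]
    refine Finset.sum_congr rfl fun j _ => ?_
    rw [hfK, coeff_map, hfc, pow_add]
    ring
  have hfx' : ∀ h : K[X], h.natDegree ≤ n → ∑ x ∈ X, h.eval x * fK.eval x = 0 := by
    intro h hh
    have h3 : ∀ x, h.eval x = ∑ i ∈ Finset.range (n + 1), h.coeff i * x ^ i := fun x =>
      eval_eq_sum_range' (by omega) x
    simp_rw [h3, Finset.sum_mul]
    rw [Finset.sum_comm]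
    apply Finset.sum_eq_zero
    intro i hi
    have h4 : ∑ x ∈ X, h.coeff i * x ^ i * fK.eval x = h.coeff i * ∑ x ∈ X, x ^ i * fK.eval x := by
      rw [Finset.mul_sum]
      exact Finset.sum_congr rfl fun x _ => by ring
    rw [h4, hfx i (by rw [Finset.mem_range] at hi; omega), mul_zero]
  have hroot : ∀ x ∈ X, fK.eval x = 0 := by
    intro x0 hx0
    set h : K[X] := ∏ z ∈ X.erase x0, (Polynomial.X - C z) with hh
    have h3 : h.natDegree ≤ n := by
      rw [hh, natDegree_prod_of_monic _ _ fun x _ => monic_X_sub_C x]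
      simp only [natDegree_X_sub_C, Finset.sum_const, smul_eq_mul, mul_one]
      rw [hn]
      exact Finset.card_erase_le
    have h4 := hfx' h h3
    rw [Finset.sum_eq_single x0] at h4
    · rcases mul_eq_zero.1 h4 with h5 | h5
      · exfalso
        rw [hh, eval_prod, Finset.prod_eq_zero_iff] at h5
        obtain ⟨z, hz, h6⟩ := h5
        simp only [eval_sub, eval_X, eval_C, sub_eq_zero] at h6
        rw [← h6] at hz
        exact Finset.notMem_erase _ _ hz
      · exact h5
    · intro b hb hne
      rw [hh, eval_prod, Finset.prod_eq_zero (Finset.mem_erase.2 ⟨hne, hb⟩) (by simp), zero_mul]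
    · intro h5
      exact absurd hx0 h5
  have hfK0 : fK ≠ 0 := by
    rw [hfK]
    exact (Polynomial.map_ne_zero_iff (algebraMap L K).injective).2 hf0
  have hdvd : g ∣ fK := by
    rw [hg]
    apply Finset.prod_dvd_of_coprime
    · intro x _ y _ hxy
      exact pairwise_coprime_X_sub_C Function.injective_id hxy
    · intro x hx
      rw [dvd_iff_isRoot]
      exact hroot x hx
  obtain ⟨c, hc⟩ := hdvd
  have hc0 : c ≠ 0 := by
    rintro rfl
    rw [mul_zero] at hc
    exact hfK0 hc
  have hcd : c.natDegree = 0 := by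
    have h3 : fK.natDegree = g.natDegree + c.natDegree := by
      rw [hc, natDegree_mul hgm.ne_zero hc0]
    have h4 : fK.natDegree ≤ n := by
      rw [hfK]; exact natDegree_map_le.trans hfd
    omega
  rw [eq_C_of_natDegree_eq_zero hcd] at hc
  have hlc : algebraMap L K f.leadingCoeff = c.coeff 0 := by
    have h3 := congrArg leadingCoeff hc
    rw [leadingCoeff_mul, hgm.leadingCoeff, one_mul, leadingCoeff_C, hfK,
      leadingCoeff_map_of_injective (algebraMap L K).injective] at h3
    exact h3
  refine ⟨C (f.leadingCoeff⁻¹) * f, ?_⟩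
  have hl0 : algebraMap L K f.leadingCoeff ≠ 0 := by
    rw [Ne, map_eq_zero_iff _ (algebraMap L K).injective]
    exact leadingCoeff_ne_zero.2 hf0
  rw [Polynomial.map_mul, map_C, ← hfK, hc, map_inv₀, ← hlc, mul_left_comm, ← C_mul,
    inv_mul_cancel₀ hl0, C_1, mul_one]

end Pool.Agent.Q36.RD
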