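import Pool.Agent.Q36.RD.Bas

set_option autoImplicit false

/-!
# Hahn series with exponents in a subgroup
-/

namespace Pool.Agent.Q36.RD

/-- `p`-integral rational numbers -/
def HH (p : ℕ) (hp : p.Prime) : AddSubgroup ℚ where
  carrier := {e | ∃ m : ℕ, ¬ p ∣ m ∧ ∃ n : ℤ, e * m = n}
  zero_mem' := ⟨1, fun h => hp.one_lt.ne' (Nat.dvd_one.1 h), 0, by simp⟩
  add_mem' := by
    rintro a b ⟨m, hm, n, hn⟩ ⟨m', hm', n', hn'⟩
    refine ⟨m * m', fun h => (hp.dvd_mul.1 h).elim hm hm', n * m' + n' * m, ?_⟩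
    push_cast
    rw [← hn, ← hn']
    ring
  neg_mem' := by
    rintro a ⟨m, hm, n, hn⟩
    exact ⟨m, hm, -n, by push_cast; rw [← hn]; ring⟩

theorem mem_HH {p : ℕ} {hp : p.Prime} {e : ℚ} :
    e ∈ HH p hp ↔ ∃ m : ℕ, ¬ p ∣ m ∧ ∃ n : ℤ, e * m = n := Iff.rfl

/-- the series with exponents in `H` -/
noncomputable def PH (H : AddSubgroup ℚ) : Subfield P :=
  (HahnSeries.embDomainRingHom H.subtype Subtype.val_injective (fun _ _ => Iff.rfl) :
    HahnSeries H kk →+* P).fieldRange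

theorem mem_PH {H : AddSubgroup ℚ} {f : P} : f ∈ PH H ↔ ∀ e : ℚ, e ∉ H → f.coeff e = 0 := by
  constructor
  · rintro ⟨g, rfl⟩ e he
    apply HahnSeries.embDomain_of_notMem_range
    rintro ⟨x, rfl⟩
    exact he x.2
  · intro h
    refine ⟨⟨fun x => f.coeff x, ?_⟩, ?_⟩
    · rw [Set.isPWO_iff_isWF, Set.isWF_iff_no_descending_seq]
      intro u hu hmem
      refine (Set.isWF_iff_no_descending_seq.1 f.isWF_support) (fun n => (u n : ℚ)) ?_ ?_
      · intro m n hmn
        exact hu hmn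
      · intro n
        exact hmem n
    · ext e
      by_cases he : e ∈ H
      · exact HahnSeries.embDomain_coeff (f := (⟨⟨H.subtype, Subtype.val_injective⟩, Iff.rfl⟩ :
          H ↪o ℚ)) (a := ⟨e, he⟩)
      · rw [h e he]
        apply HahnSeries.embDomain_of_notMem_range
        rintro ⟨x, rfl⟩
        exact he x.2

end Pool.Agent.Q36.RD
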