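import Pool.Agent.Q36.RD.Nb
import Pool.Agent.Q36.RD.Ps
import Pool.Agent.Q36.RD.Fix
import Pool.Agent.Q36.RD.Sub

set_option autoImplicit false

/-!
# The automorphisms over `kk (D)` act on the functions `D (ζ q ^ a)`
-/

namespace Pool.Agent.Q36.RD

abbrev Om : Type := AlgebraicClosure P

noncomputable def io : P →+* Om := algebraMap P Om

theorem io_inj : Function.Injective io := io.injective

instance : CharP Om 2 := charP_of_injective_ringHom io_inj 2

/-- the field `kk (D)` -/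
noncomputable def FF : IntermediateField kk Om := IntermediateField.adjoin kk {io (dP 1 1)}

/-- its algebraic closure -/
noncomputable def KK : IntermediateField FF Om := algebraicClosure FF Om

instance : IsAlgClosure FF KK := inferInstanceAs (IsAlgClosure FF (algebraicClosure FF Om))

instance : IsAlgClosed KK := IsAlgClosure.isAlgClosed FF

instance : Algebra.IsAlgebraic FF KK := IsAlgClosure.isAlgebraic

instance : Normal FF KK := IsAlgClosure.normal FF KK

instance : CharP KK 2 :=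
  charP_of_injective_ringHom (f := (algebraMap FF KK)) (algebraMap FF KK).injective 2

theorem mem_KK {x : Om} : x ∈ KK ↔ IsAlgebraic FF x := mem_algebraicClosure_iff

/-- one step -/
def Stp (p : ℕ) (x y : kk × ℚ) : Prop :=
  (y.1 = x.1 ^ p ∧ y.2 = p * x.2) ∨ (y.1 ^ p = x.1 ∧ y.2 = x.2 / p)

theorem stp_iff {p : ℕ} (hp : 0 < p) {x y : kk × ℚ} : Stp p x y ↔ y ∈ Nb p x.1 x.2 := (mem_Nb hp).symm

theorem Stp.symm {p : ℕ} (hp : 0 < p) {x y : kk × ℚ} (h : Stp p x y) : Stp p y x := by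
  have hp0 : (0 : ℚ) < p := by exact_mod_cast hp
  rcases h with ⟨h1, h2⟩ | ⟨h1, h2⟩
  · right
    refine ⟨h1.symm, ?_⟩
    rw [h2]
    field_simp
  · left
    refine ⟨h1.symm, ?_⟩
    rw [h2]
    field_simp

/-- odd primes -/
def OP : Set ℕ := {p | p.Prime ∧ p ≠ 2}

/-- connected by steps with primes in `T` -/
def Con (T : Set ℕ) : kk × ℚ → kk × ℚ → Prop :=
  Relation.ReflTransGen fun x y => ∃ p ∈ T, Stp p x y

theorem Con.mono {T T' : Set ℕ} (h : T ⊆ T') {x y : kk × ℚ} (hxy : Con T x y) : Con T' x y :=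
  by
  unfold Con at hxy ⊢
  induction hxy with
  | refl => exact Relation.ReflTransGen.refl
  | tail _ hs ih =>
    obtain ⟨p, hp, hs⟩ := hs
    exact ih.tail ⟨p, h hp, hs⟩

theorem Con.symm {T : Set ℕ} (hT : T ⊆ OP) {x y : kk × ℚ} (h : Con T x y) : Con T y x := by
  induction h with
  | refl => exact Relation.ReflTransGen.refl
  | tail _ hs ih =>
    obtain ⟨p, hp, hs⟩ := hs
    exact Relation.ReflTransGen.head ⟨p, hp, hs.symm (hT hp).1.pos⟩ ih

theorem Con.trans {T : Set ℕ} {x y z : kk × ℚ} (h : Con T x y) (h' : Con T y z) : Con T x z :=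
  Relation.ReflTransGen.trans h h'

/-- the vertices: everything connected to `(1, 1)` -/
def Vx (x : kk × ℚ) : Prop := Con OP (1, 1) x

theorem Vx.pos {x : kk × ℚ} (h : Vx x) : x.1 ≠ 0 ∧ 0 < x.2 := by
  induction h with
  | refl => exact ⟨one_ne_zero, one_pos⟩
  | tail _ hs ih =>
    obtain ⟨p, hp, hs⟩ := hs
    exact Nb_pos hp.1.pos ih.1 ih.2 ((stp_iff hp.1.pos).1 hs)

/-- `D (ζ q ^ a)` in `Om` -/
noncomputable def dO (x : kk × ℚ) : Om := io (dP x.1 x.2)

theorem dO_inj {x y : kk × ℚ} (hx : x.1 ≠ 0 ∧ 0 < x.2) (hy : y.1 ≠ 0 ∧ 0 < y.2) (h : dO x = dO y) :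
    x = y := by
  have h1 := dP_inj hx.1 hy.1 hx.2 hy.2 (io_inj h)
  exact Prod.ext h1.1 h1.2

theorem nb_sum_O {p : ℕ} (hp : p ∈ OP) {x : kk × ℚ} (hx : x.1 ≠ 0 ∧ 0 < x.2) (k : ℕ) :
    ∑ y ∈ Nb p x.1 x.2, dO y ^ k =
      Polynomial.eval₂ (algebraMap (ZMod 2) Om) (dO x) (Rp p k) := by
  have h1 := congrArg io (nb_sum hp.1 hp.2 hx.1 hx.2 k)
  rw [map_sum] at h1
  simp only [map_pow] at h1
  unfold dO
  rw [h1, Polynomial.hom_eval₂]
  congr 1

theorem alg_dO {x : kk × ℚ} (h : Vx x) : IsAlgebraic FF (dO x) := by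
  induction h with
  | refl =>
    have h1 : dO (1, 1) ∈ FF := IntermediateField.subset_adjoin kk _ rfl
    exact isAlgebraic_algebraMap (⟨dO (1, 1), h1⟩ : FF)
  | @tail x y hx hs ih =>
    obtain ⟨p, hp, hs⟩ := hs
    have hpos := Vx.pos hx
    set L := IntermediateField.adjoin FF {dO x} with hL
    have hLalg : Algebra.IsAlgebraic FF L := IntermediateField.isAlgebraic_adjoin (by
      intro z hz
      rw [Set.mem_singleton_iff.1 hz]
      exact ih.isIntegral)
    have hdx : dO x ∈ L := IntermediateField.subset_adjoin FF _ rfl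
    classical
    set X : Finset Om := (Nb p x.1 x.2).image dO with hX
    have hps : ∀ k : ℕ, ∑ z ∈ X, z ^ k ∈ (algebraMap L Om).range := by
      intro k
      rw [hX, Finset.sum_image, nb_sum_O hp hpos]
      · refine ⟨Polynomial.eval₂ (algebraMap (ZMod 2) L) ⟨dO x, hdx⟩ (Rp p k), ?_⟩
        rw [Polynomial.hom_eval₂]
        congr 1
      · intro y hy z hz hyz
        exact dO_inj (Nb_pos hp.1.pos hpos.1 hpos.2 hy) (Nb_pos hp.1.pos hpos.1 hpos.2 hz) hyz
    obtain ⟨f, hf⟩ := ps X hps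
    have hyX : dO y ∈ X := Finset.mem_image_of_mem _ ((stp_iff hp.1.pos).1 hs)
    have h1 : IsAlgebraic L (dO y) := by
      refine ⟨f, ?_, ?_⟩
      · intro h0
        rw [h0, Polynomial.map_zero] at hf
        have h2 : (∏ z ∈ X, (Polynomial.X - Polynomial.C z)) ≠ 0 :=
          Finset.prod_ne_zero_iff.2 fun z _ => Polynomial.X_sub_C_ne_zero z
        exact h2 hf.symm
      · rw [← Polynomial.eval_map_algebraMap, hf, Polynomial.eval_prod]
        exact Finset.prod_eq_zero hyX (by simp)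
    exact h1.restrictScalars FF

open Classical in
/-- `D (ζ q ^ a)` in `KK` -/
noncomputable def dK (x : kk × ℚ) : KK :=
  if h : Vx x then ⟨dO x, mem_KK.2 (alg_dO h)⟩ else 0

theorem coe_dK {x : kk × ℚ} (h : Vx x) : (dK x : Om) = dO x := by
  rw [dK, dif_pos h]

theorem dK_inj {x y : kk × ℚ} (hx : Vx x) (hy : Vx y) (h : dK x = dK y) : x = y := by
  apply dO_inj hx.pos hy.pos
  rw [← coe_dK hx, ← coe_dK hy, h]

theorem Vx.stp {p : ℕ} (hp : p ∈ OP) {x y : kk × ℚ} (hx : Vx x) (h : Stp p x y) : Vx y :=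
  Relation.ReflTransGen.tail hx ⟨p, hp, h⟩

theorem Vx.con {T : Set ℕ} (hT : T ⊆ OP) {x y : kk × ℚ} (hx : Vx x) (h : Con T x y) : Vx y :=
  Con.trans hx (h.mono hT)

theorem nb_sum_K {p : ℕ} (hp : p ∈ OP) {x : kk × ℚ} (hx : Vx x) (k : ℕ) :
    ∑ y ∈ Nb p x.1 x.2, dK y ^ k =
      Polynomial.eval₂ (algebraMap (ZMod 2) KK) (dK x) (Rp p k) := by
  have hi : Function.Injective (algebraMap KK Om) := (algebraMap KK Om).injective
  apply hi
  rw [map_sum, Polynomial.hom_eval₂]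
  have h1 := nb_sum_O hp hx.pos k
  have h2 : (algebraMap KK Om).comp (algebraMap (ZMod 2) KK) = algebraMap (ZMod 2) Om :=
    Subsingleton.elim _ _
  rw [h2]
  have h3 : (algebraMap KK Om) (dK x) = dO x := coe_dK hx
  rw [h3, ← h1]
  refine Finset.sum_congr rfl fun y hy => ?_
  rw [map_pow]
  congr 1
  exact coe_dK (hx.stp hp ((stp_iff hp.1.pos).2 hy))

abbrev GG : Type := KK ≃ₐ[FF] KK

/-- an automorphism maps neighbours to neighbours -/
theorem act_stp (σ : GG) {p : ℕ} (hp : p ∈ OP) {x x' y : kk × ℚ} (hx : Vx x) (hx' : Vx x')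
    (h : σ (dK x) = dK x') (hy : Stp p x y) : ∃ y', Stp p x' y' ∧ σ (dK y) = dK y' := by
  classical
  have hinj : ∀ z : kk × ℚ, Vx z → Set.InjOn dK (Nb p z.1 z.2 : Set (kk × ℚ)) := by
    intro z hz a ha b hb hab
    exact dK_inj (hz.stp hp ((stp_iff hp.1.pos).2 ha)) (hz.stp hp ((stp_iff hp.1.pos).2 hb)) hab
  have h1 : (Nb p x.1 x.2).image (fun y => σ (dK y)) = (Nb p x'.1 x'.2).image dK := by
    apply ind
    intro k
    rw [Finset.sum_image (hinj x' hx'), Finset.sum_image (fun a ha b hb hab =>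
      hinj x hx ha hb (σ.injective hab)), nb_sum_K hp hx', ← h]
    have h2 := congrArg σ (nb_sum_K hp hx k)
    rw [map_sum] at h2
    simp only [map_pow] at h2
    rw [h2]
    have h3 := Polynomial.hom_eval₂ (Rp p k) (algebraMap (ZMod 2) KK) (σ : KK →+* KK) (dK x)
    refine h3.trans ?_
    congr 1
    exact Subsingleton.elim _ _
  have h2 : σ (dK y) ∈ (Nb p x'.1 x'.2).image dK := by
    rw [← h1]
    exact Finset.mem_image_of_mem (fun y => σ (dK y)) ((stp_iff hp.1.pos).1 hy)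
  obtain ⟨y', hy', h3⟩ := Finset.mem_image.1 h2
  exact ⟨y', (stp_iff hp.1.pos).2 hy', h3.symm⟩

theorem act_con (σ : GG) {T : Set ℕ} (hT : T ⊆ OP) {x x' y : kk × ℚ} (hx : Vx x) (hx' : Vx x')
    (h : σ (dK x) = dK x') (hy : Con T x y) : ∃ y', Con T x' y' ∧ σ (dK y) = dK y' := by
  induction hy with
  | refl => exact ⟨x', Relation.ReflTransGen.refl, h⟩
  | @tail y z hy hs ih =>
    obtain ⟨p, hp, hs⟩ := hs
    obtain ⟨y', h1, h2⟩ := ih
    obtain ⟨z', h3, h4⟩ := act_stp σ (hT hp) (hx.con hT hy) (hx'.con hT h1) h2 hs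
    exact ⟨z', Relation.ReflTransGen.tail h1 ⟨p, hp, h3⟩, h4⟩

theorem Vx_one : Vx (1, 1) := Relation.ReflTransGen.refl

theorem act_one (σ : GG) : σ (dK (1, 1)) = dK (1, 1) := by
  have h1 : dO (1, 1) ∈ FF := IntermediateField.subset_adjoin kk _ rfl
  have h2 : dK (1, 1) = algebraMap FF KK ⟨dO (1, 1), h1⟩ := by
    apply Subtype.ext
    rw [coe_dK Vx_one]
    rfl
  rw [h2]
  exact σ.commutes _

theorem act (σ : GG) {x : kk × ℚ} (hx : Vx x) : ∃ y, Vx y ∧ σ (dK x) = dK y :=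
  act_con σ subset_rfl Vx_one Vx_one (act_one σ) hx

end Pool.Agent.Q36.RD
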