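import Pool.Agent.Q36.RD.Main

set_option autoImplicit false

/-!
# Generating functions of restricted partitions modulo 2
-/

namespace Pool.Agent.Q36.RD

open PowerSeries

open scoped PowerSeries.WithPiTopology

section top

theorem continuous_expand [TopologicalSpace (ZMod 2)] (m : ℕ) (hm : m ≠ 0) :
    Continuous (PowerSeries.expand m hm : S2 → S2) := by
  rw [continuous_iff_continuousAt]
  intro f
  rw [ContinuousAt, PowerSeries.WithPiTopology.tendsto_iff_coeff_tendsto]
  intro d
  by_cases h : m ∣ d
  · have h1 : ∀ g : S2, coeff d (PowerSeries.expand m hm g) = coeff (d / m) g := by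
      intro g
      rw [PowerSeries.coeff_expand, if_pos h]
    simp only [h1]
    exact (PowerSeries.WithPiTopology.continuous_coeff (ZMod 2) (d / m)).continuousAt
  · have h1 : ∀ g : S2, coeff d (PowerSeries.expand m hm g) = 0 := by
      intro g
      rw [PowerSeries.coeff_expand, if_neg h]
    simp only [h1]
    exact tendsto_const_nhds

/-- the product of the factors with index divisible by `m` -/
theorem hasProd_expand [TopologicalSpace (ZMod 2)] [DiscreteTopology (ZMod 2)] (m : ℕ) (hm : m ≠ 0) :
    HasProd (fun i : ℕ => if m ∣ i + 1 then (1 - X ^ (i + 1) : S2) else 1)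
      (PowerSeries.expand m hm E2) := by
  have h1 := PowerSeries.WithPiTopology.hasProd_one_sub_X_pow (ZMod 2)
  have h2 := h1.map (PowerSeries.expand m hm : S2 →ₐ[ZMod 2] S2) (continuous_expand m hm)
  have hinj : Function.Injective (fun i : ℕ => m * (i + 1) - 1) := by
    intro a b h
    simp only at h
    have ha : 0 < m * (a + 1) := by positivity
    have hb : 0 < m * (b + 1) := by positivity
    have h3 : m * (a + 1) = m * (b + 1) := by omega
    have := Nat.eq_of_mul_eq_mul_left (Nat.pos_of_ne_zero hm) h3
    omega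
  rw [← hinj.hasProd_iff]
  · convert h2 using 1
    funext i
    simp only [Function.comp]
    have ha : 0 < m * (i + 1) := by positivity
    rw [Nat.sub_add_cancel ha, if_pos (dvd_mul_right _ _), map_sub, map_one, map_pow,
      PowerSeries.expand_X, ← pow_mul]
  · intro x hx
    rw [if_neg]
    rintro ⟨c, hc⟩
    apply hx
    rcases c with _ | c
    · omega
    · exact ⟨c, by simp only; omega⟩

/-- the generating function of partitions with parts in a set, times `∏ (1 - X ^ n)` -/
theorem hasProd_restricted [TopologicalSpace (ZMod 2)] [DiscreteTopology (ZMod 2)]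
    (p : ℕ → Prop) [DecidablePred p] :
    HasProd (fun i : ℕ => if p (i + 1) then (1 : S2) else 1 - X ^ (i + 1))
      ((PowerSeries.mk fun n => ((Nat.Partition.restricted n p).card : ZMod 2)) * E2) := by
  have h1 := Nat.Partition.hasProd_powerSeriesMk_card_restricted (ZMod 2) p
  have h2 := h1.mul (PowerSeries.WithPiTopology.hasProd_one_sub_X_pow (ZMod 2))
  have h3 : (fun i : ℕ => (if p (i + 1) then ∑' j : ℕ, (X : S2) ^ ((i + 1) * j) else 1) *
      (1 - X ^ (i + 1))) = fun i : ℕ => if p (i + 1) then (1 : S2) else 1 - X ^ (i + 1) := by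
    funext i
    split_ifs
    · simp_rw [pow_mul]
      exact PowerSeries.WithPiTopology.tsum_pow_mul_one_sub_of_constantCoeff_eq_zero (by simp)
    · rw [one_mul]
  rw [h3] at h2
  exact h2

end top

/-- `m`-regular partitions -/
theorem regular (m : ℕ) (hm : m ≠ 0) :
    (PowerSeries.mk fun n => ((Nat.Partition.restricted n (fun i => ¬ m ∣ i)).card : ZMod 2)) * E2 =
      PowerSeries.expand m hm E2 := by
  let _ : TopologicalSpace (ZMod 2) := ⊥
  have _ : DiscreteTopology (ZMod 2) := ⟨rfl⟩
  have h1 := hasProd_restricted (fun i => ¬ m ∣ i)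
  have h2 := hasProd_expand m hm
  refine h1.unique ?_
  convert h2 using 1
  funext i
  by_cases h : m ∣ i + 1
  · rw [if_pos h, if_neg (not_not.2 h)]
  · rw [if_neg h, if_pos h]

/-- partitions without parts congruent to 3 modulo 6 -/
theorem no_three :
    (PowerSeries.mk fun n => ((Nat.Partition.restricted n (fun i => ¬ i % 6 = 3)).card : ZMod 2)) * E2 *
      PowerSeries.expand 6 (by norm_num) E2 = PowerSeries.expand 3 (by norm_num) E2 := by
  let _ : TopologicalSpace (ZMod 2) := ⊥
  have _ : DiscreteTopology (ZMod 2) := ⟨rfl⟩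
  have h1 := (hasProd_restricted (fun i => ¬ i % 6 = 3)).mul (hasProd_expand 6 (by norm_num))
  have h2 := hasProd_expand 3 (by norm_num)
  refine h1.unique ?_
  convert h2 using 1
  funext i
  by_cases h : (i + 1) % 6 = 3
  · have h3 : ¬ 6 ∣ i + 1 := by omega
    have h4 : 3 ∣ i + 1 := by omega
    rw [if_neg (not_not.2 h), if_neg h3, if_pos h4, mul_one]
  · by_cases h3 : 6 ∣ i + 1
    · have h4 : 3 ∣ i + 1 := by omega
      rw [if_pos h, if_pos h3, if_pos h4, one_mul]
    · have h4 : ¬ 3 ∣ i + 1 := by omega
      rw [if_pos h, if_neg h3, if_neg h4, one_mul]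

end Pool.Agent.Q36.RD
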