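import Pool.Agent.Q36.RD.Cp

set_option autoImplicit false

/-!
# Sections of Hahn series: the part with exponents in a class modulo `2 ^ t`
-/

namespace Pool.Agent.Q36.RD

open Finset

/-- the 2-integral rational numbers -/
abbrev H2 : AddSubgroup ℚ := HH 2 Nat.prime_two

/-- `e` is congruent to `r` modulo `2 ^ t` -/
def Cl (r : ℚ) (t : ℕ) (e : ℚ) : Prop := (e - r) / 2 ^ t ∈ H2

theorem Cl_add {r s : ℚ} {t : ℕ} {e f : ℚ} (h : Cl r t e) (h' : Cl s t f) : Cl (r + s) t (e + f) := by
  unfold Cl at *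
  have := H2.add_mem h h'
  rwa [← add_div, show e - r + (f - s) = e + f - (r + s) by ring] at this

theorem Cl_sub {r s : ℚ} {t : ℕ} {e f : ℚ} (h : Cl r t e) (h' : Cl s t f) : Cl (r - s) t (e - f) := by
  unfold Cl at *
  have := H2.sub_mem h h'
  rwa [← sub_div, show e - r - (f - s) = e - f - (r - s) by ring] at this

theorem Cl_half {r : ℚ} {t : ℕ} {e : ℚ} : Cl r (t + 1) e ↔ Cl (r / 2) t (e / 2) := by
  unfold Cl
  rw [show (e - r) / 2 ^ (t + 1) = (e / 2 - r / 2) / 2 ^ t by rw [pow_succ]; field_simp]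

open Classical in
/-- the section -/
noncomputable def Sec (r : ℚ) (t : ℕ) (f : P) : P where
  coeff e := if Cl r t e then f.coeff e else 0
  isPWO_support' := f.isPWO_support.mono (by
    intro e he
    rw [Function.mem_support] at he
    rw [HahnSeries.mem_support]
    intro h
    rw [h, ite_self] at he
    exact he rfl)

open Classical in
theorem Sec_coeff (r : ℚ) (t : ℕ) (f : P) (e : ℚ) :
    (Sec r t f).coeff e = if Cl r t e then f.coeff e else 0 := rfl

theorem Sec_zero (r : ℚ) (t : ℕ) : Sec r t 0 = 0 := by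
  ext e
  rw [Sec_coeff]
  simp

theorem Sec_add (r : ℚ) (t : ℕ) (f g : P) : Sec r t (f + g) = Sec r t f + Sec r t g := by
  ext e
  rw [HahnSeries.coeff_add, Sec_coeff, Sec_coeff, Sec_coeff]
  split_ifs <;> simp

theorem Sec_sum {ι : Type*} (r : ℚ) (t : ℕ) (s : Finset ι) (f : ι → P) :
    Sec r t (∑ i ∈ s, f i) = ∑ i ∈ s, Sec r t (f i) := by
  classical
  induction s using Finset.induction_on with
  | empty => simp [Sec_zero]
  | insert a s ha ih => rw [Finset.sum_insert ha, Finset.sum_insert ha, Sec_add, ih]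

theorem coeff_sq (f : P) (e : ℚ) : (f ^ 2).coeff e = f.coeff (e / 2) ^ 2 := by
  classical
  rw [pow_two, HahnSeries.coeff_mul]
  set A := Finset.antidiagonal f.isPWO_support f.isPWO_support e with hA
  rw [← Finset.sum_filter_add_sum_filter_not A (fun ij => ij.1 = ij.2)]
  have h1 : ∑ ij ∈ A.filter (fun ij => ¬ ij.1 = ij.2), f.coeff ij.1 * f.coeff ij.2 = 0 := by
    refine Finset.sum_involution (fun ij _ => ij.swap) ?_ ?_ ?_ ?_
    · intro ij _
      simp only [Prod.fst_swap, Prod.snd_swap]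
      rw [mul_comm (f.coeff ij.2)]
      exact CharTwo.add_self_eq_zero _
    · intro ij hij _ h
      rw [Finset.mem_filter] at hij
      apply hij.2
      exact (congrArg Prod.fst h).symm
    · intro ij hij
      rw [Finset.mem_filter, hA, Finset.mem_antidiagonal] at hij ⊢
      refine ⟨⟨hij.1.2.1, hij.1.1, ?_⟩, fun h => hij.2 h.symm⟩
      rw [← hij.1.2.2]
      exact add_comm _ _
    · intro ij _
      exact Prod.swap_swap ij
  rw [h1, add_zero]
  by_cases h0 : f.coeff (e / 2) = 0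
  · rw [h0]
    rw [Finset.sum_eq_zero]
    · simp
    · intro ij hij
      rw [Finset.mem_filter, hA, Finset.mem_antidiagonal] at hij
      have h2 : ij.1 = e / 2 := by
        have := hij.1.2.2
        have h3 := hij.2
        rw [← h3] at this
        linarith
      rw [h2, h0, zero_mul]
  · rw [Finset.sum_eq_single (e / 2, e / 2)]
    · rw [pow_two]
    · intro ij hij hne
      exfalso
      apply hne
      rw [Finset.mem_filter, hA, Finset.mem_antidiagonal] at hij
      have h2 : ij.1 = e / 2 := by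
        have := hij.1.2.2
        have h3 := hij.2
        rw [← h3] at this
        linarith
      exact Prod.ext h2 (by rw [← hij.2, h2])
    · intro h
      exfalso
      apply h
      rw [Finset.mem_filter, hA, Finset.mem_antidiagonal]
      refine ⟨⟨?_, ?_, ?_⟩, rfl⟩
      · exact h0
      · exact h0
      · simp

theorem Sec_sq (r : ℚ) (t : ℕ) (f : P) : Sec r (t + 1) (f ^ 2) = (Sec (r / 2) t f) ^ 2 := by
  ext e
  rw [Sec_coeff, coeff_sq, coeff_sq, Sec_coeff]
  by_cases h : Cl (r / 2) t (e / 2)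
  · rw [if_pos h, if_pos (Cl_half.2 h)]
  · rw [if_neg h, if_neg (fun h' => h (Cl_half.1 h'))]
    simp

theorem Sec_of_all {r : ℚ} {t : ℕ} {f : P} (h : ∀ e, f.coeff e ≠ 0 → Cl r t e) : Sec r t f = f := by
  ext e
  rw [Sec_coeff]
  split_ifs with h1
  · rfl
  · by_contra h2
    exact h1 (h e (fun h3 => h2 h3.symm))

theorem Sec_of_none {r : ℚ} {t : ℕ} {f : P} (h : ∀ e, f.coeff e ≠ 0 → ¬ Cl r t e) :
    Sec r t f = 0 := by
  ext e
  rw [Sec_coeff]
  split_ifs with h1
  · by_contra h2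
    exact h e h2 h1
  · rfl

theorem exists_of_mul {f g : P} {e : ℚ} (h : (f * g).coeff e ≠ 0) :
    ∃ i j : ℚ, f.coeff i ≠ 0 ∧ g.coeff j ≠ 0 ∧ i + j = e := by
  rw [HahnSeries.coeff_mul] at h
  obtain ⟨ij, hij, -⟩ := Finset.exists_ne_zero_of_sum_ne_zero h
  rw [Finset.mem_antidiagonal] at hij
  exact ⟨ij.1, ij.2, hij.1, hij.2.1, hij.2.2⟩

theorem Sec_mul {r ρ : ℚ} {t : ℕ} {f g : P} (h : ∀ e, f.coeff e ≠ 0 → Cl ρ t e) :
    Sec r t (f * g) = f * Sec (r - ρ) t g := by
  have h1 : g = Sec (r - ρ) t g + (g - Sec (r - ρ) t g) := by ring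
  conv_lhs => rw [h1, mul_add, Sec_add]
  have e1 : Sec r t (f * (g - Sec (r - ρ) t g)) = 0 := by
    apply Sec_of_none
    intro e he hc
    obtain ⟨i, j, hi, hj, rfl⟩ := exists_of_mul he
    have h2 : Cl (r - ρ) t j := by
      have := Cl_sub hc (h i hi)
      rwa [add_sub_cancel_left] at this
    apply hj
    rw [HahnSeries.coeff_sub, Sec_coeff, if_pos h2, sub_self]
  rw [e1, add_zero]
  apply Sec_of_all
  · intro e he
    obtain ⟨i, j, hi, hj, rfl⟩ := exists_of_mul he
    have h2 : Cl (r - ρ) t j := by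
      by_contra h3
      rw [Sec_coeff, if_neg h3] at hj
      exact hj rfl
    have := Cl_add (h i hi) h2
    rwa [add_sub_cancel] at this

theorem Sec_mem {r : ℚ} {t : ℕ} {f : P} {H : AddSubgroup ℚ} (hf : f ∈ PH H) : Sec r t f ∈ PH H := by
  rw [mem_PH] at hf ⊢
  intro e he
  rw [Sec_coeff, hf e he, ite_self]

theorem Sec_0 {r : ℚ} {f : P} (hf : f ∈ PH H2) (hr : r ∈ H2) : Sec r 0 f = f := by
  apply Sec_of_all
  intro e he
  unfold Cl
  rw [pow_zero, div_one]
  apply H2.sub_mem _ hr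
  by_contra h
  exact he (mem_PH.1 hf e h)

theorem Sec_0' {r : ℚ} {f : P} (hf : f ∈ PH H2) (hr : r ∉ H2) : Sec r 0 f = 0 := by
  apply Sec_of_none
  intro e he hc
  unfold Cl at hc
  rw [pow_zero, div_one] at hc
  apply hr
  have he2 : e ∈ H2 := by
    by_contra h
    exact he (mem_PH.1 hf e h)
  have := H2.sub_mem he2 hc
  rwa [sub_sub_cancel] at this

end Pool.Agent.Q36.RD
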