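import Pool.Agent.Q36.RD.Cub
import Pool.Agent.Q36.RD.Sec

set_option autoImplicit false

/-!
# The field of the elements all whose conjugates are series with 2-integral exponents
-/

namespace Pool.Agent.Q36.RD

open IntermediateField

theorem aeval_mem' {F E : Type*} [Field F] [Field E] [Algebra F E] {L : IntermediateField F E} {x : E}
    (hx : x ∈ L) (g : Polynomial F) : Polynomial.aeval x g ∈ L := by
  rw [Polynomial.aeval_eq_sum_range]
  apply sum_mem
  intro i _
  exact L.smul_mem (pow_mem hx i)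

theorem sep_of_mem {F E : Type*} [Field F] [Field E] [Algebra F E] {x u : E}
    (hx : IsSeparable F x) (hu : u ∈ IntermediateField.adjoin F {x}) : IsSeparable F u := by
  have h1 : IntermediateField.adjoin F {x} ≤ separableClosure F E :=
    IntermediateField.adjoin_simple_le_iff.2 (mem_separableClosure_iff.2 hx)
  exact mem_separableClosure_iff.1 (h1 hu)

/-- `u ^ 2 + D v ^ 2` -/
def DecO (x : Om) : Prop := ∃ u ∈ FF, ∃ v ∈ FF, x = u ^ 2 + dO (1, 1) * v ^ 2

theorem DecO.add {x y : Om} (hx : DecO x) (hy : DecO y) : DecO (x + y) := by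
  obtain ⟨u, hu, v, hv, rfl⟩ := hx
  obtain ⟨u', hu', v', hv', rfl⟩ := hy
  refine ⟨u + u', FF.add_mem hu hu', v + v', FF.add_mem hv hv', ?_⟩
  rw [CharTwo.add_sq, CharTwo.add_sq]
  ring

theorem DecO.mul_sq {x c : Om} (hx : DecO x) (hc : c ∈ FF) : DecO (x * c ^ 2) := by
  obtain ⟨u, hu, v, hv, rfl⟩ := hx
  refine ⟨u * c, FF.mul_mem hu hc, v * c, FF.mul_mem hv hc, ?_⟩
  ring

theorem DecO.poly (g : Polynomial kk) : DecO (Polynomial.aeval (dO (1, 1)) g) := by
  induction g using Polynomial.induction_on' with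
  | add p q hp hq =>
    rw [map_add]
    exact hp.add hq
  | monomial n c =>
    rw [Polynomial.aeval_monomial]
    obtain ⟨z, hz⟩ := IsAlgClosed.exists_pow_nat_eq c (n := 2) (by norm_num)
    have hD : dO (1, 1) ∈ FF := D1_mem
    have hz' : algebraMap kk Om z ∈ FF := FF.algebraMap_mem z
    rcases Nat.even_or_odd' n with ⟨m, rfl | rfl⟩
    · refine ⟨algebraMap kk Om z * dO (1, 1) ^ m, FF.mul_mem hz' (pow_mem hD m), 0, FF.zero_mem, ?_⟩
      rw [← hz, map_pow]
      ring
    · refine ⟨0, FF.zero_mem, algebraMap kk Om z * dO (1, 1) ^ m, FF.mul_mem hz' (pow_mem hD m), ?_⟩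
      rw [← hz, map_pow]
      ring

theorem DecO.all {x : Om} (hx : x ∈ FF) : DecO x := by
  have hx' := hx
  unfold FF at hx'
  rw [IntermediateField.mem_adjoin_simple_iff] at hx'
  obtain ⟨r, s, h⟩ := hx'
  by_cases hs : Polynomial.aeval (io (dP 1 1)) s = 0
  · rw [hs, div_zero] at h
    exact ⟨0, FF.zero_mem, 0, FF.zero_mem, by rw [h]; simp⟩
  · have h1 : x = Polynomial.aeval (dO (1, 1)) (r * s) * (Polynomial.aeval (dO (1, 1)) s)⁻¹ ^ 2 := by
      rw [h, map_mul]
      have h2 : dO (1, 1) = io (dP 1 1) := rfl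
      rw [h2]
      field_simp
    rw [h1]
    apply (DecO.poly _).mul_sq
    apply FF.inv_mem
    have : ∀ g : Polynomial kk, Polynomial.aeval (dO (1, 1)) g ∈ FF := by
      intro g
      exact aeval_mem' D1_mem g
    exact this s

/-- `u ^ 2 + D v ^ 2` in an intermediate field -/
def Dec (L : IntermediateField FF KK) (x : KK) : Prop :=
  ∃ u ∈ L, ∃ v ∈ L, x = u ^ 2 + dK (1, 1) * v ^ 2

instance : CharP KK 2 := charP_of_injective_ringHom (f := (algebraMap FF KK)) (algebraMap FF KK).injective 2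

theorem Dec.add {L : IntermediateField FF KK} {x y : KK} (hx : Dec L x) (hy : Dec L y) :
    Dec L (x + y) := by
  obtain ⟨u, hu, v, hv, rfl⟩ := hx
  obtain ⟨u', hu', v', hv', rfl⟩ := hy
  refine ⟨u + u', L.add_mem hu hu', v + v', L.add_mem hv hv', ?_⟩
  rw [CharTwo.add_sq, CharTwo.add_sq]
  ring

theorem Dec.mul_sq {L : IntermediateField FF KK} {x c : KK} (hx : Dec L x) (hc : c ∈ L) :
    Dec L (x * c ^ 2) := by
  obtain ⟨u, hu, v, hv, rfl⟩ := hx
  refine ⟨u * c, L.mul_mem hu hc, v * c, L.mul_mem hv hc, ?_⟩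
  ring

theorem Dec.alg {L : IntermediateField FF KK} (x : FF) : Dec L (algebraMap FF KK x) := by
  obtain ⟨u, hu, v, hv, h⟩ := DecO.all x.2
  refine ⟨algebraMap FF KK ⟨u, hu⟩, L.algebraMap_mem _, algebraMap FF KK ⟨v, hv⟩, L.algebraMap_mem _, ?_⟩
  apply Subtype.ext
  have h1 : ((algebraMap FF KK x : KK) : Om) = x := rfl
  rw [h1, h]
  have h2 : ((algebraMap FF KK ⟨u, hu⟩ ^ 2 + dK (1, 1) * algebraMap FF KK ⟨v, hv⟩ ^ 2 : KK) : Om) =
    u ^ 2 + (dK (1, 1) : Om) * v ^ 2 := rfl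
  rw [h2, coe_dK Vx_one]

theorem Dec.poly {L : IntermediateField FF KK} {y : KK} (hy : y ∈ L) (g : Polynomial FF) :
    Dec L (Polynomial.aeval (y ^ 2) g) := by
  induction g using Polynomial.induction_on' with
  | add p q hp hq =>
    rw [map_add]
    exact hp.add hq
  | monomial n c =>
    rw [Polynomial.aeval_monomial, ← pow_mul, mul_comm 2 n, pow_mul]
    exact (Dec.alg c).mul_sq (pow_mem hy n)

theorem Dec.sep {y : KK} (hy : IsSeparable FF y) : Dec (IntermediateField.adjoin FF {y}) y := by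
  have h1 := IntermediateField.adjoin_simple_eq_adjoin_pow_expChar_of_isSeparable FF KK hy 2
  have hyL : y ∈ IntermediateField.adjoin FF {y} := IntermediateField.mem_adjoin_simple_self FF y
  have h2 := hyL
  rw [h1, IntermediateField.mem_adjoin_simple_iff] at h2
  obtain ⟨r, s, h⟩ := h2
  set L := IntermediateField.adjoin FF {y} with hL
  by_cases hs : Polynomial.aeval (y ^ 2) s = 0
  · rw [hs, div_zero] at h
    exact ⟨0, L.zero_mem, 0, L.zero_mem, by rw [h]; simp⟩
  · have h3 : y = Polynomial.aeval (y ^ 2) (r * s) * (Polynomial.aeval (y ^ 2) s)⁻¹ ^ 2 := by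
      conv_lhs => rw [h]
      rw [map_mul]
      field_simp
    have h4 : Polynomial.aeval (y ^ 2) s ∈ L := aeval_mem' (pow_mem hyL 2) s
    have h5 : Dec L (Polynomial.aeval (y ^ 2) (r * s) * (Polynomial.aeval (y ^ 2) s)⁻¹ ^ 2) :=
      (Dec.poly hyL _).mul_sq (L.inv_mem h4)
    rwa [← h3] at h5

/-- the elements all whose conjugates are series with 2-integral exponents -/
noncomputable def K2 : IntermediateField FF KK where
  carrier := {x | ∀ σ : GG, ∃ f ∈ PH H2, ((σ x : KK) : Om) = io f}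
  add_mem' := by
    intro x y hx hy σ
    obtain ⟨f, hf, h1⟩ := hx σ
    obtain ⟨g, hg, h2⟩ := hy σ
    refine ⟨f + g, (PH H2).add_mem hf hg, ?_⟩
    rw [map_add, map_add, ← h1, ← h2]
    rfl
  mul_mem' := by
    intro x y hx hy σ
    obtain ⟨f, hf, h1⟩ := hx σ
    obtain ⟨g, hg, h2⟩ := hy σ
    refine ⟨f * g, (PH H2).mul_mem hf hg, ?_⟩
    rw [map_mul, map_mul, ← h1, ← h2]
    rfl
  algebraMap_mem' := by
    intro x σ
    rw [σ.commutes]
    exact FF_io (one_mem_HH Nat.prime_two) x.2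
  inv_mem' := by
    intro x hx σ
    obtain ⟨f, hf, h1⟩ := hx σ
    refine ⟨f⁻¹, (PH H2).inv_mem hf, ?_⟩
    rw [map_inv₀, map_inv₀, ← h1]
    rfl

theorem mem_K2 {x : KK} : x ∈ K2 ↔ ∀ σ : GG, ∃ f ∈ PH H2, ((σ x : KK) : Om) = io f := Iff.rfl

theorem K2_act (σ : GG) {x : KK} (hx : x ∈ K2) : σ x ∈ K2 := by
  intro τ
  have := hx (σ.trans τ)
  exact this

theorem half_not_mem {e e' : ℚ} (he : e ∈ H2) (he' : e' ∈ H2) : 2 * e ≠ 1 + 2 * e' := by
  intro h
  have h1 : (1 : ℚ) / 2 ∈ H2 := by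
    have := H2.sub_mem he he'
    rwa [show e - e' = 1 / 2 by linarith] at this
  obtain ⟨m, hm, n, hn⟩ := h1
  have h2 : (m : ℚ) = 2 * n := by linarith
  have h3 : (m : ℤ) = 2 * n := by exact_mod_cast h2
  exact hm (by omega)

theorem K2_sep {x : KK} (hx : x ∈ K2) : IsSeparable FF x := by
  classical
  have : ExpChar FF 2 := ExpChar.prime Nat.prime_two
  have hex : ∃ n : ℕ, IsSeparable FF (x ^ 2 ^ n) := by
    obtain ⟨n, y, hy⟩ := IsPurelyInseparable.pow_mem (separableClosure FF KK) 2 x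
    refine ⟨n, ?_⟩
    rw [← hy]
    exact mem_separableClosure_iff.1 y.2
  have h0 := Nat.find_spec hex
  rcases hn : Nat.find hex with _ | m
  · rw [hn] at h0
    simpa using h0
  · exfalso
    have hmin : ¬ IsSeparable FF (x ^ 2 ^ m) := Nat.find_min hex (by omega)
    rw [hn] at h0
    obtain ⟨u, hu, v, hv, h1⟩ := Dec.sep h0
    have hyK : x ^ 2 ^ (m + 1) ∈ K2 := pow_mem hx _
    have hle : IntermediateField.adjoin FF {x ^ 2 ^ (m + 1)} ≤ K2 := by
      rw [IntermediateField.adjoin_simple_le_iff]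
      exact hyK
    obtain ⟨a, ha, h2⟩ := (hle hu) AlgEquiv.refl
    obtain ⟨b, hb, h3⟩ := (hle hv) AlgEquiv.refl
    obtain ⟨g, hg, h4⟩ := (pow_mem hx (2 ^ m)) AlgEquiv.refl
    have h5 : g ^ 2 = a ^ 2 + dP 1 1 * b ^ 2 := by
      apply io_inj
      have e2 : (u : Om) = io a := h2
      have e3 : (v : Om) = io b := h3
      have e4 : ((x ^ 2 ^ m : KK) : Om) = io g := h4
      rw [map_add, map_mul, map_pow, map_pow, map_pow, ← e2, ← e3, ← e4]
      have e5 : ((x ^ 2 ^ (m + 1) : KK) : Om) = ((x ^ 2 ^ m : KK) : Om) ^ 2 := by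
        rw [pow_succ, pow_mul]
        rfl
      rw [← e5, h1]
      have e6 : ((u ^ 2 + dK (1, 1) * v ^ 2 : KK) : Om) = (u : Om) ^ 2 + (dK (1, 1) : Om) * (v : Om) ^ 2 := rfl
      rw [e6, coe_dK Vx_one]
      rfl
    have hb0 : b = 0 := by
      by_contra hb0
      have h6 : (g - a) ^ 2 = dP 1 1 * b ^ 2 := by
        rw [CharTwo.sub_eq_add, CharTwo.add_sq, h5]
        rw [add_right_comm, CharTwo.add_self_eq_zero, zero_add]
      have hD : dP 1 1 ≠ 0 := dP_ne one_ne_zero one_pos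
      have hga : g - a ≠ 0 := by
        intro h7
        rw [h7] at h6
        have h8 := mul_ne_zero hD (pow_ne_zero 2 hb0)
        exact h8 (by rw [← h6]; simp)
      have h7 := congrArg od h6
      rw [od_pow hga, od_mul hD (pow_ne_zero 2 hb0), od_pow hb0, od_dP one_ne_zero one_pos] at h7
      push_cast at h7
      exact half_not_mem (od_mem ((PH H2).sub_mem hg ha) hga) (od_mem hb hb0) h7
    have h6 : g = a := by
      rw [hb0] at h5
      have h7 : g ^ 2 = a ^ 2 := by rw [h5]; simp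
      have := pow2_inj (K := P) 1 (x := g) (y := a) (by simpa using h7)
      exact this
    have h7 : x ^ 2 ^ m = u := by
      apply Subtype.ext
      have e2 : (u : Om) = io a := h2
      have e4 : ((x ^ 2 ^ m : KK) : Om) = io g := h4
      rw [e4, e2, h6]
    apply hmin
    rw [h7]
    exact sep_of_mem h0 hu

/-- **decomposition** -/
theorem K2_dec {x : KK} (hx : x ∈ K2) : ∃ u ∈ K2, ∃ v ∈ K2, x = u ^ 2 + dK (1, 1) * v ^ 2 := by
  obtain ⟨u, hu, v, hv, h⟩ := Dec.sep (K2_sep hx)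
  have hle : IntermediateField.adjoin FF {x} ≤ K2 := by
    rw [IntermediateField.adjoin_simple_le_iff]
    exact hx
  exact ⟨u, hle hu, v, hle hv, h⟩

end Pool.Agent.Q36.RD
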