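import Pool.Agent.Q36.RD.Cp

set_option autoImplicit false

/-!
# The field of the elements whose conjugates have `p`-integral exponents
-/

namespace Pool.Agent.Q36.RD

/-- a power of `x` is a series with exponents in `H` -/
def InP (H : AddSubgroup ℚ) (x : KK) : Prop := ∃ i : ℕ, ∃ f ∈ PH H, (x : Om) ^ 2 ^ i = io f

theorem InP.add {H : AddSubgroup ℚ} {x y : KK} (hx : InP H x) (hy : InP H y) : InP H (x + y) := by
  obtain ⟨i, f, hf, h1⟩ := hx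
  obtain ⟨j, g, hg, h2⟩ := hy
  refine ⟨i + j, f ^ 2 ^ j + g ^ 2 ^ i, (PH H).add_mem ((PH H).pow_mem hf _) ((PH H).pow_mem hg _),
    ?_⟩
  have h3 : ((x + y : KK) : Om) = x + y := rfl
  rw [h3, add_pow_char_pow, pow_add, pow_mul, h1, mul_comm (2 ^ i), pow_mul, h2, map_add, map_pow,
    map_pow]

theorem InP.mul {H : AddSubgroup ℚ} {x y : KK} (hx : InP H x) (hy : InP H y) : InP H (x * y) := by
  obtain ⟨i, f, hf, h1⟩ := hx
  obtain ⟨j, g, hg, h2⟩ := hy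
  refine ⟨i + j, f ^ 2 ^ j * g ^ 2 ^ i, (PH H).mul_mem ((PH H).pow_mem hf _) ((PH H).pow_mem hg _),
    ?_⟩
  have h3 : ((x * y : KK) : Om) = x * y := rfl
  rw [h3, mul_pow, pow_add, pow_mul, h1, mul_comm (2 ^ i), pow_mul, h2, map_mul, map_pow,
    map_pow]

theorem InP.inv {H : AddSubgroup ℚ} {x : KK} (hx : InP H x) : InP H x⁻¹ := by
  obtain ⟨i, f, hf, h1⟩ := hx
  refine ⟨i, f⁻¹, (PH H).inv_mem hf, ?_⟩
  have h3 : ((x⁻¹ : KK) : Om) = (x : Om)⁻¹ := rfl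
  rw [h3, inv_pow, h1, map_inv₀]

theorem InP.alg {H : AddSubgroup ℚ} (h1 : (1 : ℚ) ∈ H) (x : FF) : InP H (algebraMap FF KK x) := by
  obtain ⟨f, hf, h2⟩ := FF_io h1 x.2
  refine ⟨0, f, hf, ?_⟩
  rw [pow_zero, pow_one, ← h2]
  rfl

theorem InP.root {H : AddSubgroup ℚ} {x : KK} {n : ℕ} (hx : InP H (x ^ 2 ^ n)) : InP H x := by
  obtain ⟨i, f, hf, h1⟩ := hx
  refine ⟨n + i, f, hf, ?_⟩
  rw [← h1, pow_add, pow_mul]
  rfl

/-- all conjugates of `x` have exponents in `H` -/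
noncomputable def KH (H : AddSubgroup ℚ) (h1 : (1 : ℚ) ∈ H) : IntermediateField FF KK where
  carrier := {x | ∀ σ : GG, InP H (σ x)}
  add_mem' := by
    intro x y hx hy σ
    rw [map_add]
    exact (hx σ).add (hy σ)
  mul_mem' := by
    intro x y hx hy σ
    rw [map_mul]
    exact (hx σ).mul (hy σ)
  algebraMap_mem' := by
    intro x σ
    rw [σ.commutes]
    exact InP.alg h1 x
  inv_mem' := by
    intro x hx σ
    rw [map_inv₀]
    exact (hx σ).inv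

theorem mem_KH {H : AddSubgroup ℚ} {h1 : (1 : ℚ) ∈ H} {x : KK} :
    x ∈ KH H h1 ↔ ∀ σ : GG, InP H (σ x) := Iff.rfl

instance (H : AddSubgroup ℚ) (h1 : (1 : ℚ) ∈ H) : CharP (KH H h1) 2 :=
  charP_of_injective_ringHom (f := (algebraMap FF (KH H h1))) (algebraMap FF _).injective 2

/-- an element which is fixed by all automorphisms over `KH H` -/
theorem mem_of_fixed {H : AddSubgroup ℚ} {h1 : (1 : ℚ) ∈ H} {x : KK}
    (h : ∀ σ : GG, (∀ y ∈ KH H h1, σ y = y) → σ x = x) : x ∈ KH H h1 := by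
  have hn : Normal (KH H h1) KK := Normal.tower_top_of_normal FF (KH H h1) KK
  obtain ⟨n, y, hy⟩ := fix_pow (L := KH H h1) x (by
    intro τ
    have h2 := h (AlgEquiv.restrictScalars FF τ) (by
      intro y hy
      exact τ.commutes ⟨y, hy⟩)
    exact h2)
  intro σ
  have h3 := y.2 σ
  apply InP.root (n := n)
  rw [← map_pow, ← hy]
  exact h3

theorem mem_FF_of_fixed {x : KK} (h : ∀ σ : GG, σ x = x) : ∃ n : ℕ, (x : Om) ^ 2 ^ n ∈ FF := by
  obtain ⟨n, y, hy⟩ := fix_pow (L := FF) x h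
  refine ⟨n, ?_⟩
  have h2 : ((x ^ 2 ^ n : KK) : Om) = y := by rw [← hy]; rfl
  have h3 : (x : Om) ^ 2 ^ n = y := h2
  rw [h3]
  exact y.2

theorem od_mem {H : AddSubgroup ℚ} {f : P} (hf : f ∈ PH H) (h0 : f ≠ 0) : od f ∈ H := by
  by_contra h
  rw [mem_PH] at hf
  have h1 := v_od h0
  rw [HahnSeries.addVal_apply] at h1
  exact HahnSeries.coeff_orderTop_ne h1 (hf _ h)

theorem one_mem_HH {p : ℕ} (hp : p.Prime) : (1 : ℚ) ∈ HH p hp :=
  ⟨1, fun h => hp.one_lt.ne' (Nat.dvd_one.1 h), 1, by simp⟩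

/-- `p`-integral conjugates -/
noncomputable abbrev KI (p : ℕ) (hp : p.Prime) : IntermediateField FF KK := KH (HH p hp) (one_mem_HH hp)

theorem not_mem_HH {p : ℕ} (hp : p ∈ OP) (m : ℕ) : (2 : ℚ) ^ m * (1 / p) ∉ HH p hp.1 := by
  rintro ⟨k, hk, n, hn⟩
  have hp0 : (p : ℚ) ≠ 0 := by exact_mod_cast hp.1.ne_zero
  have h1 : (2 : ℚ) ^ m * k = n * p := by
    field_simp at hn
    linarith
  have h2 : (2 : ℤ) ^ m * k = n * p := by exact_mod_cast h1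
  have h3 : (p : ℤ) ∣ (2 : ℤ) ^ m * k := ⟨n, by rw [h2]; ring⟩
  have h4 : p ∣ 2 ^ m * k := by exact_mod_cast h3
  rcases hp.1.dvd_mul.1 h4 with h5 | h5
  · exact hp.2 ((Nat.prime_dvd_prime_iff_eq hp.1 Nat.prime_two).1 (hp.1.dvd_of_dvd_pow h5))
  · exact hk h5

theorem Vx_p {p : ℕ} (hp : p ∈ OP) : Vx (1, (p : ℚ)) :=
  Vx_one.stp hp (Or.inl ⟨by simp, by simp⟩)

/-- **the automorphism `s_p`** -/
theorem exists_sp {p : ℕ} (hp : p ∈ OP) : ∃ σ : GG, (∀ y ∈ KI p hp.1, σ y = y) ∧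
    σ (dK (1, (p : ℚ))) ≠ dK (1, (p : ℚ)) := by
  by_contra hcon
  push Not at hcon
  have hmem : dK (1, (p : ℚ)) ∈ KI p hp.1 := mem_of_fixed hcon
  have hfix : ∀ σ : GG, σ (dK (1, (p : ℚ))) = dK (1, (p : ℚ)) := by
    intro σ
    obtain ⟨y, hy, hσ⟩ := act_stp σ hp Vx_one Vx_one (act_one σ) (y := (1, (p : ℚ)))
      (Or.inl ⟨by simp, by simp⟩)
    rcases hy with ⟨h1, h2⟩ | ⟨h1, h2⟩
    · rw [hσ]
      congr 1
      refine Prod.ext ?_ ?_
      · rw [h1]; simp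
      · rw [h2]; simp
    · exfalso
      have hyV : Vx y := Vx_one.stp hp (Or.inr ⟨h1, h2⟩)
      obtain ⟨i, f, hf, h3⟩ := hmem σ
      rw [hσ, coe_dK hyV] at h3
      have h4 : f = dP y.1 y.2 ^ 2 ^ i := by
        apply io_inj
        rw [← h3, map_pow]
        rfl
      have h5 : dP y.1 y.2 ≠ 0 := dP_ne hyV.pos.1 hyV.pos.2
      have h6 := od_mem hf (by rw [h4]; exact pow_ne_zero _ h5)
      rw [h4, od_pow h5, od_dP hyV.pos.1 hyV.pos.2, h2] at h6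
      push_cast at h6
      exact not_mem_HH hp i h6
  obtain ⟨n, hn⟩ := mem_FF_of_fixed hfix
  rw [coe_dK (Vx_p hp)] at hn
  exact noF hp n hn

end Pool.Agent.Q36.RD
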