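import Pool.Agent.Q36.RD.CaseA

set_option autoImplicit false

/-!
# No progression of even coefficients
-/

namespace Pool.Agent.Q36.RD

open PowerSeries

/-- square roots modulo powers of 2 -/
theorem sqrt2 {α β : ℤ} (hα : Odd α) (h : (8 : ℤ) ∣ α - β) (t : ℕ) :
    ∃ x : ℤ, Odd x ∧ (2 ^ t : ℤ) ∣ α * x ^ 2 - β := by
  have h3 : ∀ t ≤ 3, ∃ x : ℤ, Odd x ∧ (2 ^ t : ℤ) ∣ α * x ^ 2 - β := by
    intro t ht
    refine ⟨1, odd_one, ?_⟩
    rw [one_pow, mul_one]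
    refine dvd_trans ?_ h
    rw [show (8 : ℤ) = 2 ^ 3 by norm_num]
    exact pow_dvd_pow 2 ht
  induction t with
  | zero => exact h3 0 (by norm_num)
  | succ t ih =>
    by_cases ht : t < 3
    · exact h3 (t + 1) (by omega)
    · obtain ⟨x, hx, c, hc⟩ := ih
      rcases Int.even_or_odd' c with ⟨d, rfl | rfl⟩
      · exact ⟨x, hx, d, by rw [hc]; ring⟩
      · obtain ⟨s, rfl⟩ : ∃ s, t = s + 3 := ⟨t - 3, by omega⟩
        obtain ⟨a, ha⟩ := hα.mul hx
        refine ⟨x + 2 ^ (s + 2), ?_, d + a + 1 + α * 2 ^ s, ?_⟩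
        · exact hx.add_even ⟨2 ^ (s + 1), by ring⟩
        · have e1 : α * (x + 2 ^ (s + 2)) ^ 2 - β = (α * x ^ 2 - β) + α * x * 2 ^ (s + 3) +
              α * 2 ^ s * 2 ^ (s + 4) := by ring
          rw [e1, hc, ha]
          ring

/-- square roots modulo powers of 3 -/
theorem sqrt3 {α β : ℤ} (hα : ¬ (3 : ℤ) ∣ α) (h : (3 : ℤ) ∣ α - β) (t : ℕ) :
    ∃ x : ℤ, ¬ (3 : ℤ) ∣ x ∧ (3 ^ t : ℤ) ∣ α * x ^ 2 - β := by
  induction t with
  | zero => exact ⟨1, by norm_num, by simp⟩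
  | succ t ih =>
    rcases t with _ | t
    · exact ⟨1, by norm_num, by simpa using h⟩
    obtain ⟨x, hx, c, hc⟩ := ih
    have h1 : ∃ j : ℤ, (3 : ℤ) ∣ c + 2 * (α * x) * j := by
      have h2 : ¬ (3 : ℤ) ∣ α * x := fun h => (Int.prime_three.dvd_or_dvd h).elim hα hx
      have h3 : (α * x) % 3 = 1 ∨ (α * x) % 3 = 2 := by omega
      rcases h3 with h3 | h3
      · refine ⟨c, ?_⟩
        have : c + 2 * (α * x) * c = c * (1 + 2 * (α * x)) := by ring
        rw [this]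
        apply Dvd.dvd.mul_left
        omega
      · refine ⟨-c, ?_⟩
        have : c + 2 * (α * x) * -c = c * (1 - 2 * (α * x)) := by ring
        rw [this]
        apply Dvd.dvd.mul_left
        omega
    obtain ⟨j, d, hd⟩ := h1
    refine ⟨x + 3 ^ (t + 1) * j, ?_, d + α * j ^ 2 * 3 ^ t, ?_⟩
    · intro h
      apply hx
      have h4 : (3 : ℤ) ∣ 3 ^ (t + 1) * j := ⟨3 ^ t * j, by ring⟩
      exact (Int.dvd_iff_dvd_of_dvd_add h).2 h4
    · have e1 : α * (x + 3 ^ (t + 1) * j) ^ 2 - β =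
          (α * x ^ 2 - β) + 3 ^ (t + 1) * (2 * (α * x) * j) + α * j ^ 2 * 3 ^ t * 3 ^ (t + 2) := by
        ring
      rw [e1, hc]
      have e2 : (3 : ℤ) ^ (t + 1) * c + 3 ^ (t + 1) * (2 * (α * x) * j) = 3 ^ (t + 1) * (3 * d) := by
        rw [← hd]
        ring
      rw [e2]
      ring

theorem odd_sq8 {x : ℤ} (h : Odd x) : (8 : ℤ) ∣ x ^ 2 - 1 := by
  obtain ⟨k, rfl⟩ := h
  obtain ⟨j, hj⟩ := Int.even_mul_succ_self k
  refine ⟨j, ?_⟩
  linear_combination 4 * hj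

/-- decomposition of the modulus -/
theorem two_part (A : ℕ) (hA : 0 < A) : ∃ u B : ℕ, Odd B ∧ A = 2 ^ u * B := by
  obtain ⟨u, B, hB, h⟩ := Nat.exists_eq_two_pow_mul_odd hA.ne'
  exact ⟨u, B, hB, h⟩

theorem three_part (A : ℕ) (hA : 0 < A) : ∃ w B : ℕ, ¬ 3 ∣ B ∧ A = 3 ^ w * B := by
  obtain ⟨w, B, hB, h⟩ := Nat.exists_eq_pow_mul_and_not_dvd hA.ne' 3 (by norm_num)
  exact ⟨w, B, hB, h⟩

/-- **Main theorem**: the coefficients of `f_1 ^ m f_3 ^ n` modulo 2 do not vanish on an arithmetic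
progression -/
theorem main (m n : ℤ) (hodd : Odd (m + 3 * n))
    (hcase : (0 ≤ n ∧ 3 * m + n < 0) ∨ (m + 3 * n < 0 ∧ ¬ (3 : ℤ) ∣ m)) {F : S2} (hF : EQ m n F)
    (A : ℕ) (hA : 0 < A) (r : ℕ) : ∃ k : ℕ, k ≡ r [MOD A] ∧ coeff k F ≠ 0 := by
  by_contra hcon
  push Not at hcon
  obtain ⟨u, B, hB, hAB⟩ := two_part A hA
  have hvan0 : ∀ k : ℕ, (2 ^ u : ℤ) ∣ k - r → (B : ℤ) ∣ k - r → coeff k F = 0 := by
    intro k h1 h2
    apply hcon
    have hc : IsCoprime (2 ^ u : ℤ) (B : ℤ) := by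
      apply IsCoprime.pow_left
      rw [show (2 : ℤ) = ((2 : ℕ) : ℤ) from rfl, Nat.isCoprime_iff_coprime]
      exact Nat.coprime_two_left.2 hB
    have h3 := hc.mul_dvd h1 h2
    rw [Nat.modEq_iff_dvd, hAB]
    push_cast
    have : (r : ℤ) - k = -(k - r) := by ring
    rw [this, dvd_neg]
    exact h3
  rcases hcase with ⟨hn, hmn⟩ | ⟨hs, hm3⟩
  · -- case A
    have hodd' : Odd (3 * m + n) := by
      obtain ⟨c, hc⟩ := hodd
      exact ⟨3 * c + 1 - 4 * n, by omega⟩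
    have hB2 : Odd ((B : ℤ) ^ 2) := (by exact_mod_cast hB : Odd (B : ℤ)).pow
    obtain ⟨x, hx, h1⟩ := sqrt2 (α := (3 * m + n) * (B : ℤ) ^ 2)
      (β := 3 * (24 * r + (m + 3 * n))) (hodd'.mul hB2) (by
        obtain ⟨c, hc⟩ := odd_sq8 (x := (B : ℤ)) (by exact_mod_cast hB)
        refine ⟨(3 * m + n) * c - 9 * r - n, ?_⟩
        linear_combination (3 * m + n) * hc) (u + 3)
    have hQodd : Odd (B * x.natAbs) := hB.mul (Int.natAbs_odd.2 hx)
    apply caseA hQodd hF hn hmn (u := u) (ρ := r)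
    · push_cast
      rw [mul_pow, sq_abs]
      have : (B : ℤ) ^ 2 * x ^ 2 * (3 * m + n) = (3 * m + n) * (B : ℤ) ^ 2 * x ^ 2 := by ring
      rw [this]
      exact h1
    · intro k h2 h3
      apply hvan0 k h2
      refine dvd_trans ?_ h3
      push_cast
      exact dvd_mul_right _ _
  · -- case B
    obtain ⟨w, C, hC3, hBC⟩ := three_part B hB.pos
    have hC : Odd C := by
      rw [hBC] at hB
      exact (Nat.odd_mul.1 hB).2
    have hCodd : Odd (C : ℤ) := by exact_mod_cast hC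
    have hC3' : ¬ (3 : ℤ) ∣ C := by
      intro h
      exact hC3 (by exact_mod_cast h)
    have hs3 : ¬ (3 : ℤ) ∣ m + 3 * n := by omega
    obtain ⟨x, hx, h1⟩ := sqrt2 (α := (m + 3 * n) * (C : ℤ) ^ 2)
      (β := 24 * r + (m + 3 * n)) (hodd.mul hCodd.pow) (by
        obtain ⟨c, hc⟩ := odd_sq8 hCodd
        refine ⟨(m + 3 * n) * c - 3 * r, ?_⟩
        linear_combination (m + 3 * n) * hc) (u + 3)
    obtain ⟨y, hy, h2⟩ := sqrt3 (α := (m + 3 * n) * (C : ℤ) ^ 2)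
      (β := 24 * r + (m + 3 * n)) (by
        intro h
        rcases Int.prime_three.dvd_or_dvd h with h | h
        · exact hs3 h
        · exact hC3' (Int.prime_three.dvd_of_dvd_pow h)) (by
        have hc : (3 : ℤ) ∣ (C : ℤ) ^ 2 - 1 := by
          have : (C : ℤ) % 3 = 1 ∨ (C : ℤ) % 3 = 2 := by omega
          rcases this with h | h
          · obtain ⟨c, hc⟩ : ∃ c, (C : ℤ) = 3 * c + 1 := ⟨(C : ℤ) / 3, by omega⟩
            exact ⟨3 * c ^ 2 + 2 * c, by rw [hc]; ring⟩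
          · obtain ⟨c, hc⟩ : ∃ c, (C : ℤ) = 3 * c + 2 := ⟨(C : ℤ) / 3, by omega⟩
            exact ⟨3 * c ^ 2 + 4 * c + 1, by rw [hc]; ring⟩
        obtain ⟨c, hc⟩ := hc
        refine ⟨(m + 3 * n) * c - 8 * r, ?_⟩
        linear_combination (m + 3 * n) * hc) (w + 1)
    -- Chinese remainder theorem
    have hcop : IsCoprime (2 ^ (u + 3) : ℤ) (3 ^ (w + 1)) := by
      apply IsCoprime.pow
      exact ⟨-1, 1, by norm_num⟩
    obtain ⟨a, b, hab⟩ := hcop
    set t : ℤ := x * (b * 3 ^ (w + 1)) + y * (a * 2 ^ (u + 3)) with ht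
    have ht2 : (2 ^ (u + 3) : ℤ) ∣ t - x := ⟨(y - x) * a, by
      rw [ht]
      linear_combination x * hab⟩
    have ht3 : (3 ^ (w + 1) : ℤ) ∣ t - y := ⟨(x - y) * b, by
      rw [ht]
      linear_combination y * hab⟩
    have htodd : Odd t := by
      obtain ⟨c, hc⟩ := ht2
      obtain ⟨d, hd⟩ := hx
      exact ⟨d + 2 ^ (u + 2) * c, by
        have : (2 : ℤ) ^ (u + 3) = 2 * 2 ^ (u + 2) := by ring
        rw [this] at hc
        linear_combination hc + hd⟩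
    have ht3' : ¬ (3 : ℤ) ∣ t := by
      intro h
      apply hy
      obtain ⟨c, hc⟩ := ht3
      obtain ⟨d, hd⟩ := h
      exact ⟨d - 3 ^ w * c, by
        have : (3 : ℤ) ^ (w + 1) = 3 * 3 ^ w := by ring
        rw [this] at hc
        linear_combination hd - hc⟩
    have hsq : ∀ (N z : ℤ), N ∣ t - z → N ∣ (m + 3 * n) * (C : ℤ) ^ 2 * z ^ 2 - (24 * r + (m + 3 * n)) →
        N ∣ (m + 3 * n) * (C : ℤ) ^ 2 * t ^ 2 - (24 * r + (m + 3 * n)) := by
      intro N z h3 h4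
      have : (m + 3 * n) * (C : ℤ) ^ 2 * t ^ 2 - (24 * r + (m + 3 * n)) =
        (t - z) * ((m + 3 * n) * (C : ℤ) ^ 2 * (t + z)) +
          ((m + 3 * n) * (C : ℤ) ^ 2 * z ^ 2 - (24 * r + (m + 3 * n))) := by ring
      rw [this]
      exact dvd_add (h3.mul_right _) h4
    have hk2 := hsq _ x ht2 h1
    have hk3 := hsq _ y ht3 h2
    have hQodd : Odd (C * t.natAbs) := hC.mul (Int.natAbs_odd.2 htodd)
    have hQ3 : ¬ 3 ∣ C * t.natAbs := by
      intro h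
      rcases (Nat.Prime.dvd_mul Nat.prime_three).1 h with h | h
      · exact hC3 h
      · apply ht3'
        have := Int.natCast_dvd.2 h
        exact_mod_cast this
    have hQ2 : ((C * t.natAbs : ℕ) : ℤ) ^ 2 * (m + 3 * n) = (m + 3 * n) * (C : ℤ) ^ 2 * t ^ 2 := by
      push_cast
      rw [mul_pow, sq_abs]
      ring
    apply caseB hQodd hQ3 hF hs (u := u) (ρ := r) (w := w)
    · rw [hQ2]
      exact hk2
    · rw [hQ2]
      exact hk3
    · intro k h3 h4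
      apply hvan0 k h3
      refine dvd_trans ?_ h4
      rw [hBC]
      push_cast
      rw [← mul_assoc]
      exact dvd_mul_right _ _

end Pool.Agent.Q36.RD
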