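import Pool.Agent.Q36.RD.Kp

set_option autoImplicit false

/-!
# Orders of the images
-/

namespace Pool.Agent.Q36.RD

/-! ## valuations along paths -/

theorem val_stp {p q : ℕ} (hp : p.Prime) (hq : q.Prime) (hpq : q ≠ p) {x y : kk × ℚ} (hx : 0 < x.2)
    (h : Stp p x y) : padicValRat q y.2 = padicValRat q x.2 := by
  have : Fact q.Prime := ⟨hq⟩
  have hp0 : (p : ℚ) ≠ 0 := by exact_mod_cast hp.ne_zero
  have h1 : padicValRat q (p : ℚ) = 0 := by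
    rw [padicValRat.of_nat]
    rw [padicValNat_primes (p := q) (q := p) (hp := ⟨hq⟩) (hq := ⟨hp⟩) hpq]
    rfl
  rcases h with ⟨-, h2⟩ | ⟨-, h2⟩
  · rw [h2, padicValRat.mul hp0 hx.ne', h1, zero_add]
  · rw [h2, padicValRat.div hx.ne' hp0, h1, sub_zero]

theorem con_pos {T : Set ℕ} (hT : T ⊆ OP) {x y : kk × ℚ} (hx : x.1 ≠ 0 ∧ 0 < x.2) (h : Con T x y) :
    y.1 ≠ 0 ∧ 0 < y.2 := by
  induction h with
  | refl => exact hx
  | tail _ hs ih =>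
    obtain ⟨p, hp, hs⟩ := hs
    exact Nb_pos (hT hp).1.pos ih.1 ih.2 ((stp_iff (hT hp).1.pos).1 hs)

theorem val_con {T : Set ℕ} (hT : T ⊆ OP) {q : ℕ} (hq : q.Prime) (hqT : q ∉ T) {x y : kk × ℚ}
    (hx : x.1 ≠ 0 ∧ 0 < x.2) (h : Con T x y) : padicValRat q y.2 = padicValRat q x.2 := by
  induction h with
  | refl => rfl
  | @tail y z hy hs ih =>
    obtain ⟨p, hp, hs⟩ := hs
    rw [← ih]
    exact val_stp (hT hp).1 hq (fun h => hqT (h ▸ hp)) (con_pos hT hx hy).2 hs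

theorem mem_HH_of_val {q : ℕ} (hq : q.Prime) {a : ℚ} (ha : 0 < a) (h : padicValRat q a = 0) :
    a ∈ HH q hq := by
  have : Fact q.Prime := ⟨hq⟩
  refine ⟨a.den, ?_, a.num, Rat.mul_den_eq_num a⟩
  intro hd
  have h1 : ¬ (q : ℤ) ∣ a.num := by
    intro hn
    have h2 : q ∣ a.num.natAbs := Int.natCast_dvd.1 hn
    have h3 := Nat.dvd_gcd h2 hd
    rw [a.reduced] at h3
    exact hq.one_lt.ne' (Nat.dvd_one.1 h3)
  rw [padicValRat_def, padicValInt.eq_zero_of_not_dvd h1] at h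
  have h4 : 1 ≤ padicValNat q a.den := one_le_padicValNat_of_dvd a.den_nz hd
  have h5 : ((padicValNat q a.den : ℕ) : ℤ) = 0 := by
    have h6 : ((0 : ℕ) : ℤ) = 0 := rfl
    linarith
  have h6 : padicValNat q a.den = 0 := by exact_mod_cast h5
  omega

/-- elements which are connected to `D` by steps with primes in `T` are in `KI q` for `q ∉ T` -/
theorem mem_KI {T : Set ℕ} (hT : T ⊆ OP) {q : ℕ} (hq : q.Prime) (hqT : q ∉ T) {x : kk × ℚ}
    (h : Con T (1, 1) x) : dK x ∈ KI q hq := by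
  intro σ
  obtain ⟨y, hy, h1⟩ := act_con σ hT Vx_one Vx_one (act_one σ) h
  have hyV : Vx y := Vx_one.con hT hy
  refine ⟨0, dP y.1 y.2, ?_, ?_⟩
  · apply dP_mem_PH hyV.pos.2
    apply mem_HH_of_val hq hyV.pos.2
    rw [val_con hT hq hqT ⟨one_ne_zero, one_pos⟩ hy]
    simp
  · rw [h1, coe_dK hyV, pow_zero, pow_one]
    rfl

/-! ## commuting steps -/

theorem stp_comm {p q : ℕ} (hp : p.Prime) (hq : q.Prime) (hpq : p ≠ q) {x x1 y : kk × ℚ}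
    (hx : x.1 ≠ 0) (h1 : Stp p x x1) (h2 : Stp q x y) : ∃ y1, Stp p y y1 ∧ Stp q x1 y1 := by
  obtain ⟨ζ, a⟩ := x
  obtain ⟨ξ, b⟩ := x1
  obtain ⟨η, c⟩ := y
  have hp0 : (p : ℚ) ≠ 0 := by exact_mod_cast hp.ne_zero
  have hq0 : (q : ℚ) ≠ 0 := by exact_mod_cast hq.ne_zero
  unfold Stp at h1 h2 ⊢
  simp only at h1 h2 hx ⊢
  rcases h1 with ⟨h1, h1'⟩ | ⟨h1, h1'⟩ <;> rcases h2 with ⟨h2, h2'⟩ | ⟨h2, h2'⟩
  · refine ⟨(ζ ^ (p * q), p * q * a), Or.inl ⟨?_, ?_⟩, Or.inl ⟨?_, ?_⟩⟩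
    · simp only [h2, ← pow_mul]; rw [mul_comm]
    · simp only [h2']; ring
    · simp only [h1, ← pow_mul]
    · simp only [h1']; ring
  · refine ⟨(η ^ p, p * a / q), Or.inl ⟨rfl, ?_⟩, Or.inr ⟨?_, ?_⟩⟩
    · simp only [h2']; ring
    · simp only [h1, ← h2, ← pow_mul]; rw [mul_comm]
    · simp only [h1']
  · refine ⟨(ξ ^ q, q * a / p), Or.inr ⟨?_, ?_⟩, Or.inl ⟨rfl, ?_⟩⟩
    · simp only [h2, ← h1, ← pow_mul]; rw [mul_comm]
    · simp only [h2']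
    · simp only [h1']; ring
  · have hξ : ξ ≠ 0 := by
      rintro rfl
      rw [zero_pow hp.ne_zero] at h1
      exact hx h1.symm
    have hη : η ≠ 0 := by
      rintro rfl
      rw [zero_pow hq.ne_zero] at h2
      exact hx h2.symm
    have hcop : IsCoprime (p : ℤ) (q : ℤ) := Nat.isCoprime_iff_coprime.2 ((Nat.coprime_primes hp hq).2 hpq)
    obtain ⟨u, w, huw⟩ := hcop
    refine ⟨(ξ ^ w * η ^ u, a / (p * q)), Or.inr ⟨?_, ?_⟩, Or.inr ⟨?_, ?_⟩⟩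
    · simp only
      rw [mul_pow, ← zpow_natCast (ξ ^ w), ← zpow_natCast (η ^ u), ← zpow_mul, ← zpow_mul,
        mul_comm w, zpow_mul, zpow_natCast ξ p, h1, ← h2, ← zpow_natCast η q, ← zpow_mul,
        ← zpow_add₀ hη]
      rw [show (q : ℤ) * w + u * p = 1 by linarith, zpow_one]
    · simp only [h2']; field_simp
    · simp only
      rw [mul_pow, ← zpow_natCast (ξ ^ w), ← zpow_natCast (η ^ u), ← zpow_mul, ← zpow_mul,
        mul_comm u, zpow_mul η, zpow_natCast η q, h2, ← h1, ← zpow_natCast ξ p, ← zpow_mul,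
        ← zpow_add₀ hξ]
      rw [show w * (q : ℤ) + p * u = 1 by linarith, zpow_one]
    · simp only [h1']; field_simp

theorem con_stp_comm {p q : ℕ} (hp : p ∈ OP) (hq : q ∈ OP) (hpq : p ≠ q) {x x0 y : kk × ℚ}
    (hx : x.1 ≠ 0 ∧ 0 < x.2) (h1 : Con {p} x x0) (h2 : Stp q x y) :
    ∃ y0, Con {p} y y0 ∧ Stp q x0 y0 := by
  induction h1 with
  | refl => exact ⟨y, Relation.ReflTransGen.refl, h2⟩
  | @tail b c hb hs ih =>
    obtain ⟨p', hp', hs⟩ := hs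
    rw [Set.mem_singleton_iff] at hp'
    subst hp'
    obtain ⟨y0, h3, h4⟩ := ih
    have hbpos := con_pos (T := {p'}) (by rintro _ rfl; exact hp) hx hb
    obtain ⟨y1, h5, h6⟩ := stp_comm hp.1 hq.1 hpq hbpos.1 hs h4
    exact ⟨y1, h3.tail ⟨p', rfl, h5⟩, h6⟩

theorem decomp {p : ℕ} (hp : p ∈ OP) {x : kk × ℚ} (hx : Vx x) :
    ∃ x0, Con {p} x x0 ∧ Con (OP \ {p}) (1, 1) x0 := by
  have hT : ({p} : Set ℕ) ⊆ OP := by rintro _ rfl; exact hp
  induction hx with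
  | refl => exact ⟨(1, 1), Relation.ReflTransGen.refl, Relation.ReflTransGen.refl⟩
  | @tail x y hx hs ih =>
    obtain ⟨q, hq, hs⟩ := hs
    obtain ⟨x0, h1, h2⟩ := ih
    by_cases hqp : p = q
    · subst hqp
      refine ⟨x0, ?_, h2⟩
      exact Relation.ReflTransGen.head ⟨p, rfl, hs.symm hp.1.pos⟩ h1
    · obtain ⟨y0, h3, h4⟩ := con_stp_comm hp hq hqp (Vx.pos hx) h1 hs
      exact ⟨y0, h3, h2.tail ⟨q, ⟨hq, fun h => hqp h.symm⟩, h4⟩⟩

/-- `σ` preserves the `q`-adic valuations of the orders -/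
def Pres (σ : GG) (q : ℕ) : Prop :=
  ∀ x x' : kk × ℚ, Vx x → Vx x' → σ (dK x) = dK x' → padicValRat q x'.2 = padicValRat q x.2

/-- an automorphism over `KI p` preserves the other valuations -/
theorem pres_of_fix {p : ℕ} (hp : p ∈ OP) {σ : GG} (hσ : ∀ y ∈ KI p hp.1, σ y = y) {q : ℕ}
    (hq : q.Prime) (hqp : q ≠ p) : Pres σ q := by
  have hT : ({p} : Set ℕ) ⊆ OP := by rintro _ rfl; exact hp
  intro x x' hx hx' h
  obtain ⟨x0, h1, h2⟩ := decomp hp hx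
  have hx0 : Vx x0 := hx.con hT h1
  have hfix : σ (dK x0) = dK x0 :=
    hσ _ (mem_KI (T := OP \ {p}) Set.sdiff_subset hp.1 (fun h => h.2 rfl) h2)
  obtain ⟨z, hz, h3⟩ := act_con σ hT hx0 hx0 hfix (h1.symm hT)
  have hz' : z = x' := dK_inj (hx0.con hT hz) hx' (h3.symm.trans h)
  subst hz'
  rw [val_con hT hq (by simpa using hqp) hx0.pos hz, ← val_con hT hq (by simpa using hqp) hx0.pos
    (h1.symm hT)]

/-! ## `s_p` on the powers -/

theorem Vx_pow {p : ℕ} (hp : p ∈ OP) (i : ℕ) : Vx (1, (p : ℚ) ^ i) := by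
  induction i with
  | zero => simpa using Vx_one
  | succ i ih => exact ih.stp hp (Or.inl ⟨by simp, by simp only [pow_succ]; ring⟩)

theorem sp_pow {p : ℕ} (hp : p ∈ OP) {σ : GG} (hσ : σ (dK (1, (p : ℚ))) ≠ dK (1, (p : ℚ))) (i : ℕ) :
    (∃ ξ, Vx (ξ, ((p : ℚ) ^ i)⁻¹) ∧ σ (dK (1, (p : ℚ) ^ i)) = dK (ξ, ((p : ℚ) ^ i)⁻¹)) ∧
    (∃ ξ, Vx (ξ, ((p : ℚ) ^ (i + 1))⁻¹) ∧
      σ (dK (1, (p : ℚ) ^ (i + 1))) = dK (ξ, ((p : ℚ) ^ (i + 1))⁻¹)) := by
  have hp0 : (0 : ℚ) < p := by exact_mod_cast hp.1.pos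
  have hp1 : (1 : ℚ) < p := by exact_mod_cast hp.1.one_lt
  induction i with
  | zero =>
    refine ⟨⟨1, by simpa using Vx_one, by simpa using act_one σ⟩, ?_⟩
    obtain ⟨y, hy, h1⟩ := act_stp σ hp Vx_one Vx_one (act_one σ) (y := (1, (p : ℚ)))
      (Or.inl ⟨by simp, by simp⟩)
    have hyV := Vx_one.stp hp hy
    rcases hy with ⟨h2, h3⟩ | ⟨h2, h3⟩
    · exfalso
      apply hσ
      rw [h1]
      congr 1
      refine Prod.ext ?_ ?_
      · rw [h2]; simp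
      · rw [h3]; simp
    · have hy2 : y = (y.1, ((p : ℚ) ^ (0 + 1))⁻¹) := by
        refine Prod.ext rfl ?_
        rw [h3]; simp
      refine ⟨y.1, ?_, ?_⟩
      · rw [← hy2]; exact hyV
      · rw [← hy2, ← h1]; simp
  | succ i ih =>
    refine ⟨ih.2, ?_⟩
    obtain ⟨⟨ξ0, hV0, h0⟩, ⟨ξ1, hV1, h1⟩⟩ := ih
    have hs : Stp p (1, (p : ℚ) ^ (i + 1)) (1, (p : ℚ) ^ (i + 1 + 1)) :=
      Or.inl ⟨by simp, by simp only [pow_succ]; ring⟩
    have hs0 : Stp p (1, (p : ℚ) ^ (i + 1)) (1, (p : ℚ) ^ i) :=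
      Or.inr ⟨by simp, by simp only [pow_succ]; field_simp⟩
    obtain ⟨y, hy, h2⟩ := act_stp σ hp (Vx_pow hp (i + 1)) hV1 h1 hs
    obtain ⟨z, hz, h3⟩ := act_stp σ hp (Vx_pow hp (i + 1)) hV1 h1 hs0
    have hyV := hV1.stp hp hy
    have hzV := hV1.stp hp hz
    have hz0 : z = (ξ0, ((p : ℚ) ^ i)⁻¹) := dK_inj hzV hV0 (h3.symm.trans h0)
    rcases hy with ⟨h4, h5⟩ | ⟨h4, h5⟩
    · exfalso
      rcases hz with ⟨h6, h7⟩ | ⟨h6, h7⟩
      · have hyz : y = z := Prod.ext (h4.trans h6.symm) (h5.trans h7.symm)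
        rw [hyz, ← h3] at h2
        have h8 := dK_inj (Vx_pow hp (i + 1 + 1)) (Vx_pow hp i) (σ.injective h2)
        have h9 : (p : ℚ) ^ (i + 1 + 1) = (p : ℚ) ^ i := (Prod.ext_iff.1 h8).2
        have h10 := pow_right_injective₀ hp0 hp1.ne' h9
        omega
      · rw [hz0] at h7
        simp only at h7
        have h8 : ((p : ℚ) ^ i)⁻¹ = ((p : ℚ) ^ (i + 2))⁻¹ := by
          rw [h7, pow_succ, pow_succ, pow_succ]
          field_simp
        have h9 := pow_right_injective₀ hp0 hp1.ne' (inv_injective h8)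
        omega
    · have hy2 : y = (y.1, ((p : ℚ) ^ (i + 1 + 1))⁻¹) := by
        refine Prod.ext rfl ?_
        rw [h5]
        simp only [pow_succ]
        field_simp
      refine ⟨y.1, ?_, ?_⟩
      · rw [← hy2]; exact hyV
      · rw [← hy2, ← h2]

end Pool.Agent.Q36.RD
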