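import Pool.Agent.Q36.RD.Bas
import Pool.Agent.H307R2.OP.MS

set_option autoImplicit false

/-!
# The functions `D (ζ q ^ a)` and their `p`-neighbours
-/

namespace Pool.Agent.Q36.RD

open PowerSeries

abbrev S2 : Type := (ZMod 2)⟦X⟧

noncomputable abbrev Db : S2 := Pool.Agent.H397R2.PP.Db
noncomputable abbrev Tp (p : ℕ) (f : S2) : S2 := Pool.Agent.H397R2.PP.Tp p f

/-- the inclusion `F_2[[X]] → kk[[X]]` -/
noncomputable def ik : S2 →+* kk⟦X⟧ := PowerSeries.map (algebraMap (ZMod 2) kk)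

theorem coeff_ik (n : ℕ) (f : S2) : coeff n (ik f) = algebraMap (ZMod 2) kk (coeff n f) :=
  PowerSeries.coeff_map _ _ _

/-- `D (ζ q ^ a)` -/
noncomputable def dP (ζ : kk) (a : ℚ) : P := ev ζ a (ik Db)

open Classical in
theorem coeff_Db (n : ℕ) : coeff n Db = if ∃ i : ℕ, n = (2 * i + 1) ^ 2 then (1 : ZMod 2) else 0 := by
  have h := congrArg (coeff n) Pool.Agent.H397R2.PP.Db_eq_theta
  rw [coeff_mk] at h
  exact h

theorem coeff_Db_zero : coeff 0 Db = 0 := by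
  rw [coeff_Db, if_neg]
  rintro ⟨i, hi⟩
  have : 0 < (2 * i + 1) ^ 2 := by positivity
  omega

theorem coeff_Db_one : coeff 1 Db = 1 := by
  rw [coeff_Db, if_pos ⟨0, by norm_num⟩]

theorem coeff_Db_mod {n : ℕ} (h : coeff n Db ≠ 0) : n % 8 = 1 := by
  rw [coeff_Db] at h
  by_contra hn
  apply h
  rw [if_neg]
  rintro ⟨i, rfl⟩
  apply hn
  have : (2 * i + 1) ^ 2 = 4 * (i * (i + 1)) + 1 := by ring
  obtain ⟨k, hk⟩ := Nat.even_mul_succ_self i
  rw [this, hk]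
  omega

theorem v_dP {ζ : kk} (hζ : ζ ≠ 0) {a : ℚ} (ha : 0 < a) : v (dP ζ a) = (a : WithTop ℚ) := by
  rw [dP, v_ev ha hζ (n := 1)]
  · norm_num
  · rw [coeff_ik, coeff_Db_one, map_one]
    exact one_ne_zero
  · intro m hm
    have : m = 0 := by omega
    rw [this, coeff_ik, coeff_Db_zero, map_zero]

theorem dP_coeff {ζ : kk} {a : ℚ} (ha : 0 < a) : (dP ζ a).coeff a = ζ := by
  rw [dP, ev_coeff' ha _ _ 1 a (by norm_num), coeff_ik, coeff_Db_one, map_one]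
  ring

theorem dP_ne {ζ : kk} (hζ : ζ ≠ 0) {a : ℚ} (ha : 0 < a) : dP ζ a ≠ 0 := by
  intro h
  have := v_dP hζ ha
  rw [h, AddValuation.map_zero] at this
  exact WithTop.coe_ne_top this.symm

theorem dP_inj {ζ ζ' : kk} (hζ : ζ ≠ 0) (hζ' : ζ' ≠ 0) {a a' : ℚ} (ha : 0 < a) (ha' : 0 < a')
    (h : dP ζ a = dP ζ' a') : ζ = ζ' ∧ a = a' := by
  have h1 := v_dP hζ ha
  rw [h, v_dP hζ' ha', WithTop.coe_inj] at h1
  subst h1
  refine ⟨?_, rfl⟩
  rw [← dP_coeff (ζ := ζ) ha, h, dP_coeff ha']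

/-- sums of roots of unity -/
theorem sum_roots {q : ℕ} (hodd : Odd q) {z : kk} (hz : IsPrimitiveRoot z q) (n : ℕ) :
    ∑ i ∈ Finset.range q, (z ^ i) ^ n = if q ∣ n then 1 else 0 := by
  have h1 : ∀ i, (z ^ i) ^ n = (z ^ n) ^ i := fun i => by rw [← pow_mul, ← pow_mul, mul_comm]
  simp only [h1]
  split_ifs with h
  · rw [(hz.pow_eq_one_iff_dvd n).2 h]
    simp only [one_pow, Finset.sum_const, Finset.card_range, nsmul_eq_mul, mul_one]
    obtain ⟨k, hk⟩ := hodd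
    rw [hk]
    push_cast
    rw [CharTwo.two_eq_zero (R := kk), zero_mul, zero_add]
  · have h2 : z ^ n ≠ 1 := fun h3 => h ((hz.pow_eq_one_iff_dvd n).1 h3)
    have h3 := mul_neg_geom_sum (z ^ n) q
    rw [← pow_mul, mul_comm n q, pow_mul, hz.pow_eq_one, one_pow, sub_self] at h3
    rcases mul_eq_zero.1 h3 with h4 | h4
    · exact absurd (sub_eq_zero.1 h4).symm h2
    · exact h4

/-- the decomposition of the Hecke operator -/
theorem hecke_sum {q : ℕ} (hq : q ≠ 0) (hodd : Odd q) {z : kk} (hz : IsPrimitiveRoot z q) (f : S2) :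
    PowerSeries.expand q hq (ik (Tp q f)) =
      ∑ i ∈ Finset.range q, PowerSeries.rescale (z ^ i) (ik f) +
      PowerSeries.expand q hq (PowerSeries.expand q hq (ik f)) := by
  have hq' : 0 < q := Nat.pos_of_ne_zero hq
  ext n
  rw [map_add, map_sum]
  simp only [PowerSeries.coeff_rescale]
  rw [← Finset.sum_mul, sum_roots hodd hz, PowerSeries.coeff_expand, PowerSeries.coeff_expand]
  by_cases h2 : q ∣ n
  · obtain ⟨k, rfl⟩ := h2
    rw [if_pos (Dvd.intro k rfl), if_pos (Dvd.intro k rfl), if_pos (Dvd.intro k rfl),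
      Nat.mul_div_cancel_left k hq', coeff_ik, PowerSeries.coeff_expand, coeff_ik, Tp,
      Pool.Agent.H397R2.PP.Tp, coeff_mk, map_add, one_mul]
    split_ifs with h3
    · rw [coeff_ik]
    · rw [map_zero]
  · rw [if_neg h2, if_neg h2, if_neg h2, zero_mul, zero_add]

theorem exists_R (p k : ℕ) (hp : p.Prime) (hp2 : p ≠ 2) (hk : 1 ≤ k) :
    ∃ R : Polynomial (ZMod 2), R.natDegree ≤ k ∧ Polynomial.aeval Db R = Tp p (Db ^ k) := by
  have h7 := Pool.Agent.H307R2.OP.MS.mem p k hp hp2 hk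
  have key : ∀ φ ∈ Submodule.span (ZMod 2)
      {φ : S2 | ∃ j : ℕ, j ≤ k ∧ j % 8 = (p * k) % 8 ∧ φ = Db ^ j},
      ∃ R : Polynomial (ZMod 2), R.natDegree ≤ k ∧ Polynomial.aeval Db R = φ := by
    intro φ hφ
    induction hφ using Submodule.span_induction with
    | mem x hx =>
      obtain ⟨j, hj, -, rfl⟩ := hx
      exact ⟨Polynomial.X ^ j, by rw [Polynomial.natDegree_X_pow]; exact hj,
        by rw [map_pow, Polynomial.aeval_X]⟩
    | zero => exact ⟨0, by simp, map_zero _⟩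
    | add x y _ _ hx hy =>
      obtain ⟨R, h1, rfl⟩ := hx
      obtain ⟨R', h2, rfl⟩ := hy
      exact ⟨R + R', (Polynomial.natDegree_add_le _ _).trans (max_le h1 h2), map_add _ _ _⟩
    | smul c x _ hx =>
      obtain ⟨R, h1, rfl⟩ := hx
      exact ⟨c • R, (Polynomial.natDegree_smul_le _ _).trans h1, map_smul _ _ _⟩
  exact key _ h7

open Classical in
/-- the polynomial with `T_p (D ^ k) = R (D)` -/
noncomputable def Rp (p k : ℕ) : Polynomial (ZMod 2) :=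
  if h : p.Prime ∧ p ≠ 2 ∧ 1 ≤ k then (exists_R p k h.1 h.2.1 h.2.2).choose else 0

theorem Rp_deg (p k : ℕ) : (Rp p k).natDegree ≤ k := by
  unfold Rp
  split_ifs with h
  · exact (exists_R p k h.1 h.2.1 h.2.2).choose_spec.1
  · simp

theorem Rp_eq {p k : ℕ} (hp : p.Prime) (hp2 : p ≠ 2) (hk : 1 ≤ k) :
    Polynomial.aeval Db (Rp p k) = Tp p (Db ^ k) := by
  unfold Rp
  rw [dif_pos ⟨hp, hp2, hk⟩]
  exact (exists_R p k hp hp2 hk).choose_spec.2

theorem Rp_zero (p : ℕ) : Rp p 0 = 0 := by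
  unfold Rp
  rw [dif_neg]
  rintro ⟨_, _, h⟩
  omega

/-- the roots of `X ^ p = ζ` -/
noncomputable def rts (p : ℕ) (ζ : kk) : Finset kk := (Polynomial.nthRoots p ζ).toFinset

theorem mem_rts {p : ℕ} (hp : 0 < p) {ζ ξ : kk} : ξ ∈ rts p ζ ↔ ξ ^ p = ζ := by
  rw [rts, Multiset.mem_toFinset, Polynomial.mem_nthRoots hp]

theorem rts_eq {p : ℕ} (hp : 0 < p) {z : kk} (hz : IsPrimitiveRoot z p) {ζ ξ : kk} (hζ : ζ ≠ 0)
    (h : ξ ^ p = ζ) : rts p ζ = (Finset.range p).image fun i => z ^ i * ξ := by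
  rw [rts, hz.nthRoots_eq h]
  ext x
  simp

theorem rts_sum {p : ℕ} (hp : 0 < p) {z : kk} (hz : IsPrimitiveRoot z p) {ζ ξ : kk} (hζ : ζ ≠ 0)
    (h : ξ ^ p = ζ) (g : kk → P) :
    ∑ x ∈ rts p ζ, g x = ∑ i ∈ Finset.range p, g (z ^ i * ξ) := by
  rw [rts_eq hp hz hζ h, Finset.sum_image]
  intro i hi j hj hij
  have hξ : ξ ≠ 0 := by
    rintro rfl
    exact hζ (by rw [← h, zero_pow hp.ne'])
  exact hz.pow_inj (Finset.mem_range.1 hi) (Finset.mem_range.1 hj) (mul_right_cancel₀ hξ hij)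

/-- the `p`-neighbours of `D (ζ q ^ a)` -/
noncomputable def Nb (p : ℕ) (ζ : kk) (a : ℚ) : Finset (kk × ℚ) :=
  insert (ζ ^ p, p * a) ((rts p ζ).image fun ξ => (ξ, a / p))

theorem mem_Nb {p : ℕ} (hp : 0 < p) {ζ : kk} {a : ℚ} {x : kk × ℚ} :
    x ∈ Nb p ζ a ↔ (x.1 = ζ ^ p ∧ x.2 = p * a) ∨ (x.1 ^ p = ζ ∧ x.2 = a / p) := by
  rw [Nb, Finset.mem_insert, Finset.mem_image]
  constructor
  · rintro (rfl | ⟨ξ, h1, rfl⟩)
    · exact Or.inl ⟨rfl, rfl⟩
    · exact Or.inr ⟨(mem_rts hp).1 h1, rfl⟩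
  · rintro (⟨h1, h2⟩ | ⟨h1, h2⟩)
    · exact Or.inl (Prod.ext h1 h2)
    · exact Or.inr ⟨x.1, (mem_rts hp).2 h1, Prod.ext rfl h2.symm⟩

theorem ev_aeval {a : ℚ} (ha : 0 < a) (ξ : kk) (R : Polynomial (ZMod 2)) (f : S2) :
    ev ξ a (ik (Polynomial.aeval f R)) =
      Polynomial.eval₂ (algebraMap (ZMod 2) P) (ev ξ a (ik f)) R := by
  rw [Polynomial.aeval_def]
  have h1 := Polynomial.hom_eval₂ R (algebraMap (ZMod 2) S2) ((ev ξ a).comp ik) f
  rw [RingHom.comp_apply, RingHom.comp_apply] at h1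
  rw [h1]
  congr 1
  exact Subsingleton.elim _ _

theorem exists_prim {p : ℕ} (hp : Odd p) : ∃ z : kk, IsPrimitiveRoot z p := by
  have hne : NeZero ((p : ℕ) : ZMod 2) := ⟨by
    rw [Ne, ZMod.natCast_eq_zero_iff]
    exact fun h => (Nat.not_even_iff_odd.2 hp) (even_iff_two_dvd.2 h)⟩
  exact HasEnoughRootsOfUnity.exists_primitiveRoot kk p

theorem nb_sum {p : ℕ} (hp : p.Prime) (hp2 : p ≠ 2) {ζ : kk} (hζ : ζ ≠ 0) {a : ℚ} (ha : 0 < a)
    (k : ℕ) : ∑ x ∈ Nb p ζ a, (dP x.1 x.2) ^ k =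
      Polynomial.eval₂ (algebraMap (ZMod 2) P) (dP ζ a) (Rp p k) := by
  have hp0 : (0 : ℚ) < p := by exact_mod_cast hp.pos
  have hodd := hp.odd_of_ne_two hp2
  obtain ⟨z, hz⟩ := exists_prim hodd
  obtain ⟨ξ, hξ⟩ := IsAlgClosed.exists_pow_nat_eq ζ hp.pos
  have hne : (ζ ^ p, (p : ℚ) * a) ∉ (rts p ζ).image fun ξ => (ξ, a / p) := by
    intro h
    obtain ⟨x, -, hx⟩ := Finset.mem_image.1 h
    have h1 : a / p = p * a := (Prod.ext_iff.1 hx).2
    rw [div_eq_iff hp0.ne'] at h1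
    have h2 : (1 : ℚ) < p := by exact_mod_cast hp.one_lt
    have h3 : a * 1 < a * ((p : ℚ) * p) := by
      apply mul_lt_mul_of_pos_left _ ha
      nlinarith
    linarith
  rw [Nb, Finset.sum_insert hne, Finset.sum_image (by
    intro x _ y _ h
    exact (Prod.ext_iff.1 h).1)]
  simp only
  rcases Nat.eq_zero_or_pos k with rfl | hk
  · rw [Rp_zero, Polynomial.eval₂_zero]
    simp only [pow_zero]
    rw [rts_sum hp.pos hz hζ hξ (fun _ => 1)]
    simp only [Finset.sum_const, Finset.card_range, nsmul_eq_mul, mul_one]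
    obtain ⟨m, hm⟩ := hodd
    rw [hm]
    push_cast
    rw [CharTwo.two_eq_zero (R := P), zero_mul, zero_add]
    exact CharTwo.add_self_eq_zero 1
  · have hap : 0 < a / p := by positivity
    have h1 := congrArg (ev ξ (a / p)) (hecke_sum hp.ne_zero hodd hz (Db ^ k))
    rw [map_add, map_sum, ev_expand hap, ev_expand hap, ev_expand (by positivity), hξ,
      mul_div_cancel₀ a hp0.ne'] at h1
    rw [rts_sum hp.pos hz hζ hξ (fun x => dP x (a / p) ^ k), ← Rp_eq hp hp2 hk, ev_aeval ha] at *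
    rw [show dP ζ a = ev ζ a (ik Db) from rfl, h1, add_comm]
    congr 1
    · refine Finset.sum_congr rfl fun i _ => ?_
      rw [ev_rescale hap, map_pow, map_pow]
      rfl
    · rw [map_pow, map_pow]
      rfl

theorem Nb_pos {p : ℕ} (hp : 0 < p) {ζ : kk} (hζ : ζ ≠ 0) {a : ℚ} (ha : 0 < a) {x : kk × ℚ}
    (hx : x ∈ Nb p ζ a) : x.1 ≠ 0 ∧ 0 < x.2 := by
  have hp0 : (0 : ℚ) < p := by exact_mod_cast hp
  rcases (mem_Nb hp).1 hx with ⟨h1, h2⟩ | ⟨h1, h2⟩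
  · rw [h1, h2]
    exact ⟨pow_ne_zero _ hζ, by positivity⟩
  · rw [h2]
    refine ⟨?_, by positivity⟩
    rintro h
    rw [h, zero_pow hp.ne'] at h1
    exact hζ h1.symm

end Pool.Agent.Q36.RD
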