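import Pool.Agent.Q36.RD.Mv

set_option autoImplicit false

/-!
# Automorphisms exchanging `D (q ^ M)` and `D (ξ q ^ (1 / M))`
-/

namespace Pool.Agent.Q36.RD

theorem rat_eq_one {a : ℚ} (ha : 0 < a) (h : ∀ q : ℕ, q.Prime → padicValRat q a = 0) : a = 1 := by
  have hd : a.den = 1 := by
    by_contra hne
    obtain ⟨q, hq, hqd⟩ := Nat.exists_prime_and_dvd hne
    obtain ⟨m, hm, n, hn⟩ := mem_HH_of_val hq ha (h q hq)
    have h1 : (a.num : ℚ) * m = n * a.den := by
      rw [← hn]
      conv_rhs => rw [mul_right_comm, Rat.mul_den_eq_num]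
    have h2 : a.num * m = n * a.den := by exact_mod_cast h1
    have h3 : (q : ℤ) ∣ a.num * m := by
      rw [h2]
      exact Dvd.dvd.mul_left (Int.natCast_dvd_natCast.2 hqd) n
    rcases (Nat.prime_iff_prime_int.1 hq).dvd_or_dvd h3 with h4 | h4
    · have h5 : q ∣ a.num.natAbs := Int.natCast_dvd.1 h4
      have h6 := Nat.dvd_gcd h5 hqd
      rw [a.reduced] at h6
      exact hq.one_lt.ne' (Nat.dvd_one.1 h6)
    · exact hm (Int.natCast_dvd_natCast.1 h4)
  have hn : a.num.natAbs = 1 := by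
    by_contra hne
    obtain ⟨q, hq, hqd⟩ := Nat.exists_prime_and_dvd hne
    have : Fact q.Prime := ⟨hq⟩
    have h1 := h q hq
    rw [padicValRat_def, hd] at h1
    have h2 : padicValNat q 1 = 0 := by simp
    rw [h2] at h1
    have h3 : 1 ≤ padicValNat q a.num.natAbs :=
      one_le_padicValNat_of_dvd (Int.natAbs_ne_zero.2 (Rat.num_pos.2 ha).ne') hqd
    have h4 : padicValInt q a.num = padicValNat q a.num.natAbs := rfl
    rw [h4] at h1
    have h5 : ((padicValNat q a.num.natAbs : ℕ) : ℤ) = 0 := by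
      have h6 : ((0 : ℕ) : ℤ) = 0 := rfl
      linarith
    have h6 : padicValNat q a.num.natAbs = 0 := by exact_mod_cast h5
    omega
  have h1 : a.num = 1 := by
    have := Rat.num_pos.2 ha
    omega
  rw [← Rat.num_div_den a, h1, hd]
  norm_num

theorem rat_eq {a b : ℚ} (ha : 0 < a) (hb : 0 < b)
    (h : ∀ q : ℕ, q.Prime → padicValRat q a = padicValRat q b) : a = b := by
  have h1 : a / b = 1 := by
    apply rat_eq_one (by positivity)
    intro q hq
    have : Fact q.Prime := ⟨hq⟩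
    rw [padicValRat.div ha.ne' hb.ne', h q hq, sub_self]
  rwa [div_eq_one_iff_eq hb.ne'] at h1

/-- the element `(1, M)` -/
theorem con_M {M : ℕ} (hM : Odd M) (x : kk × ℚ) (T : Set ℕ) (hT : ∀ p : ℕ, p.Prime → p ∣ M → p ∈ T) :
    Con T x (x.1 ^ M, M * x.2) := by
  induction M using Nat.strong_induction_on generalizing x with
  | _ M ih =>
  by_cases h1 : M = 1
  · subst h1
    have : (x.1 ^ 1, ((1 : ℕ) : ℚ) * x.2) = x := by simp
    rw [this]
    exact Relation.ReflTransGen.refl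
  · have hp := Nat.minFac_prime h1
    obtain ⟨M', hM'⟩ := Nat.minFac_dvd M
    set p := M.minFac with hpdef
    have hM0 : M' ≠ 0 := by
      rintro rfl
      rw [mul_zero] at hM'
      rw [hM'] at hM
      exact absurd hM (by decide)
    have hlt : M' < M := by
      rw [hM']
      exact lt_mul_left (Nat.pos_of_ne_zero hM0) hp.one_lt
    have hodd' : Odd M' := by
      rw [hM'] at hM
      exact (Nat.odd_mul.1 hM).2
    have h2 := ih M' hlt hodd' x (fun q hq hqd => hT q hq (by rw [hM']; exact hqd.mul_left p))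
    refine h2.tail ⟨p, hT p hp ⟨M', hM'⟩, Or.inl ⟨?_, ?_⟩⟩
    · simp only
      rw [← pow_mul, mul_comm, ← hM']
    · simp only
      rw [hM']
      push_cast
      ring

theorem odd_prime_of_dvd {M : ℕ} (hM : Odd M) {p : ℕ} (hp : p.Prime) (h : p ∣ M) : p ∈ OP := by
  refine ⟨hp, ?_⟩
  rintro rfl
  exact (Nat.not_even_iff_odd.2 hM) (even_iff_two_dvd.2 h)

/-- the primes dividing `M` -/
def DV (M : ℕ) : Set ℕ := {p | p.Prime ∧ p ∣ M}

theorem DV_sub {M : ℕ} (hM : Odd M) : DV M ⊆ OP := fun _ h => odd_prime_of_dvd hM h.1 h.2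

theorem con_one_M {M : ℕ} (hM : Odd M) : Con (DV M) (1, 1) (1, (M : ℚ)) := by
  have := con_M hM (1, 1) (DV M) (fun p hp h => ⟨hp, h⟩)
  simpa using this

theorem Vx_M {M : ℕ} (hM : Odd M) : Vx (1, (M : ℚ)) := (con_one_M hM).mono (DV_sub hM)

structure Good (M : ℕ) (σ : GG) : Prop where
  fx : ∀ T ⊆ OP, (∀ p ∈ T, ¬ p ∣ M) → ∀ x, Con T (1, 1) x → σ (dK x) = dK x
  pr : ∀ q : ℕ, q.Prime → ¬ q ∣ M → Pres σ q
  fi : ∀ y : KK, (∀ p : ℕ, ∀ hp : p.Prime, Odd p → y ∈ KI p hp) → σ y = y
  mv : ∃ ξ, Vx (ξ, 1 / (M : ℚ)) ∧ σ (dK (1, (M : ℚ))) = dK (ξ, 1 / (M : ℚ))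

theorem val_natCast_zero {q b : ℕ} (_hq : q.Prime) (h : ¬ q ∣ b) : padicValRat q (b : ℚ) = 0 := by
  rw [padicValRat.of_nat, padicValNat.eq_zero_of_not_dvd h]
  rfl

theorem exists_good {M : ℕ} (hM : Odd M) : ∃ σ : GG, Good M σ := by
  induction M using Nat.recOnPosPrimePosCoprime with
  | prime_pow p n hp hn =>
    have hpM : p ∣ p ^ n := dvd_pow_self p hn.ne'
    have hpO : p ∈ OP := odd_prime_of_dvd hM hp hpM
    obtain ⟨σ, h1, h2⟩ := exists_sp hpO
    refine ⟨σ, ?_, ?_, ?_, ?_⟩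
    · intro T hT hTp x hx
      exact h1 _ (mem_KI hT hp (fun h => hTp p h hpM) hx)
    · intro q hq hqM
      exact pres_of_fix hpO h1 hq (fun h => hqM (h ▸ hpM))
    · intro y hy
      exact h1 y (hy p hp (hp.odd_of_ne_two hpO.2))
    · obtain ⟨⟨ξ, h3, h4⟩, -⟩ := sp_pow hpO h2 n
      refine ⟨ξ, ?_, ?_⟩
      · push_cast
        rw [one_div]; exact h3
      · push_cast
        rw [one_div]; exact h4
  | zero => exact absurd hM (by decide)
  | one =>
    refine ⟨AlgEquiv.refl, fun T _ _ x _ => rfl, ?_, fun y _ => rfl, 1, ?_, ?_⟩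
    · intro q _ _ x x' hx hx' h
      rw [dK_inj hx hx' h]
    · simpa using Vx_one
    · simp
  | coprime a b ha hb hab iha ihb =>
    obtain ⟨hoa, hob⟩ := Nat.odd_mul.1 hM
    obtain ⟨σa, ga⟩ := iha hoa
    obtain ⟨σb, gb⟩ := ihb hob
    have ha0 : (0 : ℚ) < a := by exact_mod_cast (by omega : 0 < a)
    have hb0 : (0 : ℚ) < b := by exact_mod_cast (by omega : 0 < b)
    have hdisj : ∀ q : ℕ, q.Prime → q ∣ a → ¬ q ∣ b := by
      intro q hq h1 h2
      have := Nat.dvd_gcd h1 h2
      rw [hab] at this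
      exact hq.one_lt.ne' (Nat.dvd_one.1 this)
    refine ⟨σb.trans σa, ?_, ?_, ?_, ?_⟩
    · intro T hT hTp x hx
      rw [AlgEquiv.trans_apply, gb.fx T hT (fun p hp h => hTp p hp (h.mul_left a)) x hx,
        ga.fx T hT (fun p hp h => hTp p hp (h.mul_right b)) x hx]
    · intro q hq hqM x x' hx hx' h
      rw [AlgEquiv.trans_apply] at h
      obtain ⟨y, hy, h1⟩ := act σb hx
      rw [h1] at h
      rw [ga.pr q hq (fun h => hqM (h.mul_right b)) y x' hy hx' h,
        gb.pr q hq (fun h => hqM (h.mul_left a)) x y hx hy h1]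
    · intro y hy
      rw [AlgEquiv.trans_apply, gb.fi y hy, ga.fi y hy]
    · obtain ⟨ξa, hVa, hma⟩ := ga.mv
      obtain ⟨ξb, hVb, hmb⟩ := gb.mv
      have hVab := Vx_M hM
      obtain ⟨y, hy, h1⟩ := act σb hVab
      obtain ⟨z, hz, h2⟩ := act σa hy
      have c1 : Con (DV a) (1, (b : ℚ)) (1, ((a * b : ℕ) : ℚ)) := by
        have := con_M hoa (1, (b : ℚ)) (DV a) (fun p hp h => ⟨hp, h⟩)
        simpa using this
      have c2 : Con (DV b) (1, (a : ℚ)) (1, ((a * b : ℕ) : ℚ)) := by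
        have := con_M hob (1, (a : ℚ)) (DV b) (fun p hp h => ⟨hp, h⟩)
        simp only [one_pow] at this
        rw [mul_comm] at this
        simpa using this
      -- `y` is connected to the image of `(1, b)`
      have vy : ∀ q : ℕ, q.Prime → ¬ q ∣ a → padicValRat q y.2 = padicValRat q (1 / (b : ℚ)) := by
        intro q hq hqa
        obtain ⟨y', hy', h3⟩ := act_con σb (DV_sub hoa) (Vx_M hob) hVb hmb c1
        have : y' = y := dK_inj (hVb.con (DV_sub hoa) hy') hy (h3.symm.trans h1)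
        subst this
        exact val_con (DV_sub hoa) hq (fun h => hqa h.2) hVb.pos hy'
      have hfa : σb (dK (1, (a : ℚ))) = dK (1, (a : ℚ)) :=
        gb.fx (DV a) (DV_sub hoa) (fun p hp h => hdisj p hp.1 hp.2 h) _ (con_one_M hoa)
      have cy : Con (DV b) (1, (a : ℚ)) y := by
        obtain ⟨y', hy', h3⟩ := act_con σb (DV_sub hob) (Vx_M hoa) (Vx_M hoa) hfa c2
        have : y' = y := dK_inj ((Vx_M hoa).con (DV_sub hob) hy') hy (h3.symm.trans h1)
        subst this
        exact hy'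
      have vz : ∀ q : ℕ, q.Prime → ¬ q ∣ b → padicValRat q z.2 = padicValRat q (1 / (a : ℚ)) := by
        intro q hq hqb
        obtain ⟨z', hz', h3⟩ := act_con σa (DV_sub hob) (Vx_M hoa) hVa hma cy
        have : z' = z := dK_inj (hVa.con (DV_sub hob) hz') hz (h3.symm.trans h2)
        subst this
        exact val_con (DV_sub hob) hq (fun h => hqb h.2) hVa.pos hz'
      have hz2 : z.2 = 1 / ((a * b : ℕ) : ℚ) := by
        have hab0 : (0 : ℚ) < ((a * b : ℕ) : ℚ) := by push_cast; positivity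
        apply rat_eq hz.pos.2 (by positivity)
        intro q hq
        have : Fact q.Prime := ⟨hq⟩
        have e1 : padicValRat q (1 / ((a * b : ℕ) : ℚ)) =
            padicValRat q (1 / (a : ℚ)) + padicValRat q (1 / (b : ℚ)) := by
          rw [← padicValRat.mul (by positivity) (by positivity)]
          congr 1
          push_cast
          field_simp
        rw [e1]
        by_cases hqb : q ∣ b
        · have hqa : ¬ q ∣ a := fun h => hdisj q hq h hqb
          rw [ga.pr q hq hqa y z hy hz h2, vy q hq hqa]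
          rw [padicValRat.div one_ne_zero ha0.ne', val_natCast_zero hq hqa]
          simp
        · rw [vz q hq hqb]
          rw [padicValRat.div one_ne_zero hb0.ne', val_natCast_zero hq hqb]
          simp
      refine ⟨z.1, ?_, ?_⟩
      · rw [← hz2]; exact hz
      · rw [AlgEquiv.trans_apply, h1, h2, ← hz2]

/-! ## paths of length `N` -/

inductive RN : ℕ → kk × ℚ → Prop
  | base : RN 1 (1, 1)
  | step {N p : ℕ} {x y : kk × ℚ} : p ∈ OP → RN N x → Stp p x y → RN (p * N) y

theorem RN.vx {N : ℕ} {x : kk × ℚ} (h : RN N x) : Vx x := by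
  induction h with
  | base => exact Vx_one
  | step hp _ hs ih => exact ih.stp hp hs

theorem RN.struct {N : ℕ} {x : kk × ℚ} (h : RN N x) :
    ∃ b c : ℕ, 0 < b ∧ 0 < c ∧ b * c = N ∧ x.2 = (b : ℚ) / c ∧ x.1 ^ c = 1 := by
  induction h with
  | base => exact ⟨1, 1, one_pos, one_pos, rfl, by simp, by simp⟩
  | @step N p x y hp _ hs ih =>
    obtain ⟨b, c, hb, hc, h1, h2, h3⟩ := ih
    have hp0 : (p : ℚ) ≠ 0 := by exact_mod_cast hp.1.ne_zero
    rcases hs with ⟨h4, h5⟩ | ⟨h4, h5⟩
    · refine ⟨p * b, c, Nat.mul_pos hp.1.pos hb, hc, by rw [← h1]; ring, ?_, ?_⟩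
      · rw [h5, h2]; push_cast; ring
      · rw [h4, ← pow_mul, mul_comm, pow_mul, h3, one_pow]
    · refine ⟨b, p * c, hb, Nat.mul_pos hp.1.pos hc, by rw [← h1]; ring, ?_, ?_⟩
      · rw [h5, h2]; push_cast; field_simp
      · rw [pow_mul, h4, h3]

theorem RN.act (σ : GG) {N : ℕ} {x : kk × ℚ} (h : RN N x) : ∃ y, RN N y ∧ σ (dK x) = dK y := by
  induction h with
  | base => exact ⟨(1, 1), RN.base, act_one σ⟩
  | @step N p x y hp hx hs ih =>
    obtain ⟨x', hx', h1⟩ := ih
    obtain ⟨y', hy', h2⟩ := act_stp σ hp hx.vx hx'.vx h1 hs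
    exact ⟨y', RN.step hp hx' hy', h2⟩

theorem RN_down {N : ℕ} (hN : Odd N) {ζ : kk} (h : ζ ^ N = 1) : RN N (ζ, 1 / (N : ℚ)) := by
  induction N using Nat.strong_induction_on generalizing ζ with
  | _ N ih =>
  by_cases h1 : N = 1
  · subst h1
    rw [pow_one] at h
    subst h
    simpa using RN.base
  · have hp := Nat.minFac_prime h1
    obtain ⟨N', hN'⟩ := Nat.minFac_dvd N
    set p := N.minFac with hpdef
    have hpO : p ∈ OP := odd_prime_of_dvd hN hp ⟨N', hN'⟩
    have hN0 : N' ≠ 0 := by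
      rintro rfl
      rw [mul_zero] at hN'
      rw [hN'] at hN
      exact absurd hN (by decide)
    have hlt : N' < N := by
      rw [hN']
      exact lt_mul_left (Nat.pos_of_ne_zero hN0) hp.one_lt
    have hodd' : Odd N' := by
      rw [hN'] at hN
      exact (Nat.odd_mul.1 hN).2
    have h2 : (ζ ^ p) ^ N' = 1 := by rw [← pow_mul, ← hN', h]
    have h3 := ih N' hlt hodd' h2
    have h4 : RN (p * N') (ζ, 1 / (N : ℚ)) := by
      refine RN.step hpO h3 (Or.inr ⟨rfl, ?_⟩)
      simp only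
      have hp0 : (p : ℚ) ≠ 0 := by exact_mod_cast hp.ne_zero
      have hN0' : (N' : ℚ) ≠ 0 := by exact_mod_cast hN0
      rw [hN']
      push_cast
      field_simp
    rwa [← hN'] at h4

theorem RN_up {N : ℕ} (hN : Odd N) : RN N (1, (N : ℚ)) := by
  induction N using Nat.strong_induction_on with
  | _ N ih =>
  by_cases h1 : N = 1
  · subst h1
    simpa using RN.base
  · have hp := Nat.minFac_prime h1
    obtain ⟨N', hN'⟩ := Nat.minFac_dvd N
    set p := N.minFac with hpdef
    have hpO : p ∈ OP := odd_prime_of_dvd hN hp ⟨N', hN'⟩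
    have hN0 : N' ≠ 0 := by
      rintro rfl
      rw [mul_zero] at hN'
      rw [hN'] at hN
      exact absurd hN (by decide)
    have hlt : N' < N := by
      rw [hN']
      exact lt_mul_left (Nat.pos_of_ne_zero hN0) hp.one_lt
    have hodd' : Odd N' := by
      rw [hN'] at hN
      exact (Nat.odd_mul.1 hN).2
    have h3 := ih N' hlt hodd'
    have h4 : RN (p * N') (1, (N : ℚ)) := by
      refine RN.step hpO h3 (Or.inl ⟨by simp, ?_⟩)
      simp only
      rw [hN']
      push_cast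
      ring
    rwa [← hN'] at h4

/-- the order is at most `N`, with equality only at the top -/
theorem RN.le {N : ℕ} {y : kk × ℚ} (h : RN N y) : y.2 ≤ N ∧ (y.2 = N → y = (1, (N : ℚ))) := by
  obtain ⟨b, c, hb, hc, h1, h2, h3⟩ := h.struct
  have hb' : (0 : ℚ) < b := by exact_mod_cast hb
  have hc' : (1 : ℚ) ≤ c := by exact_mod_cast hc
  have hbc : (N : ℚ) = b * c := by rw [← h1]; push_cast; ring
  refine ⟨?_, ?_⟩
  · rw [h2, hbc, div_le_iff₀ (by linarith)]
    nlinarith [mul_le_mul_of_nonneg_left hc' hb'.le, mul_pos hb' (by linarith : (0 : ℚ) < c)]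
  · intro h4
    have h5 : c = 1 := by
      rw [h2, hbc, div_eq_iff (by linarith)] at h4
      have h6 : (b : ℚ) * 1 = b * (c * c) := by linarith
      have h7 := mul_left_cancel₀ hb'.ne' h6
      have h8 : 1 = c * c := by exact_mod_cast h7
      nlinarith
    subst h5
    rw [pow_one] at h3
    exact Prod.ext h3 h4

end Pool.Agent.Q36.RD
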