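import Pool.Agent.Q36.RD.Cm
import Pool.Agent.TH693.QQ.QD1

set_option autoImplicit false

/-!
# The 2-adic sections of `D` are fixed by the automorphisms `Good`
-/

namespace Pool.Agent.Q36.RD

open PowerSeries

/-- the theta function `∑ q ^ (z ^ 2)`, `z ≡ b mod 2 ^ k` -/
noncomputable def tS (k : ℕ) (b : ℤ) : S2 := Pool.Agent.TH693.QQ.th (2 ^ k) b

noncomputable def tP (k : ℕ) (b : ℤ) : P := ev 1 1 (ik (tS k b))

theorem tS_two {b : ℤ} (hb : Odd b) : tS 2 b = Db := Pool.Agent.TH693.QQ.D1.qd1.four b hb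

theorem tS_per (k : ℕ) (b : ℤ) : tS k (b + 2 ^ k) = tS k b := by
  have := Pool.Agent.TH693.QQ.D1.per (2 ^ k) b
  push_cast at this
  exact this

theorem tS_split (k : ℕ) (b : ℤ) : tS (k + 1) b + tS (k + 1) (b + 2 ^ k) = tS k b :=
  Pool.Agent.TH693.QQ.D1.split k b

theorem tS_prod (k : ℕ) (b : ℤ) (hk : 1 ≤ k) : tS (k + 1) b * tS (k + 1) (b + 2 ^ k) =
    Db ^ 2 ^ (2 * k - 1) * tS k (b + 2 ^ (k - 1)) ^ 2 :=
  Pool.Agent.TH693.QQ.D1.prod k b hk

theorem tS_supp (k : ℕ) (b : ℤ) (n : ℕ) (hk : 1 ≤ k) (h : coeff n (tS k b) ≠ 0) :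
    (2 ^ (k + 1) : ℤ) ∣ n - b ^ 2 := Pool.Agent.TH693.QQ.D1.supp k b n hk h

theorem tP_two {b : ℤ} (hb : Odd b) : tP 2 b = dP 1 1 := by
  rw [tP, tS_two hb]
  rfl

theorem tP_per (k : ℕ) (b : ℤ) : tP k (b + 2 ^ k) = tP k b := by rw [tP, tP, tS_per]

theorem tP_split (k : ℕ) (b : ℤ) : tP (k + 1) b + tP (k + 1) (b + 2 ^ k) = tP k b := by
  rw [tP, tP, tP, ← tS_split k b, map_add, map_add]

theorem tP_prod (k : ℕ) (b : ℤ) (hk : 1 ≤ k) : tP (k + 1) b * tP (k + 1) (b + 2 ^ k) =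
    dP 1 1 ^ 2 ^ (2 * k - 1) * tP k (b + 2 ^ (k - 1)) ^ 2 := by
  rw [tP, tP, ← map_mul, ← map_mul, tS_prod k b hk, map_mul, map_mul, map_pow, map_pow, map_pow,
    map_pow]
  rfl

theorem quad_aux {R : Type*} [CommRing R] [CharP R 2] (x w : R) : x ^ 2 = (x + w) * x + x * w := by
  have h := CharTwo.add_self_eq_zero (x * w)
  linear_combination -h

theorem tP_quad (k : ℕ) (b : ℤ) : tP (k + 3) b ^ 2 = tP (k + 2) b * tP (k + 3) b +
    dP 1 1 ^ 2 ^ (2 * (k + 2) - 1) * tP (k + 2) (b + 2 ^ (k + 1)) ^ 2 := by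
  have e1 := tP_split (k + 2) b
  have e2 := tP_prod (k + 2) b (by omega)
  rw [show k + 2 - 1 = k + 1 by omega] at e2
  rw [← e2, ← e1]
  exact quad_aux _ _

theorem tP_mem {H : AddSubgroup ℚ} (h1 : (1 : ℚ) ∈ H) (k : ℕ) (b : ℤ) : tP k b ∈ PH H := by
  rw [mem_PH]
  intro e he
  rw [tP, ev_coeff_not one_pos]
  rintro n rfl
  apply he
  rw [one_mul, ← nsmul_one]
  exact H.nsmul_mem h1 n

theorem tP_cl {k : ℕ} (hk : 1 ≤ k) {b : ℤ} {e : ℚ} (h : (tP k b).coeff e ≠ 0) {t : ℕ}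
    (ht : t ≤ k + 1) : Cl ((b : ℚ) ^ 2) t e := by
  by_cases he : ∃ n : ℕ, e = 1 * n
  · obtain ⟨n, rfl⟩ := he
    rw [tP, ev_coeff one_pos, coeff_ik] at h
    have h1 : coeff n (tS k b) ≠ 0 := by
      intro h0
      rw [h0] at h
      simp at h
    obtain ⟨c, hc⟩ := tS_supp k b n hk h1
    refine ⟨1, by norm_num, 2 ^ (k + 1 - t) * c, ?_⟩
    have h2 : ((n : ℚ) - (b : ℚ) ^ 2) = 2 ^ (k + 1) * c := by exact_mod_cast hc
    have h3 : (2 : ℚ) ^ (k + 1) = 2 ^ t * 2 ^ (k + 1 - t) := by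
      rw [← pow_add]
      congr 1
      omega
    rw [one_mul, h2, h3]
    push_cast
    field_simp
  · push Not at he
    exact absurd (ev_coeff_not one_pos _ _ _ he) h

theorem alg_quad {F Ω : Type*} [Field F] [Field Ω] [Algebra F Ω] {x y z : Ω}
    (hx : IsAlgebraic F x) (hy : IsAlgebraic F y) (h : z ^ 2 = x * z + y) : IsAlgebraic F z := by
  let L := algebraicClosure F Ω
  have h2 : IsAlgebraic L z := by
    refine ⟨Polynomial.X ^ 2 - (Polynomial.C (⟨x, mem_algebraicClosure_iff.2 hx⟩ : L) * Polynomial.X +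
      Polynomial.C (⟨y, mem_algebraicClosure_iff.2 hy⟩ : L)), ?_, ?_⟩
    · intro h0
      have := congrArg (fun g => Polynomial.coeff g 2) h0
      simp at this
    · rw [map_sub, map_add, map_pow, map_mul, Polynomial.aeval_X, Polynomial.aeval_C,
        Polynomial.aeval_C, h]
      exact sub_self _
  exact h2.restrictScalars F

/-- the theta functions are algebraic -/
theorem tP_alg (k : ℕ) : ∀ b : ℤ, Odd b → IsAlgebraic FF (io (tP (k + 2) b)) := by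
  have h0 : IsAlgebraic FF (io (dP 1 1)) := by
    have h1 := alg_dO Vx_one
    have h2 : dO (1, 1) = io (dP 1 1) := rfl
    rwa [h2] at h1
  induction k with
  | zero =>
    intro b hb
    rw [tP_two hb]
    exact h0
  | succ k ih =>
    intro b hb
    have hb2 : Odd (b + 2 ^ (k + 1)) := hb.add_even ⟨2 ^ k, by ring⟩
    have h1 := congrArg io (tP_quad k b)
    rw [map_pow, map_add, map_mul, map_mul, map_pow, map_pow] at h1
    exact alg_quad (ih b hb) ((h0.pow _).mul ((ih _ hb2).pow 2)) h1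

open Classical in
noncomputable def tK (k : ℕ) (b : ℤ) : KK :=
  if h : Odd b then ⟨io (tP (k + 2) b), mem_KK.2 (tP_alg k b h)⟩ else 0

theorem coe_tK {k : ℕ} {b : ℤ} (h : Odd b) : (tK k b : Om) = io (tP (k + 2) b) := by
  rw [tK, dif_pos h]

theorem odd_add {b : ℤ} (hb : Odd b) (k : ℕ) : Odd (b + 2 ^ (k + 1)) :=
  hb.add_even ⟨2 ^ k, by ring⟩

theorem tK_zero {b : ℤ} (h : Odd b) : tK 0 b = dK (1, 1) := by
  apply Subtype.ext
  rw [coe_tK h, tP_two h, coe_dK Vx_one]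
  rfl

theorem tK_per (k : ℕ) {b : ℤ} (hb : Odd b) : tK k (b + 2 ^ (k + 2)) = tK k b := by
  apply Subtype.ext
  rw [coe_tK hb, coe_tK (odd_add hb (k + 1)), tP_per]

theorem tK_split (k : ℕ) {b : ℤ} (hb : Odd b) : tK (k + 1) b + tK (k + 1) (b + 2 ^ (k + 2)) = tK k b := by
  apply Subtype.ext
  have e1 : ((tK (k + 1) b + tK (k + 1) (b + 2 ^ (k + 2)) : KK) : Om) =
    (tK (k + 1) b : Om) + (tK (k + 1) (b + 2 ^ (k + 2)) : Om) := rfl
  rw [e1, coe_tK hb, coe_tK hb, coe_tK (odd_add hb (k + 1)), ← map_add, tP_split]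

theorem tK_prod (k : ℕ) {b : ℤ} (hb : Odd b) : tK (k + 1) b * tK (k + 1) (b + 2 ^ (k + 2)) =
    dK (1, 1) ^ 2 ^ (2 * (k + 2) - 1) * tK k (b + 2 ^ (k + 1)) ^ 2 := by
  apply Subtype.ext
  have e1 : ((tK (k + 1) b * tK (k + 1) (b + 2 ^ (k + 2)) : KK) : Om) =
    (tK (k + 1) b : Om) * (tK (k + 1) (b + 2 ^ (k + 2)) : Om) := rfl
  have e2 : ((dK (1, 1) ^ 2 ^ (2 * (k + 2) - 1) * tK k (b + 2 ^ (k + 1)) ^ 2 : KK) : Om) =
    (dK (1, 1) : Om) ^ 2 ^ (2 * (k + 2) - 1) * (tK k (b + 2 ^ (k + 1)) : Om) ^ 2 := rfl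
  rw [e1, e2, coe_tK hb, coe_tK (odd_add hb (k + 1)), coe_tK (odd_add hb k), coe_dK Vx_one, ← map_mul,
    tP_prod (k + 2) b (by omega), map_mul, map_pow, map_pow]
  rfl

/-- the conjugates of the theta functions -/
theorem tK_act (σ : GG) (k : ℕ) : ∀ b : ℤ, Odd b → ∃ b' : ℤ, Odd b' ∧ σ (tK k b) = tK k b' ∧
    σ (tK k (b + 2 ^ (k + 1))) = tK k (b' + 2 ^ (k + 1)) := by
  induction k with
  | zero =>
    intro b hb
    refine ⟨b, hb, ?_, ?_⟩
    · rw [tK_zero hb, act_one]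
    · rw [tK_zero (odd_add hb 0), act_one]
  | succ k ih =>
    intro b hb
    obtain ⟨b', hb', h1, h2⟩ := ih b hb
    have e1 := congrArg σ (tK_split k hb)
    have e2 := congrArg σ (tK_prod k hb)
    rw [map_add, h1, ← tK_split k hb'] at e1
    rw [map_mul, map_mul, map_pow, map_pow, h2, act_one, ← tK_prod k hb'] at e2
    set X := σ (tK (k + 1) b)
    set Y := σ (tK (k + 1) (b + 2 ^ (k + 2)))
    set u := tK (k + 1) b'
    set w := tK (k + 1) (b' + 2 ^ (k + 2))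
    have h3 : (X - u) * (X - w) = 0 := by linear_combination X * e1 - e2
    rcases mul_eq_zero.1 h3 with h4 | h4
    · have h5 : X = u := sub_eq_zero.1 h4
      refine ⟨b', hb', h5, ?_⟩
      rw [h5] at e1
      exact add_left_cancel e1
    · have h5 : X = w := sub_eq_zero.1 h4
      refine ⟨b' + 2 ^ (k + 2), odd_add hb' (k + 1), h5, ?_⟩
      have h6 : tK (k + 1) (b' + 2 ^ (k + 2) + 2 ^ (k + 1 + 1)) = u := by
        rw [add_assoc, show (2 : ℤ) ^ (k + 2) + 2 ^ (k + 1 + 1) = 2 ^ (k + 1 + 2) by ring,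
          tK_per _ hb']
      rw [h6]
      rw [h5, add_comm u w] at e1
      exact add_left_cancel e1

theorem tK_mem {p : ℕ} (hp : p.Prime) (k : ℕ) {b : ℤ} (hb : Odd b) : tK k b ∈ KI p hp := by
  intro σ
  obtain ⟨b', hb', h1, -⟩ := tK_act σ k b hb
  refine ⟨0, tP (k + 2) b', tP_mem (one_mem_HH hp) _ _, ?_⟩
  rw [h1, coe_tK hb', pow_zero, pow_one]

theorem dP_sum (k : ℕ) : dP 1 1 = ∑ i ∈ Finset.range (2 ^ k), tP (k + 2) (1 + 4 * i) := by
  induction k with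
  | zero =>
    rw [pow_zero, Finset.sum_range_one, tP_two (by simp)]
  | succ k ih =>
    rw [pow_succ, mul_two, Finset.sum_range_add, ← Finset.sum_add_distrib, ih]
    refine Finset.sum_congr rfl fun i _ => ?_
    rw [← tP_split]
    congr 2
    push_cast
    ring

theorem Good.fixS {M : ℕ} {σ : GG} (h : Good M σ) : FixS σ := by
  intro t
  refine ⟨Finset.range (2 ^ t), fun i => ((1 + 4 * i : ℤ) : ℚ) ^ 2, fun i => tP (t + 2) (1 + 4 * i),
    fun i => tK t (1 + 4 * i), dP_sum t, ?_⟩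
  intro i _
  have hodd : Odd (1 + 4 * (i : ℤ)) := ⟨2 * i, by ring⟩
  refine ⟨fun e he => tP_cl (by omega) he (by omega), coe_tK hodd, ?_⟩
  exact h.fi _ (fun p hp _ => tK_mem hp t hodd)

theorem FixS.symm {σ : GG} (h : FixS σ) : FixS σ.symm := by
  intro t
  obtain ⟨B, β, S, s, hD, hB⟩ := h t
  refine ⟨B, β, S, s, hD, fun b hb => ⟨(hB b hb).1, (hB b hb).2.1, ?_⟩⟩
  rw [AlgEquiv.symm_apply_eq]
  exact (hB b hb).2.2.symm

end Pool.Agent.Q36.RD
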