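import Pool.Agent.Q36.RD.Th

set_option autoImplicit false

/-!
# The functions attached to the eta quotients `f_1 ^ m f_3 ^ n`
-/

namespace Pool.Agent.Q36.RD

open PowerSeries

/-- `∏ (1 - q ^ (3 n))` modulo 2 -/
noncomputable def E3 : S2 := PowerSeries.expand 3 (by norm_num) E2

/-- `F` is the reduction modulo 2 of `f_1 ^ m f_3 ^ n` -/
def EQ (m n : ℤ) (F : S2) : Prop := ∃ m1 m2 n1 n2 : ℕ, m = m2 - m1 ∧ n = n2 - n1 ∧
  F * E2 ^ m1 * E3 ^ n1 = E2 ^ m2 * E3 ^ n2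

theorem single_npow (a : ℚ) (ξ : kk) (n : ℕ) :
    (HahnSeries.single a ξ : P) ^ n = HahnSeries.single (a * n) (ξ ^ n) := by
  induction n with
  | zero => simp
  | succ n ih =>
    rw [pow_succ, ih, HahnSeries.single_mul_single, ← pow_succ]
    congr 1
    push_cast
    ring

theorem single_zpow' (a : ℚ) {ξ : kk} (hξ : ξ ≠ 0) (m : ℤ) :
    (HahnSeries.single a ξ : P) ^ m = HahnSeries.single (a * m) (ξ ^ m) := by
  cases m with
  | ofNat n => simpa using single_npow a ξ n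
  | negSucc n =>
    rw [zpow_negSucc, single_npow]
    apply inv_eq_of_mul_eq_one_right
    rw [HahnSeries.single_mul_single, zpow_negSucc, mul_inv_cancel₀ (pow_ne_zero _ hξ)]
    have h : a * ((n + 1 : ℕ) : ℚ) + a * ((Int.negSucc n : ℤ) : ℚ) = 0 := by
      rw [Int.cast_negSucc]
      push_cast
      ring
    rw [h]
    rfl

/-- `f_1 (ζ q ^ b)` -/
noncomputable def gP (ζ : kk) (b : ℚ) : P := ev ζ b (ik E2)

theorem gP_ne {ζ : kk} (_hζ : ζ ≠ 0) {b : ℚ} (hb : 0 < b) : gP ζ b ≠ 0 := by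
  have h1 : (gP ζ b).coeff (b * (0 : ℕ)) = 1 := by
    rw [gP, ev_coeff hb, coeff_ik]
    have h2 : coeff 0 E2 = 1 := by
      have := Pool.Agent.H397R2.PP.T3.cc_pent
      rw [coeff_zero_eq_constantCoeff]
      exact this
    rw [h2]
    simp
  intro h
  rw [h] at h1
  simp at h1

theorem ik_expand (m : ℕ) (hm : m ≠ 0) (f : S2) :
    ik (PowerSeries.expand m hm f) = PowerSeries.expand m hm (ik f) := by
  ext n
  rw [coeff_ik, PowerSeries.coeff_expand, PowerSeries.coeff_expand]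
  split_ifs
  · rw [coeff_ik]
  · simp

theorem gP_E3 {ζ : kk} {b : ℚ} (hb : 0 < b) : ev ζ b (ik E3) = gP (ζ ^ 3) (3 * b) := by
  rw [E3, ik_expand, ev_expand hb]
  push_cast
  rfl

theorem gP_F {m n : ℤ} {F : S2} (h : EQ m n F) {ζ : kk} (hζ : ζ ≠ 0) {b : ℚ} (hb : 0 < b) :
    gP ζ b ^ m * gP (ζ ^ 3) (3 * b) ^ n = ev ζ b (ik F) := by
  obtain ⟨m1, m2, n1, n2, hm, hn, hF⟩ := h
  have h1 := congrArg (fun f => ev ζ b (ik f)) hF
  simp only [map_mul, map_pow] at h1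
  rw [gP_E3 hb] at h1
  have e1 : gP ζ b ≠ 0 := gP_ne hζ hb
  have e2 : gP (ζ ^ 3) (3 * b) ≠ 0 := gP_ne (pow_ne_zero 3 hζ) (by positivity)
  have h2 : ev ζ b (ik F) * gP ζ b ^ m1 * gP (ζ ^ 3) (3 * b) ^ n1 =
    gP ζ b ^ m2 * gP (ζ ^ 3) (3 * b) ^ n2 := h1
  rw [hm, hn, zpow_sub₀ e1, zpow_sub₀ e2, zpow_natCast, zpow_natCast, zpow_natCast, zpow_natCast]
  field_simp
  rw [← h2]
  ring

/-- the function -/
noncomputable def wP (m n : ℤ) (ξ : kk) (a : ℚ) : P := cP ξ a ^ m * cP (ξ ^ 3) (3 * a) ^ n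

theorem cP_gP {a : ℚ} (ha : 0 < a) (ξ : kk) :
    cP ξ a = HahnSeries.single a ξ * gP (ξ ^ 3) (3 * a) ^ 8 := cP_eq ha ξ

theorem zpow_aux {K : Type*} [Field K] (x y : K) (m n : ℤ) :
    (x ^ m * y ^ n) ^ 8 = (x ^ 8) ^ m * (y ^ 8) ^ n := by
  have h : ∀ (z : K) (l : ℤ), (z ^ l) ^ 8 = (z ^ 8) ^ l := by
    intro z l
    rw [← zpow_natCast (z ^ l), ← zpow_natCast z 8, ← zpow_mul, ← zpow_mul, mul_comm]
  rw [mul_pow, h, h]

theorem wP_eq {m n : ℤ} {F : S2} (h : EQ m n F) {ξ : kk} (hξ : ξ ≠ 0) {a : ℚ} (ha : 0 < a) :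
    wP m n ξ a = HahnSeries.single (a * ((m + 3 * n : ℤ) : ℚ)) (ξ ^ (m + 3 * n)) *
      ev (ξ ^ 24) (24 * a) (ik F) := by
  have e1 : gP (ξ ^ 3) (3 * a) ≠ 0 := gP_ne (pow_ne_zero 3 hξ) (by positivity)
  have h1 := gP_F h (pow_ne_zero 3 hξ) (by positivity : 0 < 3 * a)
  have h2 : ev (ξ ^ 24) (24 * a) (ik F) = (ev (ξ ^ 3) (3 * a) (ik F)) ^ 8 := by
    rw [← map_pow, ← map_pow, Pool.Agent.H397R2.PP.pow_eq_expand' 8 3 (by norm_num) (by norm_num),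
      ik_expand, ev_expand (by positivity)]
    have e2 : (ξ ^ 3) ^ 8 = ξ ^ 24 := by rw [← pow_mul]
    have e3 : ((8 : ℕ) : ℚ) * (3 * a) = 24 * a := by push_cast; ring
    rw [e2, e3]
  rw [h2, ← h1, wP, cP_gP ha, cP_gP (by positivity : 0 < 3 * a), mul_zpow, mul_zpow,
    single_zpow' _ hξ, single_zpow' _ (pow_ne_zero 3 hξ)]
  have h3 : (HahnSeries.single (a * ((m + 3 * n : ℤ) : ℚ)) (ξ ^ (m + 3 * n)) : P) =
      HahnSeries.single (a * m) (ξ ^ m) * HahnSeries.single (3 * a * n) ((ξ ^ 3) ^ n) := by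
    rw [HahnSeries.single_mul_single]
    congr 1
    · congr 1
      push_cast
      ring
    · rw [← zpow_natCast ξ 3, ← zpow_mul, ← zpow_add₀ hξ]
      push_cast
      rfl
  rw [h3]
  have h4 : (gP (ξ ^ 3) (3 * a) ^ m * gP ((ξ ^ 3) ^ 3) (3 * (3 * a)) ^ n) ^ 8 =
      (gP (ξ ^ 3) (3 * a) ^ 8) ^ m * (gP ((ξ ^ 3) ^ 3) (3 * (3 * a)) ^ 8) ^ n := zpow_aux _ _ _ _
  rw [h4]
  ring

theorem wP_coeff {m n : ℤ} {F : S2} (h : EQ m n F) {ξ : kk} (hξ : ξ ≠ 0) {a : ℚ} (ha : 0 < a)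
    (k : ℕ) : (wP m n ξ a).coeff (a * ((24 * k + (m + 3 * n) : ℤ) : ℚ)) =
      ξ ^ (24 * k + (m + 3 * n) : ℤ) * algebraMap (ZMod 2) kk (coeff k F) := by
  rw [wP_eq h hξ ha]
  have e1 : a * ((24 * k + (m + 3 * n) : ℤ) : ℚ) =
      (24 * a) * (k : ℚ) + a * ((m + 3 * n : ℤ) : ℚ) := by
    push_cast
    ring
  rw [e1, HahnSeries.coeff_single_mul_add, ev_coeff (by positivity), coeff_ik, ← mul_assoc]
  congr 1
  rw [← pow_mul, ← zpow_natCast, ← zpow_add₀ hξ]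
  congr 1
  push_cast
  ring

theorem wP_coeff_not {m n : ℤ} {F : S2} (h : EQ m n F) {ξ : kk} (hξ : ξ ≠ 0) {a : ℚ} (ha : 0 < a)
    {e : ℚ} (he : ∀ k : ℕ, e ≠ a * ((24 * k + (m + 3 * n) : ℤ) : ℚ)) : (wP m n ξ a).coeff e = 0 := by
  rw [wP_eq h hξ ha]
  have e1 : e = (e - a * ((m + 3 * n : ℤ) : ℚ)) + a * ((m + 3 * n : ℤ) : ℚ) := by ring
  rw [e1, HahnSeries.coeff_single_mul_add, ev_coeff_not (by positivity), mul_zero]
  intro k hk
  apply he k
  rw [sub_eq_iff_eq_add] at hk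
  rw [hk]
  push_cast
  ring

theorem cP_ne' {ξ : kk} (hξ : ξ ≠ 0) {a : ℚ} (ha : 0 < a) : cP ξ a ≠ 0 := cP_ne hξ ha

theorem wP_ne (m n : ℤ) {ξ : kk} (hξ : ξ ≠ 0) {a : ℚ} (ha : 0 < a) : wP m n ξ a ≠ 0 :=
  mul_ne_zero (zpow_ne_zero _ (cP_ne hξ ha))
    (zpow_ne_zero _ (cP_ne (pow_ne_zero 3 hξ) (by positivity)))

theorem od_wP (m n : ℤ) {ξ : kk} (hξ : ξ ≠ 0) {a : ℚ} (ha : 0 < a) :
    od (wP m n ξ a) = a * ((m + 3 * n : ℤ) : ℚ) := by
  have e1 := cP_ne hξ ha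
  have e2 := cP_ne (pow_ne_zero 3 hξ) (by positivity : 0 < 3 * a)
  rw [wP, od_mul (zpow_ne_zero _ e1) (zpow_ne_zero _ e2), od_zpow e1, od_zpow e2, od_cP hξ ha,
    od_cP (pow_ne_zero 3 hξ) (by positivity)]
  push_cast
  ring

/-! ## the cube root `c` is a theta series -/

theorem c_theta : X * (PowerSeries.expand 3 (by norm_num) E2) ^ 8 =
    Db + PowerSeries.expand 9 (by norm_num) Db := by
  classical
  have h1 : (PowerSeries.expand 3 (by norm_num) E2 : S2) ^ 8 =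
      PowerSeries.expand 24 (by norm_num) E2 := by
    rw [Pool.Agent.H397R2.PP.pow_eq_expand' 8 3 (by norm_num) (by norm_num)]
    rw [← PowerSeries.expand_mul]
  rw [h1]
  ext n
  rw [map_add, PowerSeries.coeff_expand, coeff_Db]
  have h2 : coeff n (X * PowerSeries.expand 24 (by norm_num) E2 : S2) =
      if ∃ j : ℤ, n = 24 * pentagonal j + 1 then 1 else 0 := by
    rcases n with _ | k
    · rw [coeff_zero_X_mul, if_neg]
      rintro ⟨j, hj⟩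
      omega
    · rw [coeff_succ_X_mul]
      unfold E2
      rw [Pool.Agent.H397R2.PP.TH.pent_eq, Pool.Agent.H397R2.PP.TH.expand_ind,
        Pool.Agent.H397R2.PP.TH.coeff_ind]
      congr 1
      apply propext
      constructor
      · rintro ⟨k', h3, j, hj⟩
        exact ⟨j, by rw [h3, hj]⟩
      · rintro ⟨j, hj⟩
        exact ⟨pentagonal j, by omega, j, rfl⟩
  rw [h2]
  by_cases hs : ∃ i : ℕ, n = (2 * i + 1) ^ 2
  · obtain ⟨i, hi⟩ := hs
    have d1 : (if ∃ i : ℕ, n = (2 * i + 1) ^ 2 then (1 : ZMod 2) else 0) = 1 := if_pos ⟨i, hi⟩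
    rw [d1]
    by_cases h3 : (2 * i + 1) % 3 = 0
    · have h4 : ∃ l : ℕ, i = 3 * l + 1 := ⟨i / 3, by omega⟩
      obtain ⟨l, rfl⟩ := h4
      have h5 : n = 9 * (2 * l + 1) ^ 2 := by rw [hi]; ring
      have d2 : (if 9 ∣ n then coeff (n / 9) Db else 0) = 1 := by
        rw [if_pos ⟨_, h5⟩, coeff_Db, h5, Nat.mul_div_cancel_left _ (by norm_num), if_pos ⟨l, rfl⟩]
      have d3 : (if ∃ j : ℤ, n = 24 * pentagonal j + 1 then (1 : ZMod 2) else 0) = 0 := by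
        apply if_neg
        rintro ⟨j, hj⟩
        omega
      rw [d2, d3]
      rfl
    · obtain ⟨j, hj⟩ := Pool.Agent.H397R2.PP.TH.cop_sq (A := 2 * i + 1) (by omega) h3
      have d3 : (if ∃ j : ℤ, n = 24 * pentagonal j + 1 then (1 : ZMod 2) else 0) = 1 :=
        if_pos ⟨j, by rw [hi, hj]⟩
      have d2 : (if 9 ∣ n then coeff (n / 9) Db else 0) = 0 := by
        apply if_neg
        rintro ⟨l, hl⟩
        have : (2 * i + 1) ^ 2 % 3 = 0 := by rw [← hi, hl]; omega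
        have h5 : 3 ∣ (2 * i + 1) ^ 2 := Nat.dvd_of_mod_eq_zero this
        have h6 := Nat.Prime.dvd_of_dvd_pow Nat.prime_three h5
        omega
      rw [d2, d3, add_zero]
  · have d1 : (if ∃ i : ℕ, n = (2 * i + 1) ^ 2 then (1 : ZMod 2) else 0) = 0 := if_neg hs
    have d2 : (if 9 ∣ n then coeff (n / 9) Db else 0) = 0 := by
      split_ifs with h9
      · obtain ⟨l, hl⟩ := h9
        rw [coeff_Db, if_neg]
        rintro ⟨i, hi⟩
        apply hs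
        refine ⟨3 * i + 1, ?_⟩
        rw [hl, Nat.mul_div_cancel_left _ (by norm_num)] at hi
        rw [hl, hi]
        ring
      · rfl
    have d3 : (if ∃ j : ℤ, n = 24 * pentagonal j + 1 then (1 : ZMod 2) else 0) = 0 := by
      apply if_neg
      rintro ⟨j, hj⟩
      apply hs
      have h3 := Pool.Agent.H397R2.PP.TH.pent_sq j
      have h4 : (n : ℤ) = (6 * j - 1) ^ 2 := by rw [hj]; push_cast; exact h3
      have hodd : (6 * j - 1) % 2 = 1 := by omega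
      refine ⟨((|6 * j - 1| - 1) / 2).toNat, ?_⟩
      have h5 : |6 * j - 1| % 2 = 1 := by
        rcases abs_cases (6 * j - 1) with ⟨h', -⟩ | ⟨h', -⟩ <;> rw [h'] <;> omega
      have h6 := abs_nonneg (6 * j - 1)
      have h7 : 2 * ((((|6 * j - 1| - 1) / 2).toNat : ℕ) : ℤ) + 1 = |6 * j - 1| := by omega
      zify
      rw [h7, sq_abs, h4]
    rw [d1, d2, d3, add_zero]

theorem cP_theta {a : ℚ} (ha : 0 < a) (ξ : kk) : cP ξ a = dP ξ a + dP (ξ ^ 9) (9 * a) := by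
  have h1 : cT = ik (Db + PowerSeries.expand 9 (by norm_num) Db) := by
    rw [← c_theta, map_mul, map_pow, ik_expand, cT]
    congr 1
    exact (PowerSeries.map_X _).symm
  rw [cP, h1, map_add, map_add, ik_expand, ev_expand ha]
  push_cast
  rfl

end Pool.Agent.Q36.RD
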